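import Pool.Agent.BdrySing.Curves

open Set MeasureTheory Metric Module Filter Topology
open scoped ContDiff RealInnerProductSpace Manifold ENNReal

noncomputable section

open scoped Classical

namespace BdrySing

lemma continuous_unlin1 {V : Type} [NormedAddCommGroup V] [InnerProductSpace ℝ V] :
    Continuous (fun y : V [⋀^Fin 1]→L[ℝ] ℝ => (unlin1 y : V →L[ℝ] ℝ)) :=
  (contDiff_unlin1 (n := 0)).continuous

lemma SheetData.cont_bdry {f f' : ℂ → ℂ} {a b : ℝ} (h : SheetData f f' a b) {r : ℝ}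
    (hr : r ∈ Icc a b) {η : Form C2 1} (hη : Continuous η) :
    Continuous (fun t : ℝ => η (sheet f (r, t)) ![X2 f' (r, t)]) := by
  have e : (fun t : ℝ => η (sheet f (r, t)) ![X2 f' (r, t)]) =
      fun t : ℝ => unlin1 (η (sheet f (r, t))) (X2 f' (r, t)) := by
    funext t
    rw [unlin1_apply]
  rw [e]
  have hc : Continuous (fun t : ℝ => ((r, t) : ℝ × ℝ)) := by fun_prop
  have hm : ∀ t : ℝ, ((r, t) : ℝ × ℝ) ∈ Icc a b ×ˢ (univ : Set ℝ) := fun t => ⟨hr, mem_univ _⟩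
  have h1 : Continuous (fun t : ℝ => sheet f (r, t)) :=
    h.cont_sheet.comp_continuous hc hm
  have h2 : Continuous (fun t : ℝ => X2 f' (r, t)) :=
    h.cont_X2.comp_continuous hc hm
  have h3 : Continuous (fun t : ℝ => unlin1 (η (sheet f (r, t)))) :=
    continuous_unlin1.comp (hη.comp h1)
  exact h3.clm_apply h2

lemma integral_three {F1 F2 F3 G : ℝ → ℝ} (c1 : Continuous F1) (c2 : Continuous F2)
    (c3 : Continuous F3) (h : ∀ t, F1 t + F2 t - F3 t = G t) (a b : ℝ) :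
    ∫ t in a..b, G t = (∫ t in a..b, F1 t) + (∫ t in a..b, F2 t) - ∫ t in a..b, F3 t := by
  have e : ∫ t in a..b, G t = ∫ t in a..b, ((F1 + F2) t - F3 t) := by
    apply intervalIntegral.integral_congr
    intro t _
    exact (h t).symm
  have e2 : ∫ t in a..b, (F1 + F2) t = (∫ t in a..b, F1 t) + ∫ t in a..b, F2 t :=
    intervalIntegral.integral_add (c1.intervalIntegrable _ _) (c2.intervalIntegrable _ _)
  rw [e, intervalIntegral.integral_sub ((c1.add c2).intervalIntegrable _ _)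
    (c3.intervalIntegrable _ _), e2]

namespace Data

variable (D : Data)

/-- the boundary integrand -/
def U (η : Form C2 1) (f f' : ℂ → ℂ) (r t : ℝ) : ℝ := η (sheet f (r, t)) ![X2 f' (r, t)]

lemma U_zero (η : Form C2 1) (f f' : ℂ → ℂ) (t : ℝ) : U η f f' 0 t = 0 := by
  have : X2 f' (0, t) = 0 := by
    apply C2.ext <;> simp [X2]
  rw [U, this, ← unlin1_apply, map_zero]

lemma pointwise (η : Form C2 1) (t : ℝ) :
    U η D.B D.B' 1 t + U η (fun z => D.B z - D.h z) (fun z => D.B' z - D.h' z) 1 t -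
      U η D.g D.g' 1 t = η (D.γ 0 t) ![deriv (D.γ 0) t] := by
  rw [(D.hasDerivAt_γ0 t).deriv]
  have hγ : D.γ 0 t = mk (ee t) (D.φ (ee t)) := rfl
  rw [hγ]
  simp only [U, sheet, X2, PP_one, Complex.ofReal_one, one_mul]
  by_cases hN : ee t ∈ D.N
  · obtain ⟨h1, h2⟩ := D.rel_N _ hN
    have h3 : D.g (ee t) = D.B (ee t) - D.h (ee t) := by rw [← h1]; ring
    have h4 : D.g' (ee t) = D.B' (ee t) - D.h' (ee t) := by rw [← h2]; ring
    rw [if_pos hN, D.φ_N _ hN, h3, h4]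
    ring
  · obtain ⟨h1, h2⟩ := D.rel_M _ (norm_ee t) hN
    rw [if_neg hN, D.φ_M _ (norm_ee t) hN, ← h1, ← h2]
    ring

theorem hasBoundary : HasBoundary D.T D.γ := by
  intro η hη
  have hc := hη.1.continuous
  have s1 := D.sheetB.stokes hη.1
  have s2 := D.sheetBh.stokes hη.1
  have s3 := (D.sheetg 2 one_lt_two).stokes hη.1
  have hT : D.T (extDeriv η) = SC D.B D.B' 0 1 (extDeriv η) +
      SC (fun z => D.B z - D.h z) (fun z => D.B' z - D.h' z) 0 1 (extDeriv η) +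
      SC D.g D.g' 1 2 (extDeriv η) := by
    rw [T, TT, Fin.sum_univ_three]
    rfl
  rw [hT, s1, s2, s3, Fin.sum_univ_two]
  have z1 : ∀ f f' : ℂ → ℂ, ∫ t in (0 : ℝ)..(2 * Real.pi),
      η (sheet f (0, t)) ![X2 f' (0, t)] = 0 := by
    intro f f'
    have : (fun t : ℝ => η (sheet f (0, t)) ![X2 f' (0, t)]) = fun _ => 0 := by
      funext t
      exact U_zero η f f' t
    rw [this]
    simp
  rw [z1, z1, sub_zero, sub_zero]
  have c1 := D.sheetB.cont_bdry (r := 1) ⟨zero_le_one, le_rfl⟩ hc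
  have c2 := D.sheetBh.cont_bdry (r := 1) ⟨zero_le_one, le_rfl⟩ hc
  have c3 := (D.sheetg 2 one_lt_two).cont_bdry (r := 1) ⟨le_rfl, one_le_two⟩ hc
  have e1 : ∫ t in (0 : ℝ)..(2 * Real.pi), η (D.γ 0 t) ![deriv (D.γ 0) t] =
      (∫ t in (0 : ℝ)..(2 * Real.pi), η (sheet D.B (1, t)) ![X2 D.B' (1, t)]) +
      (∫ t in (0 : ℝ)..(2 * Real.pi), η (sheet (fun z => D.B z - D.h z) (1, t))
        ![X2 (fun z => D.B' z - D.h' z) (1, t)]) -
      ∫ t in (0 : ℝ)..(2 * Real.pi), η (sheet D.g (1, t)) ![X2 D.g' (1, t)] :=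
    integral_three c1 c2 c3 (fun t => D.pointwise η t) _ _
  have e2 : ∫ t in (0 : ℝ)..(2 * Real.pi), η (D.γ 1 t) ![deriv (D.γ 1) t] =
      ∫ t in (0 : ℝ)..(2 * Real.pi), η (sheet D.g (2, t)) ![X2 D.g' (2, t)] := by
    apply intervalIntegral.integral_congr
    intro t _
    simp only
    rw [(D.hasDerivAt_γ1 t).deriv]
    rfl
  rw [e1, e2]
  ring

theorem isMinimizing : IsMinimizing D.T D.γ := isMinimizing_TT D.sheets D.hasBoundary

end Data

end BdrySing
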