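import Pool.Agent.BdrySing.NonCross2

open Set MeasureTheory Metric Module Filter Topology
open scoped ContDiff RealInnerProductSpace Manifold ENNReal

noncomputable section

namespace BdrySing

lemma exists_inner {z : ℂ} (hz : ‖z‖ = 1) {O : Set ℂ} (hO : O ∈ 𝓝 z) : ∃ w ∈ O, ‖w‖ < 1 := by
  obtain ⟨r, hr, hb⟩ := Metric.mem_nhds_iff.1 hO
  set ε := min (r / 2) (1 / 2) with hε
  have hε0 : 0 < ε := lt_min (by linarith) (by norm_num)
  have hε1 : ε ≤ 1 / 2 := min_le_right _ _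
  have hε2 : ε ≤ r / 2 := min_le_left _ _
  refine ⟨((1 - ε : ℝ) : ℂ) * z, hb ?_, ?_⟩
  · have : ((1 - ε : ℝ) : ℂ) * z - z = -((ε : ℝ) : ℂ) * z := by push_cast; ring
    rw [mem_ball, dist_eq_norm, this, norm_mul, hz, mul_one, norm_neg, Complex.norm_real,
      Real.norm_eq_abs, abs_of_pos hε0]
    linarith
  · rw [norm_mul, hz, mul_one, Complex.norm_real, Real.norm_eq_abs, abs_of_pos (by linarith)]
    linarith

lemma exists_outer {z : ℂ} (hz : ‖z‖ = 1) {O : Set ℂ} (hO : O ∈ 𝓝 z) : ∃ w ∈ O, 1 < ‖w‖ := by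
  obtain ⟨r, hr, hb⟩ := Metric.mem_nhds_iff.1 hO
  refine ⟨((1 + r / 2 : ℝ) : ℂ) * z, hb ?_, ?_⟩
  · have : ((1 + r / 2 : ℝ) : ℂ) * z - z = ((r / 2 : ℝ) : ℂ) * z := by push_cast; ring
    rw [mem_ball, dist_eq_norm, this, norm_mul, hz, mul_one, Complex.norm_real,
      Real.norm_eq_abs, abs_of_pos (by linarith)]
    linarith
  · rw [norm_mul, hz, mul_one, Complex.norm_real, Real.norm_eq_abs, abs_of_pos (by linarith)]
    linarith

lemma exists_angle {z : ℂ} (hz : ‖z‖ = 1) : ∃ t : ℝ, ee t = z := by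
  obtain ⟨t, -, ht⟩ := polar z
  refine ⟨t, ?_⟩
  rw [hz, PP_one] at ht
  exact ht.symm

/-- smooth extension of a function of the angle -/
lemma angle_ext {z₀ : ℂ} (hz₀ : ‖z₀‖ = 1) {φ : ℂ → ℂ} (hφ : ContDiff ℝ ∞ (fun t : ℝ => φ (ee t))) :
    ∃ Φ : ℂ → ℂ, ContDiffOn ℝ ∞ Φ (ball z₀ 1) ∧ ∀ z ∈ ball z₀ 1, ‖z‖ = 1 → Φ z = φ z := by
  obtain ⟨t₀, ht₀⟩ := exists_angle hz₀
  have hz₀ne : z₀ ≠ 0 := by
    intro h; rw [h] at hz₀; simp at hz₀
  have hslit : ∀ z ∈ ball z₀ 1, z / z₀ ∈ Complex.slitPlane := by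
    intro z hz
    left
    have h1 : ‖z / z₀ - 1‖ < 1 := by
      have : z / z₀ - 1 = (z - z₀) / z₀ := by field_simp
      rw [this, norm_div, hz₀, div_one]
      rwa [mem_ball, dist_eq_norm] at hz
    have h2 := Complex.abs_re_le_norm (z / z₀ - 1)
    have h3 : |(z / z₀).re - 1| < 1 := by
      have : (z / z₀ - 1).re = (z / z₀).re - 1 := by simp
      rw [← this]
      linarith
    have := (abs_lt.1 h3).1
    linarith
  refine ⟨fun z => φ (ee (t₀ + (Complex.log (z / z₀)).im)), ?_, ?_⟩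
  · have h1 : ContDiffOn ℝ ∞ (fun z => Complex.log (z / z₀)) (ball z₀ 1) := by
      intro z hz
      apply ContDiffAt.contDiffWithinAt
      have h2 : ContDiffAt ℂ ∞ Complex.log (z / z₀) := Complex.contDiffAt_log (hslit z hz)
      have h3 : ContDiffAt ℂ ∞ (fun z => z / z₀) z := contDiffAt_id.div_const z₀
      have h4 : ContDiffAt ℂ ∞ (fun z => Complex.log (z / z₀)) z :=
        ContDiffAt.comp (g := Complex.log) (f := fun z => z / z₀) z h2 h3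
      exact h4.restrict_scalars ℝ
    have h5 : ContDiffOn ℝ ∞ (fun z => t₀ + (Complex.log (z / z₀)).im) (ball z₀ 1) :=
      contDiffOn_const.add (Complex.imCLM.contDiff.comp_contDiffOn h1)
    exact hφ.comp_contDiffOn h5
  · intro z hz hz1
    simp only
    congr 1
    rw [Complex.log_im]
    have h6 : ee (t₀ + Complex.arg (z / z₀)) = ee t₀ * ee (Complex.arg (z / z₀)) := by
      simp only [ee]
      rw [← Complex.exp_add]
      congr 1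
      push_cast
      ring
    have h7 : ee (Complex.arg (z / z₀)) = z / z₀ := by
      have h8 := Complex.norm_mul_exp_arg_mul_I (z / z₀)
      have h9 : ‖z / z₀‖ = 1 := by rw [norm_div, hz1, hz₀, div_one]
      rw [h9, Complex.ofReal_one, one_mul] at h8
      exact h8
    rw [h6, h7, ht₀]
    field_simp

namespace Data

variable (D : Data)

section Local

variable {U : Set C2} (hU : IsOpen U) {T₁ : Form C2 2 → ℝ} (hT : IsCurrent U T₁)
  (hcl : ∀ η : Form C2 1, IsTest U η → T₁ (extDeriv η) = 0) (hsub : spt T₁ ∩ U ⊆ spt D.T)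

include hU hT hcl hsub

theorem kills {z₀ : ℂ} (hz₀ : z₀ ∈ D.E) (hx : mk z₀ (D.B z₀) ∈ U) :
    mk z₀ (D.B z₀) ∉ spt T₁ := by
  have hn₀ : ‖z₀‖ = 1 := D.E_sub z₀ hz₀
  have hN₀ : z₀ ∉ D.N := fun h => D.N_E z₀ h hz₀
  have hh₀ : D.h z₀ = 0 := (D.h_zero z₀ hn₀.le).2 hz₀
  have hg₀ : D.B z₀ = D.g z₀ := (D.rel_M z₀ hn₀ hN₀).1
  -- a radius on which all sheets stay in `U`
  have cB : ContinuousWithinAt (fun z => mk z (D.B z)) {w | ‖w‖ ≤ 1} z₀ :=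
    mkL.continuous.continuousAt.comp_continuousWithinAt
      (continuousWithinAt_id.prodMk (D.contB z₀ hn₀.le))
  have cBh : ContinuousWithinAt (fun z => mk z (D.B z - D.h z)) {w | ‖w‖ ≤ 1} z₀ :=
    mkL.continuous.continuousAt.comp_continuousWithinAt
      (continuousWithinAt_id.prodMk ((D.contB z₀ hn₀.le).sub (D.conth z₀ hn₀.le)))
  have cg : ContinuousWithinAt (fun z => mk z (D.g z)) {w | 1 ≤ ‖w‖} z₀ :=
    mkL.continuous.continuousAt.comp_continuousWithinAt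
      (continuousWithinAt_id.prodMk (D.contg z₀ hn₀.ge))
  have mB : (fun z => mk z (D.B z)) ⁻¹' U ∈ 𝓝[{w | ‖w‖ ≤ 1}] z₀ :=
    cB.preimage_mem_nhdsWithin (hU.mem_nhds hx)
  have mBh : (fun z => mk z (D.B z - D.h z)) ⁻¹' U ∈ 𝓝[{w | ‖w‖ ≤ 1}] z₀ := by
    apply cBh.preimage_mem_nhdsWithin
    simp only [hh₀, sub_zero]
    exact hU.mem_nhds hx
  have mg : (fun z => mk z (D.g z)) ⁻¹' U ∈ 𝓝[{w | 1 ≤ ‖w‖}] z₀ := by
    apply cg.preimage_mem_nhdsWithin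
    rw [← hg₀]
    exact hU.mem_nhds hx
  obtain ⟨δ₁, hδ₁, b₁⟩ := Metric.mem_nhdsWithin_iff.1 mB
  obtain ⟨δ₂, hδ₂, b₂⟩ := Metric.mem_nhdsWithin_iff.1 mBh
  obtain ⟨δ₃, hδ₃, b₃⟩ := Metric.mem_nhdsWithin_iff.1 mg
  obtain ⟨δ, hδ, hδh, hδ1, hδ2', hδ3⟩ : ∃ δ : ℝ, 0 < δ ∧ δ ≤ 1 / 2 ∧ δ ≤ δ₁ ∧ δ ≤ δ₂ ∧ δ ≤ δ₃ :=
    ⟨min (1 / 2) (min δ₁ (min δ₂ δ₃)), by positivity, min_le_left _ _,
      (min_le_right _ _).trans (min_le_left _ _),
      (min_le_right _ _).trans ((min_le_right _ _).trans (min_le_left _ _)),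
      (min_le_right _ _).trans ((min_le_right _ _).trans (min_le_right _ _))⟩
  have uB : ∀ w ∈ ball z₀ δ, ‖w‖ ≤ 1 → mk w (D.B w) ∈ U := fun w hw hw1 =>
    b₁ ⟨ball_subset_ball hδ1 hw, hw1⟩
  have uBh : ∀ w ∈ ball z₀ δ, ‖w‖ ≤ 1 → mk w (D.B w - D.h w) ∈ U := fun w hw hw1 =>
    b₂ ⟨ball_subset_ball hδ2' hw, hw1⟩
  have ug : ∀ w ∈ ball z₀ δ, 1 ≤ ‖w‖ → mk w (D.g w) ∈ U := fun w hw hw1 =>
    b₃ ⟨ball_subset_ball hδ3 hw, hw1⟩
  have dB : DifferentiableOn ℂ D.B (ball 0 1) := fun z hz =>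
    ((D.hB z (le_of_lt (by simpa using hz))).hasDerivAt
      (nhds_lt (by simpa using hz))).differentiableAt.differentiableWithinAt
  have dBh : DifferentiableOn ℂ (fun z => D.B z - D.h z) (ball 0 1) := fun z hz =>
    (((D.hB z (le_of_lt (by simpa using hz))).sub (D.hh z (le_of_lt (by simpa using hz)))).hasDerivAt
      (nhds_lt (by simpa using hz))).differentiableAt.differentiableWithinAt
  obtain ⟨z₁, hz₁N, hz₁d⟩ := D.acc_N z₀ hz₀ δ hδ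
  obtain ⟨z₂, hz₂n, hz₂N, hz₂E, hz₂d⟩ := D.acc_M z₀ hz₀ δ hδ
  have hz₁n := D.N_sub z₁ hz₁N
  -- the sheet `B` inside
  have hBin : ∀ w ∈ ball z₀ δ, ‖w‖ < 1 → mk w (D.B w) ∉ spt T₁ := by
    obtain ⟨r, hr, h1⟩ := D.N_B hU hT hcl hsub hz₁N (uB z₁ hz₁d hz₁n.le)
    obtain ⟨w₁, hw₁, hw₁'⟩ := exists_inner hz₁n
      (inter_mem (ball_mem_nhds z₁ hr) (isOpen_ball.mem_nhds hz₁d))
    intro w hw hw1
    exact D.inner_all hU hT hcl hsub dB D.i4_B uB hw₁.2 hw₁' hw hw1 (h1 w₁ hw₁.1 hw₁'.le)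
  -- the sheet `B - h` inside
  have hBhin : ∀ w ∈ ball z₀ δ, ‖w‖ < 1 → mk w (D.B w - D.h w) ∉ spt T₁ := by
    obtain ⟨r, hr, h1⟩ := D.M_Bh hU hT hcl hsub hz₂n hz₂N hz₂E (uBh z₂ hz₂d hz₂n.le)
    obtain ⟨w₁, hw₁, hw₁'⟩ := exists_inner hz₂n
      (inter_mem (ball_mem_nhds z₂ hr) (isOpen_ball.mem_nhds hz₂d))
    intro w hw hw1
    exact D.inner_all hU hT hcl hsub dBh D.i4_Bh uBh hw₁.2 hw₁' hw hw1 (h1 w₁ hw₁.1 hw₁'.le)
  -- the outer sheet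
  have hgout : ∀ w ∈ ball z₀ δ, 1 < ‖w‖ → mk w (D.g w) ∉ spt T₁ := by
    obtain ⟨r, hr, h1⟩ := D.M_B hU hT hcl hsub hz₂n hz₂N hz₂E (uB z₂ hz₂d hz₂n.le)
    obtain ⟨w₁, hw₁, hw₁'⟩ := exists_inner hz₂n
      (inter_mem (ball_mem_nhds z₂ hr) (isOpen_ball.mem_nhds hz₂d))
    obtain ⟨w₂, hw₂, hw₂'⟩ := exists_outer hz₂n
      (inter_mem (ball_mem_nhds z₂ hr) (isOpen_ball.mem_nhds hz₂d))
    have h2 := h1 w₁ hw₁.1 w₂ hw₂.1 (by rw [if_pos hw₁'.le]; exact hBin w₁ hw₁.2 hw₁')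
    rw [if_neg (not_le.2 hw₂')] at h2
    intro w hw hw1
    exact D.outer_all hU hT hcl hsub hn₀ hδ hδh ug hw₂.2 hw₂' hw hw1 h2
  -- the circle away from `E`
  have hcirc : ∀ z ∈ ball z₀ δ, ‖z‖ = 1 → z ∉ D.E →
      mk z (D.B z) ∉ spt T₁ ∧ mk z (D.B z - D.h z) ∉ spt T₁ := by
    intro z hz hz1 hzE
    by_cases hzN : z ∈ D.N
    · constructor
      · obtain ⟨r, hr, h1⟩ := D.N_B hU hT hcl hsub hzN (uB z hz hz1.le)
        exact h1 z (mem_ball_self hr) hz1.le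
      · obtain ⟨r, hr, h1⟩ := D.N_Bh hU hT hcl hsub hzN (uBh z hz hz1.le)
        obtain ⟨w₁, hw₁, hw₁'⟩ := exists_inner hz1
          (inter_mem (ball_mem_nhds z hr) (isOpen_ball.mem_nhds hz))
        have h2 := h1 w₁ hw₁.1 z (mem_ball_self hr)
          (by rw [if_pos hw₁'.le]; exact hBhin w₁ hw₁.2 hw₁')
        rwa [if_pos hz1.le] at h2
    · constructor
      · obtain ⟨r, hr, h1⟩ := D.M_B hU hT hcl hsub hz1 hzN hzE (uB z hz hz1.le)
        obtain ⟨w₁, hw₁, hw₁'⟩ := exists_inner hz1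
          (inter_mem (ball_mem_nhds z hr) (isOpen_ball.mem_nhds hz))
        have h2 := h1 w₁ hw₁.1 z (mem_ball_self hr)
          (by rw [if_pos hw₁'.le]; exact hBin w₁ hw₁.2 hw₁')
        rwa [if_pos hz1.le] at h2
      · obtain ⟨r, hr, h1⟩ := D.M_Bh hU hT hcl hsub hz1 hzN hzE (uBh z hz hz1.le)
        exact h1 z (mem_ball_self hr) hz1.le
  -- all that remains lies over `E`
  have hrest : ∀ p ∈ spt T₁, p ∈ U → pr1 p ∈ ball z₀ δ → pr1 p ∈ D.E ∧ pr2 p = D.B (pr1 p) := by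
    intro p hp hpU hpb
    have hpe : ∀ w, pr2 p = w → mk (pr1 p) w ∈ spt T₁ := by
      intro w hw
      rw [← hw, mk_pr]
      exact hp
    rcases D.spt_desc (hsub ⟨hp, hpU⟩) with ⟨h1, h2⟩ | ⟨h1, h2⟩
    · rcases h1.lt_or_eq with h1 | h1
      · rcases h2 with h2 | h2
        · exact absurd (hpe _ h2) (hBin _ hpb h1)
        · exact absurd (hpe _ h2) (hBhin _ hpb h1)
      · by_cases hE : pr1 p ∈ D.E
        · refine ⟨hE, ?_⟩
          have h0 : D.h (pr1 p) = 0 := (D.h_zero _ h1.le).2 hE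
          rw [h0, sub_zero, or_self] at h2
          exact h2
        · obtain ⟨h3, h4⟩ := hcirc _ hpb h1 hE
          rcases h2 with h2 | h2
          · exact absurd (hpe _ h2) h3
          · exact absurd (hpe _ h2) h4
    · rcases h1.lt_or_eq with h1 | h1
      · exact absurd (hpe _ h2) (hgout _ hpb h1)
      · by_cases hE : pr1 p ∈ D.E
        · refine ⟨hE, ?_⟩
          rw [h2]
          exact ((D.rel_M _ h1.symm (fun h => D.N_E _ h hE)).1).symm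
        · obtain ⟨h3, h4⟩ := hcirc _ hpb h1.symm hE
          by_cases hN : pr1 p ∈ D.N
          · have h5 : D.g (pr1 p) = D.B (pr1 p) - D.h (pr1 p) := by
              rw [← (D.rel_N _ hN).1]; ring
            rw [h5] at h2
            exact absurd (hpe _ h2) h4
          · rw [← (D.rel_M _ h1.symm hN).1] at h2
            exact absurd (hpe _ h2) h3
  -- the rest lies on a smooth graph
  obtain ⟨Φ, hΦ, hΦφ⟩ := angle_ext hn₀ D.φ_smooth
  have hΦ₀ : Φ z₀ = D.B z₀ := by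
    rw [hΦφ z₀ (mem_ball_self one_pos) hn₀, D.φ_M z₀ hn₀ hN₀, hh₀, sub_zero]
  have hΦc : ContinuousAt Φ z₀ :=
    (hΦ.continuousOn).continuousAt (ball_mem_nhds z₀ one_pos)
  have hgc : ContinuousAt (fun w => mk w (Φ w)) z₀ :=
    mkL.continuous.continuousAt.comp (continuousAt_id.prodMk hΦc)
  have hev : ∀ᶠ w in 𝓝 z₀, mk w (Φ w) ∈ U := by
    apply hgc.eventually
    have : U ∈ 𝓝 (mk z₀ (Φ z₀)) := by rw [hΦ₀]; exact hU.mem_nhds hx
    exact this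
  obtain ⟨r₀, hr₀, hr₀'⟩ := Metric.eventually_nhds_iff_ball.1 hev
  obtain ⟨r, hr, hrr₀, hrδ, hr1⟩ : ∃ r : ℝ, 0 < r ∧ r ≤ r₀ ∧ r ≤ δ ∧ r ≤ 1 :=
    ⟨min r₀ (min δ 1), by positivity, min_le_left _ _,
      (min_le_right _ _).trans (min_le_left _ _), (min_le_right _ _).trans (min_le_right _ _)⟩
  obtain ⟨w₁, hw₁, hw₁'⟩ := exists_inner hn₀ (ball_mem_nhds z₀ hr)
  have hfin := constancy_ball hU hT hcl (c := z₀) (R := r) (f := Φ)
    (hΦ.mono (ball_subset_ball hr1)) (fun w hw => hr₀' w (ball_subset_ball hrr₀ hw))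
    (by
      intro p hp hpU hpb
      obtain ⟨hE, h2⟩ := hrest p hp hpU (ball_subset_ball hrδ hpb)
      have hn := D.E_sub _ hE
      rw [h2, hΦφ _ (ball_subset_ball hr1 hpb) hn, D.φ_M _ hn (fun h => D.N_E _ h hE),
        (D.h_zero _ hn.le).2 hE, sub_zero])
    (z₁ := w₁) (z₂ := z₀) hw₁ (mem_ball_self hr)
    (by
      intro hmem
      have h3 := hrest _ hmem (hr₀' w₁ (ball_subset_ball hrr₀ hw₁))
        (by simpa using ball_subset_ball hrδ hw₁)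
      have h4 := D.E_sub _ h3.1
      simp only [pr1_mk] at h4
      linarith)
  rwa [hΦ₀] at hfin

end Local

theorem not_crossing {z₀ : ℂ} (hz₀ : z₀ ∈ D.E) : ¬ Crossing D.T (mk z₀ (D.B z₀)) := by
  rintro ⟨U, T₁, T₂, hU, hxU, hT₁, -, hsum, hcl, hreg, hsub⟩
  obtain ⟨W, hW, hxW, hW0⟩ := not_mem_spt (D.kills hU hT₁ hcl hsub hz₀ hxU)
  have key : ∀ p ∈ W ∩ U, p ∈ spt D.T → p ∈ spt T₂ := by
    intro p hp hps W' hW' hpW'
    obtain ⟨α, hα, hne⟩ := hps (W' ∩ (W ∩ U)) (hW'.inter (hW.inter hU)) ⟨hpW', hp⟩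
    refine ⟨α, hα.mono inter_subset_left, ?_⟩
    have h1 : T₁ α = 0 := hW0 α (hα.mono (fun x hx => hx.2.1))
    have h2 := hsum α (hα.mono (fun x hx => hx.2.2))
    rw [h1, zero_add] at h2
    rwa [← h2]
  exact D.not_regB (hW.inter hU) hz₀ ⟨hxW, hxU⟩
    (fun z hz hm => key _ hm (D.mem_spt_B hz))
    (fun z hz hm => key _ hm (D.mem_spt_Bh hz)) hreg

theorem mem_genuine {z₀ : ℂ} (hz₀ : z₀ ∈ D.E) : mk z₀ (D.B z₀) ∈ genuine D.T D.γ := by
  refine ⟨⟨0, ?_⟩, D.not_regB_T hz₀, D.not_crossing hz₀⟩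
  have hn₀ := D.E_sub z₀ hz₀
  obtain ⟨t, ht⟩ := exists_angle hn₀
  refine ⟨t, ?_⟩
  have : D.γ 0 t = mk (ee t) (D.φ (ee t)) := rfl
  rw [this, ht, D.φ_M z₀ hn₀ (fun h => D.N_E z₀ h hz₀), (D.h_zero z₀ hn₀.le).2 hz₀, sub_zero]

theorem dim_genuine : (1 / 4 : ℝ≥0∞) ≤ dimH (genuine D.T D.γ) := by
  have h1 : (fun z => mk z (D.B z)) '' D.E ⊆ genuine D.T D.γ := by
    rintro _ ⟨z, hz, rfl⟩
    exact D.mem_genuine hz
  have h2 : pr1 '' ((fun z => mk z (D.B z)) '' D.E) = D.E := by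
    rw [image_image]
    simp
  have hlip : LipschitzWith 1 (pr1 : C2 → ℂ) := by
    apply LipschitzWith.of_dist_le_mul
    intro x y
    rw [dist_eq_norm, dist_eq_norm, ← map_sub, NNReal.coe_one, one_mul]
    exact norm_pr1_le _
  calc (1 / 4 : ℝ≥0∞) ≤ dimH D.E := D.dim
    _ = dimH (pr1 '' ((fun z => mk z (D.B z)) '' D.E)) := by rw [h2]
    _ ≤ dimH ((fun z => mk z (D.B z)) '' D.E) := hlip.dimH_image_le _
    _ ≤ dimH (genuine D.T D.γ) := dimH_mono h1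

end Data

end BdrySing
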