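import Pool.Agent.BdrySing.PSer
import Pool.Agent.BdrySing.NonCross3

open Set Metric Filter Topology MeasureTheory
open scoped ENNReal ContDiff

noncomputable section

namespace BdrySing

open Cantor

/-- the Fourier coefficients of `1_N h` -/
def cc (n : ℤ) : ℂ := fc (psi NC 0) n

lemma cc_decay (k : ℕ) : ∃ C : ℝ, ∀ n : ℤ, |(n : ℝ)| ^ k * ‖cc n‖ ≤ C :=
  fc_decay (ψ := psi NC) (psi_hasDerivAt clopen_NC) (psi_periodic NC) (psi_bound NC) k

/-- nonnegative part -/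
def bb (n : ℕ) : ℂ := cc n
/-- negative part -/
def nn (n : ℕ) : ℂ := cc (-(n + 1))

lemma rd_bb : RD bb := by
  apply rd_of_bound
  intro k
  obtain ⟨C0, h0⟩ := cc_decay 0
  obtain ⟨Ck, hk⟩ := cc_decay k
  refine ⟨2 ^ k * (C0 + Ck), ?_⟩
  intro n
  have h1 := h0 (n : ℤ)
  have h2 := hk (n : ℤ)
  simp only [pow_zero, one_mul, Int.cast_natCast, Nat.abs_cast] at h1 h2
  have hC0 : 0 ≤ C0 := (norm_nonneg _).trans h1
  have hCk : 0 ≤ Ck := le_trans (by positivity) h2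
  rcases Nat.eq_zero_or_pos n with hn | hn
  · rw [hn] at h1 ⊢
    simp only [Nat.cast_zero, zero_add, one_pow, one_mul]
    have : (1 : ℝ) ≤ 2 ^ k := one_le_pow₀ (by norm_num)
    have h3 : ‖bb 0‖ ≤ C0 := h1
    nlinarith
  · have hn1 : (1 : ℝ) ≤ n := by exact_mod_cast hn
    have h3 : ((n : ℝ) + 1) ^ k ≤ 2 ^ k * (n : ℝ) ^ k := by
      rw [← mul_pow]
      exact pow_le_pow_left₀ (by positivity) (by linarith) k
    have h4 : (0 : ℝ) ≤ 2 ^ k := by positivity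
    calc ((n : ℝ) + 1) ^ k * ‖bb n‖ ≤ 2 ^ k * (n : ℝ) ^ k * ‖bb n‖ :=
          mul_le_mul_of_nonneg_right h3 (norm_nonneg _)
      _ = 2 ^ k * ((n : ℝ) ^ k * ‖cc n‖) := by rw [bb]; ring
      _ ≤ 2 ^ k * (C0 + Ck) := mul_le_mul_of_nonneg_left (by linarith) h4

lemma rd_nn : RD nn := by
  apply rd_of_bound
  intro k
  obtain ⟨C, hC⟩ := cc_decay k
  refine ⟨C, ?_⟩
  intro n
  have h := hC (-(n + 1))
  have h2 : |((-((n : ℤ) + 1) : ℤ) : ℝ)| = (n : ℝ) + 1 := by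
    push_cast
    rw [abs_neg, abs_of_pos (by positivity)]
  rw [h2] at h
  exact h

/-- the outer function -/
def gg (z : ℂ) : ℂ := -(z⁻¹ * PS nn z⁻¹)
/-- its derivative -/
def gg' (z : ℂ) : ℂ := (z⁻¹) ^ 2 * PS nn z⁻¹ + (z⁻¹) ^ 3 * PS1 nn z⁻¹

lemma inv_maps {z : ℂ} (hz : 1 ≤ ‖z‖) : ‖z⁻¹‖ ≤ 1 := by
  rw [norm_inv]
  exact inv_le_one_of_one_le₀ hz

lemma gg_deriv {z : ℂ} (hz : 1 ≤ ‖z‖) : HasDerivWithinAt gg (gg' z) {w | 1 ≤ ‖w‖} z := by
  have hz0 : z ≠ 0 := by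
    intro h; rw [h, norm_zero] at hz; linarith
  have h1 : HasDerivWithinAt (fun w : ℂ => w⁻¹) (-(z ^ 2)⁻¹) {w | 1 ≤ ‖w‖} z :=
    (hasDerivAt_inv hz0).hasDerivWithinAt
  have h2 : HasDerivWithinAt (fun w : ℂ => PS nn w⁻¹) (PS1 nn z⁻¹ * -(z ^ 2)⁻¹) {w | 1 ≤ ‖w‖} z :=
    HasDerivWithinAt.comp (h₂ := PS nn) (h := fun w : ℂ => w⁻¹) z
      (PS_deriv rd_nn (inv_maps hz)) h1 (fun w hw => inv_maps hw)
  have h3 := (h1.mul h2).neg
  refine h3.congr_deriv ?_
  rw [gg']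
  field_simp
  ring

lemma gg'_cont : ContinuousOn gg' {w | 1 ≤ ‖w‖} := by
  have hinv : ContinuousOn (fun w : ℂ => w⁻¹) {w | 1 ≤ ‖w‖} := by
    apply ContinuousOn.inv₀ continuousOn_id
    intro w hw h
    simp only [id] at h
    rw [h] at hw
    simp only [mem_ofPred_eq, norm_zero] at hw
    linarith
  have hm : MapsTo (fun w : ℂ => w⁻¹) {w | 1 ≤ ‖w‖} {w | ‖w‖ ≤ 1} := fun w hw => inv_maps hw
  have h1 : ContinuousOn (PS nn) {w | ‖w‖ ≤ 1} := fun z hz =>
    (PS_deriv rd_nn hz).continuousWithinAt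
  exact ((hinv.pow 2).mul (h1.comp hinv hm)).add ((hinv.pow 3).mul ((PS1_cont rd_nn).comp hinv hm))

lemma cc_summable : Summable cc := by
  apply Summable.of_norm
  apply Summable.of_nat_of_neg_add_one
  · refine (rd_bb 0).congr (fun n => ?_)
    rw [pow_zero, one_mul]
    rfl
  · refine (rd_nn 0).congr (fun n => ?_)
    rw [pow_zero, one_mul]
    rfl

/-- the additive decomposition on the circle -/
lemma decomp (t : ℝ) : PS bb (ee t) - gg (ee t) = psi NC 0 t := by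
  have hcont : Continuous (psi NC 0) := (psi_smooth clopen_NC 0).continuous
  have h := fourier_hasSum hcont (psi_periodic NC 0) cc_summable t
  have e1 : ∀ n : ℕ, fc (psi NC 0) (n : ℤ) * ee (((n : ℤ) : ℝ) * t) = bb n * ee t ^ n := by
    intro n
    rw [Int.cast_natCast, ee_nat_mul]
    rfl
  have e2 : ∀ n : ℕ, fc (psi NC 0) (-(n + 1) : ℤ) * ee (((-(n + 1) : ℤ) : ℝ) * t) =
      (ee t)⁻¹ * (nn n * (ee t)⁻¹ ^ n) := by
    intro n
    have h3 : ((-(n + 1) : ℤ) : ℝ) * t = -(t + n * t) := by push_cast; ring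
    rw [h3, ee_neg, ee_add, ee_nat_mul, mul_inv, inv_pow]
    rw [nn, cc]
    ring
  have hne : ‖(ee t)⁻¹‖ ≤ 1 := by rw [norm_inv, norm_ee, inv_one]
  have s1 : Summable (fun n : ℕ => fc (psi NC 0) (n : ℤ) * ee (((n : ℤ) : ℝ) * t)) := by
    refine (PS_summable rd_bb (norm_ee t).le).congr (fun n => ?_)
    exact (e1 n).symm
  have s2 : Summable (fun n : ℕ => fc (psi NC 0) (-(n + 1) : ℤ) * ee (((-(n + 1) : ℤ) : ℝ) * t)) := by
    refine ((PS_summable rd_nn hne).mul_left (ee t)⁻¹).congr (fun n => ?_)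
    exact (e2 n).symm
  have h4 := tsum_of_nat_of_neg_add_one (f := fun n : ℤ => fc (psi NC 0) n * ee ((n : ℝ) * t)) s1 s2
  rw [h.tsum_eq] at h4
  rw [h4, PS, gg, PS, sub_neg_eq_add, ← tsum_mul_left]
  congr 1
  · exact tsum_congr (fun n => (e1 n).symm)
  · exact tsum_congr (fun n => (e2 n).symm)

lemma decomp' (t : ℝ) : (PS1 bb (ee t) - gg' (ee t)) * (Complex.I * ee t) = psi NC 1 t := by
  have h1 := hasDerivAt_comp_ee (PS_deriv rd_bb (norm_ee t).le) (fun s => (norm_ee s).le)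
  have h2 := hasDerivAt_comp_ee (gg_deriv (norm_ee t).ge) (fun s => (norm_ee s).ge)
  have h3 := h1.sub h2
  have h4 : HasDerivAt (psi NC 0) (PS1 bb (ee t) * (Complex.I * ee t) -
      gg' (ee t) * (Complex.I * ee t)) t := by
    refine h3.congr_of_eventuallyEq (Eventually.of_forall (fun s => ?_))
    exact (decomp s).symm
  rw [sub_mul]
  exact h4.unique (psi_hasDerivAt clopen_NC 0 t)

open scoped Classical in
/-- the boundary function -/
def ph (z : ℂ) : ℂ := if z ∈ NC then PS bb z else PS bb z - hh z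

lemma ph_smooth : ContDiff ℝ ∞ (fun t : ℝ => ph (ee t)) := by
  have h1 : (fun t : ℝ => ph (ee t)) = fun t => PS bb (ee t) - psi NCᶜ 0 t := by
    funext t
    rw [ph, psi]
    by_cases hN : ee t ∈ NC
    · rw [if_pos hN, if_neg (fun h => h.1 hN), sub_zero]
    · rw [if_neg hN]
      by_cases hE : ee t ∈ EC
      · rw [if_neg (fun h => h.2 hE), hh_zero.2 hE]
      · rw [if_pos ⟨hN, hE⟩]
        rfl
  rw [h1]
  exact (PS_circle_smooth rd_bb).sub (psi_smooth (clopen_compl clopen_NC) 0)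

/-- the data of the example -/
def theData : Data where
  E := EC
  N := NC
  h := hh
  h' := hh'
  B := PS bb
  B' := PS1 bb
  g := gg
  g' := gg'
  E_sub := fun z hz => EC_norm hz
  N_sub := fun z hz => NC_norm hz
  hB := fun z hz => PS_deriv rd_bb hz
  hBc := PS1_cont rd_bb
  hh := fun z hz => hh_deriv hz
  hhc := hh'_cont
  hg := fun z hz => gg_deriv hz
  hgc := gg'_cont
  h_zero := fun z _ => hh_zero
  h'_zero := fun z hz => if_pos hz
  h_diff := by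
    intro z hz hE
    obtain ⟨r, hr0, -, hd, -⟩ := flat_hh
    exact ⟨r * dd z, mul_pos hr0 (dd_pos hE), hd z hz.le hE⟩
  rel_N := by
    intro z hz
    obtain ⟨t, rfl⟩ := exists_angle (NC_norm hz)
    have hE := NC_EC hz
    have h1 := decomp t
    have h2 := decomp' t
    rw [psi, if_pos ⟨hz, hE⟩] at h1 h2
    refine ⟨h1, ?_⟩
    have h3 : hh' (ee t) = deriv hh (ee t) := if_neg hE
    rw [h3]
    have h4 : Complex.I * ee t ≠ 0 := mul_ne_zero Complex.I_ne_zero (ee_ne_zero t)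
    simp only [Hj] at h2
    apply mul_right_cancel₀ h4
    rw [h2]
    ring
  rel_M := by
    intro z hz hN
    obtain ⟨t, rfl⟩ := exists_angle hz
    have h1 := decomp t
    have h2 := decomp' t
    rw [psi, if_neg (fun h => hN h.1)] at h1 h2
    have h4 : Complex.I * ee t ≠ 0 := mul_ne_zero Complex.I_ne_zero (ee_ne_zero t)
    exact ⟨sub_eq_zero.1 h1, sub_eq_zero.1 ((mul_eq_zero.1 h2).resolve_right h4)⟩
  N_E := fun z hz => NC_EC hz
  N_open := fun z hz => NC_open hz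
  M_open := by
    intro z _ hN hE
    obtain ⟨ρ, hρ, h⟩ := MC_open hN hE
    exact ⟨ρ, hρ, fun w _ hw => (h w hw).1⟩
  acc_N := fun z hz ε hε => acc_NC hz hε
  acc_M := fun z hz ε hε => acc_MC hz hε
  φ := ph
  φ_N := fun z hz => if_pos hz
  φ_M := fun z _ hN => if_neg hN
  φ_smooth := ph_smooth
  dim := dim_EC

/-- Main theorem. -/
theorem main : ∃ (n : ℕ) (γ : Fin n → ℝ → C2) (T : Form C2 2 → ℝ),
    IsClosedCurves γ ∧ IsMinimizing T γ ∧ (1 / 4 : ℝ≥0∞) ≤ dimH (genuine T γ) :=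
  ⟨2, theData.γ, theData.T, theData.isClosedCurves, theData.isMinimizing, theData.dim_genuine⟩

end BdrySing
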