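import Mathlib

open Set Metric Filter Topology

noncomputable section

namespace BdrySing

namespace Cantor

/-- first contraction -/
def c0 (x : ℝ) : ℝ := x / 16
/-- second contraction -/
def c1 (x : ℝ) : ℝ := (x + 15) / 16

/-- the steps of the construction -/
def P : ℕ → Set ℝ
  | 0 => Icc 0 1
  | n + 1 => c0 '' P n ∪ c1 '' P n

/-- the Cantor set -/
def CE : Set ℝ := ⋂ n, P n

/-- the gaps of even level -/
def CN : Set ℝ := ⋃ n, P (2 * n) \ P (2 * n + 1)

lemma P_sub (n : ℕ) : P n ⊆ Icc 0 1 := by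
  induction n with
  | zero => exact subset_rfl
  | succ n ih =>
    rintro x (⟨y, hy, rfl⟩ | ⟨y, hy, rfl⟩)
    · have := ih hy
      simp only [c0, mem_Icc] at this ⊢
      constructor <;> linarith [this.1, this.2]
    · have := ih hy
      simp only [c1, mem_Icc] at this ⊢
      constructor <;> linarith [this.1, this.2]

lemma P_succ_sub (n : ℕ) : P (n + 1) ⊆ P n := by
  induction n with
  | zero => exact P_sub 1
  | succ n ih =>
    rintro x (⟨y, hy, rfl⟩ | ⟨y, hy, rfl⟩)
    · exact Or.inl ⟨y, ih hy, rfl⟩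
    · exact Or.inr ⟨y, ih hy, rfl⟩

lemma P_anti {m n : ℕ} (h : m ≤ n) : P n ⊆ P m := by
  induction n, h using Nat.le_induction with
  | base => exact subset_rfl
  | succ n _ ih => exact (P_succ_sub n).trans ih

lemma cont_c0 : Continuous c0 := continuous_id.div_const 16
lemma cont_c1 : Continuous c1 := (continuous_id.add continuous_const).div_const 16

lemma P_compact (n : ℕ) : IsCompact (P n) := by
  induction n with
  | zero => exact isCompact_Icc
  | succ n ih => exact (ih.image cont_c0).union (ih.image cont_c1)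

lemma P_closed (n : ℕ) : IsClosed (P n) := (P_compact n).isClosed

lemma zero_mem (n : ℕ) : (0 : ℝ) ∈ P n := by
  induction n with
  | zero => simp [P]
  | succ n ih => exact Or.inl ⟨0, ih, by simp [c0]⟩

lemma one_mem (n : ℕ) : (1 : ℝ) ∈ P n := by
  induction n with
  | zero => simp [P]
  | succ n ih => exact Or.inr ⟨1, ih, by norm_num [c1]⟩

lemma c0_mem {x : ℝ} (hx : x ∈ CE) : c0 x ∈ CE := by
  rw [CE, mem_iInter] at hx ⊢
  intro n
  cases n with
  | zero => exact P_sub 1 (Or.inl ⟨x, hx 0, rfl⟩)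
  | succ n => exact Or.inl ⟨x, hx n, rfl⟩

lemma c1_mem {x : ℝ} (hx : x ∈ CE) : c1 x ∈ CE := by
  rw [CE, mem_iInter] at hx ⊢
  intro n
  cases n with
  | zero => exact P_sub 1 (Or.inr ⟨x, hx 0, rfl⟩)
  | succ n => exact Or.inr ⟨x, hx n, rfl⟩

/-- points of `P n` outside the Cantor set are interior -/
lemma P_nhds (n : ℕ) : ∀ x ∈ P n, x ∉ CE → P n ∈ 𝓝 x := by
  induction n with
  | zero =>
    intro x hx hxE
    have h0 : (0 : ℝ) ∈ CE := mem_iInter.2 zero_mem
    have h1 : (1 : ℝ) ∈ CE := mem_iInter.2 one_mem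
    have hx0 : x ≠ 0 := fun h => hxE (h ▸ h0)
    have hx1 : x ≠ 1 := fun h => hxE (h ▸ h1)
    exact Icc_mem_nhds (lt_of_le_of_ne hx.1 (Ne.symm hx0)) (lt_of_le_of_ne hx.2 hx1)
  | succ n ih =>
    rintro x (⟨y, hy, rfl⟩ | ⟨y, hy, rfl⟩) hxE
    · have hyE : y ∉ CE := fun h => hxE (c0_mem h)
      have h1 := ih y hy hyE
      have h2 : (fun z : ℝ => 16 * z) ⁻¹' (P n) ∈ 𝓝 (c0 y) := by
        have hc : ContinuousAt (fun z : ℝ => 16 * z) (c0 y) := by fun_prop
        apply hc.preimage_mem_nhds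
        have : (16 : ℝ) * (c0 y) = y := by simp only [c0]; ring
        rw [this]; exact h1
      filter_upwards [h2] with z hz
      exact Or.inl ⟨16 * z, hz, by simp only [c0]; ring⟩
    · have hyE : y ∉ CE := fun h => hxE (c1_mem h)
      have h1 := ih y hy hyE
      have h2 : (fun z : ℝ => 16 * z - 15) ⁻¹' (P n) ∈ 𝓝 (c1 y) := by
        have hc : ContinuousAt (fun z : ℝ => 16 * z - 15) (c1 y) := by fun_prop
        apply hc.preimage_mem_nhds
        have : (16 : ℝ) * (c1 y) - 15 = y := by simp only [c1]; ring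
        rw [this]; exact h1
      filter_upwards [h2] with z hz
      exact Or.inr ⟨16 * z - 15, hz, by simp only [c1]; ring⟩

lemma level_nhds (n : ℕ) {x : ℝ} (h1 : x ∈ P n) (h2 : x ∉ P (n + 1)) :
    P n \ P (n + 1) ∈ 𝓝 x := by
  have hE : x ∉ CE := fun h => h2 (mem_iInter.1 h (n + 1))
  exact inter_mem (P_nhds n x h1 hE) ((P_closed (n + 1)).isOpen_compl.mem_nhds h2)

lemma level_unique {m n : ℕ} {x : ℝ} (h1 : x ∈ P n) (h2 : x ∉ P (n + 1)) (h3 : x ∈ P m)
    (h4 : x ∉ P (m + 1)) : m = n := by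
  rcases lt_trichotomy m n with h | h | h
  · exact absurd (P_anti (by omega : m + 1 ≤ n) h1) h4
  · exact h
  · exact absurd (P_anti (by omega : n + 1 ≤ m) h3) h2

lemma exists_level {x : ℝ} (h0 : x ∈ P 0) (hE : x ∉ CE) : ∃ n, x ∈ P n ∧ x ∉ P (n + 1) := by
  by_contra hne
  push Not at hne
  apply hE
  rw [CE, mem_iInter]
  intro n
  induction n with
  | zero => exact h0
  | succ n ih => exact hne n ih

lemma CN_open : IsOpen CN := by
  rw [isOpen_iff_mem_nhds]
  intro x hx
  rw [CN, mem_iUnion] at hx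
  obtain ⟨n, h1, h2⟩ := hx
  exact mem_of_superset (level_nhds _ h1 h2) (subset_iUnion (fun n => P (2 * n) \ P (2 * n + 1)) n)

lemma CN_sub : CN ⊆ Icc 0 1 := by
  intro x hx
  rw [CN, mem_iUnion] at hx
  obtain ⟨n, h1, h2⟩ := hx
  exact P_sub _ h1

lemma CE_sub : CE ⊆ Icc 0 1 := fun _ hx => P_sub 0 (mem_iInter.1 hx 0)

lemma CN_disj {x : ℝ} (hx : x ∈ CN) : x ∉ CE := by
  rw [CN, mem_iUnion] at hx
  obtain ⟨n, h1, h2⟩ := hx
  exact fun h => h2 (mem_iInter.1 h _)

lemma CE_closed : IsClosed CE := isClosed_iInter P_closed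

lemma closed_union : IsClosed (CE ∪ CN) := by
  rw [← isOpen_compl_iff, isOpen_iff_mem_nhds]
  intro x hx
  simp only [mem_compl_iff, mem_union, not_or] at hx
  obtain ⟨hxE, hxN⟩ := hx
  by_cases h0 : x ∈ P 0
  · obtain ⟨n, h1, h2⟩ := exists_level h0 hxE
    have hodd : ¬ Even n := by
      rintro ⟨k, hk⟩
      apply hxN
      rw [CN, mem_iUnion]
      refine ⟨k, ?_⟩
      have : n = 2 * k := by omega
      rw [← this]
      exact ⟨h1, h2⟩
    filter_upwards [level_nhds n h1 h2] with y hy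
    simp only [mem_compl_iff, mem_union, not_or]
    refine ⟨fun h => hy.2 (mem_iInter.1 h _), ?_⟩
    intro hyN
    rw [CN, mem_iUnion] at hyN
    obtain ⟨k, h3, h4⟩ := hyN
    have := level_unique hy.1 hy.2 h3 h4
    apply hodd
    rw [← this]
    exact even_two_mul k
  · filter_upwards [(P_closed 0).isOpen_compl.mem_nhds h0] with y hy
    simp only [mem_compl_iff, mem_union, not_or]
    exact ⟨fun h => hy (mem_iInter.1 h 0), fun h => hy (CN_sub h)⟩

/-- gaps of every level are near every point -/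
lemma near_gap (n : ℕ) : ∀ x ∈ P n, ∃ y, y ∈ P n ∧ y ∉ P (n + 1) ∧ |x - y| ≤ (1 / 16 : ℝ) ^ n := by
  induction n with
  | zero =>
    intro x hx
    refine ⟨1 / 2, ⟨by norm_num, by norm_num⟩, ?_, ?_⟩
    · rintro (⟨y, hy, h⟩ | ⟨y, hy, h⟩)
      · have := hy.2
        simp only [c0] at h
        linarith
      · have := hy.1
        simp only [c1] at h
        linarith
    · have h1 := hx.1
      have h2 := hx.2
      rw [pow_zero, abs_le]
      constructor <;> linarith
  | succ n ih =>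
    rintro x (⟨u, hu, rfl⟩ | ⟨u, hu, rfl⟩)
    · obtain ⟨v, hv1, hv2, hv3⟩ := ih u hu
      refine ⟨c0 v, Or.inl ⟨v, hv1, rfl⟩, ?_, ?_⟩
      · rintro (⟨w, hw, h⟩ | ⟨w, hw, h⟩)
        · have : w = v := by simp only [c0] at h; linarith
          exact hv2 (this ▸ hw)
        · have h1 := (P_sub _ hw).1
          have h2 := (P_sub _ hv1).2
          simp only [c0, c1] at h
          linarith
      · have : c0 u - c0 v = (u - v) / 16 := by simp only [c0]; ring
        rw [this, abs_div, pow_succ]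
        norm_num
        linarith
    · obtain ⟨v, hv1, hv2, hv3⟩ := ih u hu
      refine ⟨c1 v, Or.inr ⟨v, hv1, rfl⟩, ?_, ?_⟩
      · rintro (⟨w, hw, h⟩ | ⟨w, hw, h⟩)
        · have h1 := (P_sub _ hw).2
          have h2 := (P_sub _ hv1).1
          simp only [c0, c1] at h
          linarith
        · have : w = v := by simp only [c1] at h; linarith
          exact hv2 (this ▸ hw)
      · have : c1 u - c1 v = (u - v) / 16 := by simp only [c1]; ring
        rw [this, abs_div, pow_succ]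
        norm_num
        linarith

lemma pow_small {ε : ℝ} (hε : 0 < ε) : ∃ n : ℕ, ∀ m ≥ n, (1 / 16 : ℝ) ^ m < ε := by
  obtain ⟨n, hn⟩ := exists_pow_lt_of_lt_one hε (by norm_num : (1 / 16 : ℝ) < 1)
  refine ⟨n, fun m hm => lt_of_le_of_lt ?_ hn⟩
  exact pow_le_pow_of_le_one (by norm_num) (by norm_num) hm

lemma acc_even {x : ℝ} (hx : x ∈ CE) {ε : ℝ} (hε : 0 < ε) : ∃ y ∈ CN, |x - y| < ε := by
  obtain ⟨n, hn⟩ := pow_small hε
  obtain ⟨y, h1, h2, h3⟩ := near_gap (2 * n) x (mem_iInter.1 hx _)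
  exact ⟨y, mem_iUnion.2 ⟨n, h1, h2⟩, lt_of_le_of_lt h3 (hn _ (by omega))⟩

lemma acc_odd {x : ℝ} (hx : x ∈ CE) {ε : ℝ} (hε : 0 < ε) :
    ∃ y ∈ Icc (0 : ℝ) 1, y ∉ CN ∧ y ∉ CE ∧ |x - y| < ε := by
  obtain ⟨n, hn⟩ := pow_small hε
  obtain ⟨y, h1, h2, h3⟩ := near_gap (2 * n + 1) x (mem_iInter.1 hx _)
  refine ⟨y, P_sub _ h1, ?_, fun h => h2 (mem_iInter.1 h _), lt_of_le_of_lt h3 (hn _ (by omega))⟩
  intro hyN
  rw [CN, mem_iUnion] at hyN
  obtain ⟨k, h4, h5⟩ := hyN
  have := level_unique h1 h2 h4 h5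
  omega

/-- a dense sequence in the Cantor set -/
def aa : ℕ → ℝ
  | 0 => 0
  | m + 1 => if (m + 1) % 2 = 0 then c0 (aa ((m + 1) / 2)) else c1 (aa ((m + 1) / 2))
  decreasing_by all_goals omega

lemma aa_even (m : ℕ) : aa (2 * m) = c0 (aa m) := by
  cases m with
  | zero => simp [aa, c0]
  | succ m =>
    have h : 2 * (m + 1) = (2 * m + 1) + 1 := by ring
    rw [h, aa]
    have h1 : (2 * m + 1 + 1) % 2 = 0 := by omega
    have h2 : (2 * m + 1 + 1) / 2 = m + 1 := by omega
    rw [if_pos h1, h2]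

lemma aa_odd (m : ℕ) : aa (2 * m + 1) = c1 (aa m) := by
  rw [aa]
  have h1 : ¬ (2 * m + 1) % 2 = 0 := by omega
  have h2 : (2 * m + 1) / 2 = m := by omega
  rw [if_neg h1, h2]

lemma aa_mem_P (n : ℕ) : ∀ m, aa m ∈ P n := by
  induction n with
  | zero =>
    intro m
    induction m using Nat.strong_induction_on with
    | _ m ih =>
      obtain ⟨k, hk | hk⟩ : ∃ k, m = 2 * k ∨ m = 2 * k + 1 := ⟨m / 2, by omega⟩
      · rcases Nat.eq_zero_or_pos k with h0 | h0
        · rw [hk, h0]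
          simp [aa, P]
        · rw [hk, aa_even]
          have := ih k (by omega)
          simp only [P, c0, mem_Icc] at this ⊢
          constructor <;> linarith [this.1, this.2]
      · rw [hk, aa_odd]
        have := ih k (by omega)
        simp only [P, c1, mem_Icc] at this ⊢
        constructor <;> linarith [this.1, this.2]
  | succ n ih =>
    intro m
    obtain ⟨k, hk | hk⟩ : ∃ k, m = 2 * k ∨ m = 2 * k + 1 := ⟨m / 2, by omega⟩
    · rw [hk, aa_even]
      exact Or.inl ⟨_, ih k, rfl⟩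
    · rw [hk, aa_odd]
      exact Or.inr ⟨_, ih k, rfl⟩

lemma aa_mem (m : ℕ) : aa m ∈ CE := mem_iInter.2 (fun n => aa_mem_P n m)

lemma aa_near (n : ℕ) : ∀ x ∈ P n, ∃ m < 2 ^ n, |x - aa m| ≤ (1 / 16 : ℝ) ^ n := by
  induction n with
  | zero =>
    intro x hx
    refine ⟨0, by norm_num, ?_⟩
    have h1 := hx.1
    have h2 := hx.2
    rw [pow_zero, abs_le]
    simp only [aa]
    constructor <;> linarith
  | succ n ih =>
    rintro x (⟨u, hu, rfl⟩ | ⟨u, hu, rfl⟩)
    · obtain ⟨m, hm, h⟩ := ih u hu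
      refine ⟨2 * m, by rw [pow_succ]; omega, ?_⟩
      rw [aa_even]
      have : c0 u - c0 (aa m) = (u - aa m) / 16 := by simp only [c0]; ring
      rw [this, abs_div, pow_succ]
      norm_num
      linarith
    · obtain ⟨m, hm, h⟩ := ih u hu
      refine ⟨2 * m + 1, by rw [pow_succ]; omega, ?_⟩
      rw [aa_odd]
      have : c1 u - c1 (aa m) = (u - aa m) / 16 := by simp only [c1]; ring
      rw [this, abs_div, pow_succ]
      norm_num
      linarith

end Cantor

end BdrySing
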