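import Pool.Agent.BdrySing.Data

open Set MeasureTheory Metric Module Filter Topology
open scoped ContDiff RealInnerProductSpace Manifold ENNReal

noncomputable section

open scoped Classical

namespace BdrySing

lemma hasDerivAt_comp_ee {f : ℂ → ℂ} {c : ℂ} {s : Set ℂ} {t : ℝ}
    (hf : HasDerivWithinAt f c s (ee t)) (hs : ∀ t, ee t ∈ s) :
    HasDerivAt (fun t => f (ee t)) (c * (Complex.I * ee t)) t := by
  have h1 := (hf.hasFDerivWithinAt.restrictScalars ℝ).comp_hasDerivAt t (hasDerivAt_ee t)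
    (Eventually.of_forall hs)
  refine h1.congr_deriv ?_
  simp [mul_comm]

lemma PP_one (t : ℝ) : PP (1, t) = ee t := by simp [PP]

namespace Data

variable (D : Data)

lemma ee_mem (t : ℝ) : ee t ∈ {w : ℂ | ‖w‖ ≤ 1} := by
  simp [norm_ee]

lemma contB : ContinuousOn D.B {w | ‖w‖ ≤ 1} := fun z hz => (D.hB z hz).continuousWithinAt
lemma conth : ContinuousOn D.h {w | ‖w‖ ≤ 1} := fun z hz => (D.hh z hz).continuousWithinAt
lemma contg : ContinuousOn D.g {w | 1 ≤ ‖w‖} := fun z hz => (D.hg z hz).continuousWithinAt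

lemma nhds_lt {z : ℂ} (h : ‖z‖ < 1) : {w : ℂ | ‖w‖ ≤ 1} ∈ 𝓝 z := by
  have ho : IsOpen {w : ℂ | ‖w‖ < 1} := isOpen_lt continuous_norm continuous_const
  exact mem_of_superset (ho.mem_nhds h) (fun y (hy : ‖y‖ < 1) => hy.le)

lemma nhds_gt {z : ℂ} (h : 1 < ‖z‖) : {w : ℂ | 1 ≤ ‖w‖} ∈ 𝓝 z := by
  have ho : IsOpen {w : ℂ | 1 < ‖w‖} := isOpen_lt continuous_const continuous_norm
  exact mem_of_superset (ho.mem_nhds h) (fun y (hy : 1 < ‖y‖) => hy.le)

lemma sheetB : SheetData D.B D.B' 0 1 where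
  nonneg := le_rfl
  lt := one_pos
  cf := D.contB.mono (fun _ hz => hz.2)
  cf' := D.hBc.mono (fun _ hz => hz.2)
  hd := fun z _ h2 => (D.hB z h2.le).hasDerivAt (nhds_lt h2)

lemma sheetBh : SheetData (fun z => D.B z - D.h z) (fun z => D.B' z - D.h' z) 0 1 where
  nonneg := le_rfl
  lt := one_pos
  cf := (D.contB.sub D.conth).mono (fun _ hz => hz.2)
  cf' := (D.hBc.sub D.hhc).mono (fun _ hz => hz.2)
  hd := fun z _ h2 => ((D.hB z h2.le).sub (D.hh z h2.le)).hasDerivAt (nhds_lt h2)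

lemma sheetg (b : ℝ) (hb : 1 < b) : SheetData D.g D.g' 1 b where
  nonneg := zero_le_one
  lt := hb
  cf := D.contg.mono (fun _ hz => hz.1)
  cf' := D.hgc.mono (fun _ hz => hz.1)
  hd := fun z h1 _ => (D.hg z h1.le).hasDerivAt (nhds_gt h1)

/-- the three sheets -/
def fs : Fin 3 → ℂ → ℂ := ![D.B, fun z => D.B z - D.h z, D.g]
/-- their derivatives -/
def fs' : Fin 3 → ℂ → ℂ := ![D.B', fun z => D.B' z - D.h' z, D.g']
/-- inner radii -/
def ra : Fin 3 → ℝ := ![0, 0, 1]
/-- outer radii -/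
def rb : Fin 3 → ℝ := ![1, 1, 2]

lemma sheets (i : Fin 3) : SheetData (D.fs i) (D.fs' i) (ra i) (rb i) := by
  fin_cases i
  · exact D.sheetB
  · exact D.sheetBh
  · exact D.sheetg 2 one_lt_two

/-- the current -/
def T : Form C2 2 → ℝ := TT D.fs D.fs' ra rb

/-- the boundary curves -/
def γ : Fin 2 → ℝ → C2 := ![fun t => mk (ee t) (D.φ (ee t)), fun t => sheet D.g (2, t)]

lemma deriv_φ (t : ℝ) : HasDerivAt (fun t => D.φ (ee t))
    ((if ee t ∈ D.N then D.B' (ee t) else D.B' (ee t) - D.h' (ee t)) * (Complex.I * ee t)) t := by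
  have hBd := hasDerivAt_comp_ee (D.hB (ee t) (ee_mem t)) ee_mem
  have hhd := hasDerivAt_comp_ee (D.hh (ee t) (ee_mem t)) ee_mem
  by_cases hN : ee t ∈ D.N
  · rw [if_pos hN]
    refine hBd.congr_of_eventuallyEq ?_
    obtain ⟨ρ, hρ, h⟩ := D.N_open _ hN
    have : ∀ᶠ s in 𝓝 t, ee s ∈ ball (ee t) ρ :=
      continuous_ee.continuousAt.eventually (ball_mem_nhds _ hρ)
    filter_upwards [this] with s hs
    exact D.φ_N _ (h _ (norm_ee s) hs)
  · rw [if_neg hN]
    by_cases hE : ee t ∈ D.E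
    · have h0 : D.h (ee t) = 0 := (D.h_zero _ (ee_mem t)).2 hE
      have h0' := D.h'_zero _ hE
      rw [h0', sub_zero]
      have hk : HasDerivAt (fun t => D.φ (ee t) - D.B (ee t)) 0 t := by
        rw [h0', zero_mul] at hhd
        rw [hasDerivAt_iff_isLittleO] at hhd ⊢
        simp only [smul_zero, sub_zero] at hhd ⊢
        refine Asymptotics.IsBigO.trans_isLittleO ?_ hhd
        apply Asymptotics.IsBigO.of_bound 1
        refine Eventually.of_forall (fun s => ?_)
        have e1 : D.φ (ee t) - D.B (ee t) = 0 := by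
          rw [D.φ_M _ (norm_ee t) hN, h0]; ring
        rw [e1, h0, sub_zero, sub_zero, one_mul]
        by_cases hs : ee s ∈ D.N
        · rw [D.φ_N _ hs]; simp
        · rw [D.φ_M _ (norm_ee s) hs]
          simp
      have := hk.add hBd
      rw [zero_add] at this
      refine this.congr_of_eventuallyEq (Eventually.of_forall (fun s => ?_))
      simp
    · have hd := hBd.sub hhd
      rw [← sub_mul] at hd
      refine hd.congr_of_eventuallyEq ?_
      obtain ⟨ρ, hρ, h⟩ := D.M_open _ (norm_ee t) hN hE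
      have : ∀ᶠ s in 𝓝 t, ee s ∈ ball (ee t) ρ :=
        continuous_ee.continuousAt.eventually (ball_mem_nhds _ hρ)
      filter_upwards [this] with s hs
      exact D.φ_M _ (norm_ee s) (h _ (norm_ee s) hs)

lemma hasDerivAt_γ0 (t : ℝ) : HasDerivAt (D.γ 0) (mk (Complex.I * ee t)
    ((if ee t ∈ D.N then D.B' (ee t) else D.B' (ee t) - D.h' (ee t)) * (Complex.I * ee t))) t := by
  exact mkL.hasFDerivAt.comp_hasDerivAt t ((hasDerivAt_ee t).prodMk (D.deriv_φ t))

lemma hasDerivAt_γ1 (t : ℝ) : HasDerivAt (D.γ 1) (X2 D.g' (2, t)) t := by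
  have h1 := (D.sheetg 3 (by norm_num)).hasFDerivAt_sheet (q := (2, t)) ⟨by norm_num, by norm_num⟩
  have h2 : HasDerivAt (fun t : ℝ => ((2 : ℝ), t)) (0, 1) t :=
    (hasDerivAt_const t (2 : ℝ)).prodMk (hasDerivAt_id t)
  have h3 := h1.comp_hasDerivAt t h2
  refine h3.congr_deriv ?_
  simp

lemma contDiff_g2 : ContDiff ℝ ∞ (fun t : ℝ => D.g (PP (2, t))) := by
  have ho : IsOpen {w : ℂ | 1 < ‖w‖} := isOpen_lt continuous_const continuous_norm
  have h1 : DifferentiableOn ℂ D.g {w : ℂ | 1 < ‖w‖} := fun z (hz : 1 < ‖z‖) =>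
    ((D.hg z hz.le).hasDerivAt (nhds_gt hz)).differentiableAt.differentiableWithinAt
  have h2 : ContDiffOn ℝ ∞ D.g {w : ℂ | 1 < ‖w‖} := (h1.contDiffOn ho).restrict_scalars ℝ
  have h3 : ContDiff ℝ ∞ (fun t : ℝ => PP (2, t)) :=
    contDiff_PP.comp (contDiff_const.prodMk contDiff_id)
  rw [← contDiffOn_univ] at h3 ⊢
  apply h2.comp h3
  intro t _
  simp only [mem_ofPred_eq]
  rw [norm_PP (by norm_num)]
  norm_num

lemma ee_inj {s t : ℝ} (h : ee s = ee t) : ∃ k : ℤ, t = s + k * (2 * Real.pi) := by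
  rw [ee, ee, Complex.exp_eq_exp_iff_exists_int] at h
  obtain ⟨n, hn⟩ := h
  refine ⟨-n, ?_⟩
  have h2 : (s : ℂ) = t + n * (2 * Real.pi) := by
    have h3 : ((s : ℂ) - (t + n * (2 * Real.pi))) * Complex.I = 0 := by
      rw [sub_mul, hn]; ring
    rcases mul_eq_zero.1 h3 with h4 | h4
    · exact sub_eq_zero.1 h4
    · exact absurd h4 Complex.I_ne_zero
  have h5 : s = t + n * (2 * Real.pi) := by exact_mod_cast h2
  push_cast
  linarith

theorem isClosedCurves : IsClosedCurves D.γ where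
  smooth := by
    intro j
    fin_cases j
    · exact mkL.contDiff.comp (contDiff_ee.prodMk D.φ_smooth)
    · have h3 : ContDiff ℝ ∞ (fun t : ℝ => PP (2, t)) :=
        contDiff_PP.comp (contDiff_const.prodMk contDiff_id)
      exact mkL.contDiff.comp (h3.prodMk D.contDiff_g2)
  periodic := by
    intro j t
    fin_cases j
    · simp [γ, ee_periodic]
    · simp [γ, sheet, PP, ee_periodic]
  immersed := by
    intro j t
    fin_cases j
    · change deriv (D.γ 0) t ≠ 0
      rw [(D.hasDerivAt_γ0 t).deriv]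
      intro h
      have := congrArg pr1 h
      simp [ee_ne_zero] at this
    · change deriv (D.γ 1) t ≠ 0
      rw [(D.hasDerivAt_γ1 t).deriv]
      intro h
      have := congrArg pr1 h
      simp [X2, ee_ne_zero] at this
  embedded := by
    intro i j s t h
    have n0 : ∀ t, ‖pr1 (D.γ 0 t)‖ = 1 := by
      intro t
      simp [γ, norm_ee]
    have n1 : ∀ t, ‖pr1 (D.γ 1 t)‖ = 2 := by
      intro t
      simp [γ, sheet, norm_PP]
    fin_cases i <;> fin_cases j
    · refine ⟨rfl, ?_⟩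
      have := congrArg pr1 h
      simp only [γ, Fin.zero_eta, Matrix.cons_val_zero, pr1_mk] at this
      exact ee_inj this
    · exfalso
      have h1 := n0 s
      have h2 := n1 t
      have h3 : D.γ 0 s = D.γ 1 t := h
      rw [h3] at h1
      rw [h1] at h2
      norm_num at h2
    · exfalso
      have h1 := n1 s
      have h2 := n0 t
      have h3 : D.γ 1 s = D.γ 0 t := h
      rw [h3] at h1
      rw [h1] at h2
      norm_num at h2
    · refine ⟨rfl, ?_⟩
      have h3 : D.γ 1 s = D.γ 1 t := h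
      have := congrArg pr1 h3
      simp only [γ, Matrix.cons_val_one, sheet, PP] at this
      apply ee_inj
      have h2 : ((2 : ℝ) : ℂ) ≠ 0 := by norm_num
      exact mul_left_cancel₀ h2 this

end Data

end BdrySing
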