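import Pool.Agent.BdrySing.Cantor
import Pool.Agent.BdrySing.Curves

open Set Metric Filter Topology
open scoped ENNReal

noncomputable section

namespace BdrySing

namespace Cantor

/-- the graph of the Cantor function, by steps -/
def R : ℕ → Set (ℝ × ℝ)
  | 0 => Icc 0 1 ×ˢ Icc 0 1
  | n + 1 => (fun p => (c0 p.1, p.2 / 2)) '' R n ∪ (fun p => (c1 p.1, (p.2 + 1) / 2)) '' R n

lemma R_fst (n : ℕ) : ∀ p ∈ R n, p.1 ∈ P n := by
  induction n with
  | zero => exact fun p hp => hp.1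
  | succ n ih =>
    rintro p (⟨q, hq, rfl⟩ | ⟨q, hq, rfl⟩)
    · exact Or.inl ⟨q.1, ih q hq, rfl⟩
    · exact Or.inr ⟨q.1, ih q hq, rfl⟩

lemma R_snd (n : ℕ) : ∀ p ∈ R n, p.2 ∈ Icc (0 : ℝ) 1 := by
  induction n with
  | zero => exact fun p hp => hp.2
  | succ n ih =>
    rintro p (⟨q, hq, rfl⟩ | ⟨q, hq, rfl⟩)
    · have := ih q hq
      simp only [mem_Icc] at this ⊢
      constructor <;> linarith [this.1, this.2]
    · have := ih q hq
      simp only [mem_Icc] at this ⊢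
      constructor <;> linarith [this.1, this.2]

lemma R_succ_sub (n : ℕ) : R (n + 1) ⊆ R n := by
  induction n with
  | zero =>
    intro p hp
    exact ⟨P_sub 1 (R_fst 1 p hp), R_snd 1 p hp⟩
  | succ n ih =>
    rintro x (⟨y, hy, rfl⟩ | ⟨y, hy, rfl⟩)
    · exact Or.inl ⟨y, ih hy, rfl⟩
    · exact Or.inr ⟨y, ih hy, rfl⟩

lemma R_compact (n : ℕ) : IsCompact (R n) := by
  induction n with
  | zero => exact isCompact_Icc.prod isCompact_Icc
  | succ n ih =>
    apply (ih.image _).union (ih.image _)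
    · exact (cont_c0.comp continuous_fst).prodMk (continuous_snd.div_const 2)
    · exact (cont_c1.comp continuous_fst).prodMk ((continuous_snd.add continuous_const).div_const 2)

lemma R_surj (n : ℕ) : ∀ y ∈ Icc (0 : ℝ) 1, ∃ x, (x, y) ∈ R n := by
  induction n with
  | zero => exact fun y hy => ⟨0, ⟨by simp, hy⟩⟩
  | succ n ih =>
    intro y hy
    rcases le_total y (1 / 2) with h | h
    · obtain ⟨x, hx⟩ := ih (2 * y) ⟨by linarith [hy.1], by linarith⟩
      refine ⟨c0 x, Or.inl ⟨(x, 2 * y), hx, ?_⟩⟩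
      simp
    · obtain ⟨x, hx⟩ := ih (2 * y - 1) ⟨by linarith, by linarith [hy.2]⟩
      refine ⟨c1 x, Or.inr ⟨(x, 2 * y - 1), hx, ?_⟩⟩
      simp

lemma R_surj_all {y : ℝ} (hy : y ∈ Icc (0 : ℝ) 1) : ∃ x, ∀ n, (x, y) ∈ R n := by
  have h := IsCompact.nonempty_iInter_of_sequence_nonempty_isCompact_isClosed
    (fun n => R n ∩ Prod.snd ⁻¹' {y})
    (fun n => inter_subset_inter_left _ (R_succ_sub n))
    (fun n => by
      obtain ⟨x, hx⟩ := R_surj n y hy
      exact ⟨(x, y), hx, rfl⟩)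
    ((R_compact 0).inter_right (isClosed_singleton.preimage continuous_snd))
    (fun n => (R_compact n).isClosed.inter (isClosed_singleton.preimage continuous_snd))
  obtain ⟨p, hp⟩ := h
  rw [mem_iInter] at hp
  have h2 : p.2 = y := (hp 0).2
  refine ⟨p.1, fun n => ?_⟩
  have := (hp n).1
  rw [← h2]
  exact this

lemma R_holder (n : ℕ) : ∀ p ∈ R n, ∀ q ∈ R n,
    (p.2 - q.2) ^ 4 ≤ 16 * max |p.1 - q.1| ((1 / 16 : ℝ) ^ n) := by
  induction n with
  | zero =>
    intro p hp q hq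
    have h1 := R_snd 0 p hp
    have h2 := R_snd 0 q hq
    have h3 : |p.2 - q.2| ≤ 1 := by
      rw [abs_le]; constructor <;> linarith [h1.1, h1.2, h2.1, h2.2]
    have h4 : (p.2 - q.2) ^ 4 ≤ 1 := by
      have : (p.2 - q.2) ^ 4 = |p.2 - q.2| ^ 4 := by
        rw [pow_abs, abs_of_nonneg (by positivity)]
      rw [this]
      exact pow_le_one₀ (abs_nonneg _) h3
    have h5 : (1 : ℝ) ≤ max |p.1 - q.1| ((1 / 16 : ℝ) ^ 0) := by
      rw [pow_zero]; exact le_max_right _ _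
    linarith
  | succ n ih =>
    have far : ∀ p q : ℝ × ℝ, p ∈ R n → q ∈ R n →
        |p.2 / 2 - (q.2 + 1) / 2| ^ 4 ≤ 16 * |c0 p.1 - c1 q.1| := by
      intro p q hp hq
      have h1 := R_snd n p hp
      have h2 := R_snd n q hq
      have h3 : |p.2 / 2 - (q.2 + 1) / 2| ≤ 1 := by
        rw [abs_le]; constructor <;> linarith [h1.1, h1.2, h2.1, h2.2]
      have h4 := pow_le_one₀ (n := 4) (abs_nonneg (p.2 / 2 - (q.2 + 1) / 2)) h3
      have h5 := (P_sub n (R_fst n p hp)).2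
      have h6 := (P_sub n (R_fst n q hq)).1
      have h7 : 14 / 16 ≤ |c0 p.1 - c1 q.1| := by
        rw [abs_sub_comm]
        refine le_trans ?_ (le_abs_self _)
        simp only [c0, c1]
        linarith
      linarith
    rintro p (⟨u, hu, rfl⟩ | ⟨u, hu, rfl⟩) q (⟨v, hv, rfl⟩ | ⟨v, hv, rfl⟩)
    · have h1 := ih u hu v hv
      have e1 : (u.2 / 2 - v.2 / 2) ^ 4 = (u.2 - v.2) ^ 4 / 16 := by ring
      have e2 : c0 u.1 - c0 v.1 = (u.1 - v.1) / 16 := by simp only [c0]; ring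
      have e3 : max |c0 u.1 - c0 v.1| ((1 / 16 : ℝ) ^ (n + 1)) =
          max |u.1 - v.1| ((1 / 16 : ℝ) ^ n) / 16 := by
        rw [e2, abs_div, pow_succ, ← max_div_div_right (by norm_num : (0 : ℝ) ≤ 16)]
        norm_num
        congr 1
        ring
      simp only
      rw [e1, e3]
      linarith
    · simp only
      have h1 := far u v hu hv
      have h2 : (u.2 / 2 - (v.2 + 1) / 2) ^ 4 = |u.2 / 2 - (v.2 + 1) / 2| ^ 4 := by
        rw [pow_abs, abs_of_nonneg (by positivity)]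
      rw [h2]
      exact h1.trans (mul_le_mul_of_nonneg_left (le_max_left _ _) (by norm_num))
    · simp only
      have h1 := far v u hv hu
      have h2 : ((u.2 + 1) / 2 - v.2 / 2) ^ 4 = |v.2 / 2 - (u.2 + 1) / 2| ^ 4 := by
        rw [pow_abs, abs_of_nonneg (by positivity)]
        ring
      rw [h2]
      rw [abs_sub_comm (c1 u.1)]
      exact h1.trans (mul_le_mul_of_nonneg_left (le_max_left _ _) (by norm_num))
    · have h1 := ih u hu v hv
      have e1 : ((u.2 + 1) / 2 - (v.2 + 1) / 2) ^ 4 = (u.2 - v.2) ^ 4 / 16 := by ring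
      have e2 : c1 u.1 - c1 v.1 = (u.1 - v.1) / 16 := by simp only [c1]; ring
      have e3 : max |c1 u.1 - c1 v.1| ((1 / 16 : ℝ) ^ (n + 1)) =
          max |u.1 - v.1| ((1 / 16 : ℝ) ^ n) / 16 := by
        rw [e2, abs_div, pow_succ, ← max_div_div_right (by norm_num : (0 : ℝ) ≤ 16)]
        norm_num
        congr 1
        ring
      simp only
      rw [e1, e3]
      linarith

lemma R_holder_lim {x y x' y' : ℝ} (h : ∀ n, (x, y) ∈ R n) (h' : ∀ n, (x', y') ∈ R n) :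
    (y - y') ^ 4 ≤ 16 * |x - x'| := by
  have h1 : ∀ n : ℕ, (y - y') ^ 4 ≤ 16 * (|x - x'| + (1 / 16 : ℝ) ^ n) := by
    intro n
    refine (R_holder n _ (h n) _ (h' n)).trans ?_
    apply mul_le_mul_of_nonneg_left _ (by norm_num)
    apply max_le
    · have : (0 : ℝ) ≤ (1 / 16 : ℝ) ^ n := by positivity
      simp only
      linarith
    · have := abs_nonneg (x - x')
      linarith
  have h2 : Tendsto (fun n : ℕ => 16 * (|x - x'| + (1 / 16 : ℝ) ^ n)) atTop
      (𝓝 (16 * (|x - x'| + 0))) := by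
    apply Tendsto.const_mul
    apply Tendsto.const_add
    exact tendsto_pow_atTop_nhds_zero_of_lt_one (by norm_num) (by norm_num)
  rw [add_zero] at h2
  exact ge_of_tendsto' h2 h1

lemma chord {s t : ℝ} (hs : s ∈ Icc (0 : ℝ) 1) (ht : t ∈ Icc (0 : ℝ) 1) :
    |s - t| ≤ Real.pi * ‖ee s - ee t‖ := by
  wlog hst : s ≤ t generalizing s t
  · rw [abs_sub_comm, norm_sub_rev]
    exact this ht hs (le_of_not_ge hst)
  have him : ∀ u : ℝ, (ee u).im = Real.sin u := by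
    intro u
    rw [ee, Complex.exp_ofReal_mul_I_im]
  have h1 : |Real.sin t - Real.sin s| ≤ ‖ee s - ee t‖ := by
    have := Complex.abs_im_le_norm (ee t - ee s)
    rw [Complex.sub_im, him, him] at this
    rwa [norm_sub_rev] at this
  have h2 : (t - s) / Real.pi ≤ Real.sin t - Real.sin s := by
    rw [Real.sin_sub_sin]
    have hpi := Real.pi_pos
    have hpi3 := Real.pi_gt_three
    have h3 := Real.mul_le_sin (x := (t - s) / 2) (by linarith) (by linarith [ht.2, hs.1])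
    have h4 := Real.one_sub_sq_div_two_le_cos (x := (t + s) / 2)
    have h5 : (1 : ℝ) / 2 ≤ Real.cos ((t + s) / 2) := by
      have : ((t + s) / 2) ^ 2 ≤ 1 := by
        have h6 : 0 ≤ (t + s) / 2 := by linarith [hs.1, ht.1]
        have h7 : (t + s) / 2 ≤ 1 := by linarith [hs.2, ht.2]
        nlinarith
      linarith
    have h8 : 2 / Real.pi * ((t - s) / 2) = (t - s) / Real.pi := by ring
    rw [h8] at h3
    have h9 : 0 ≤ (t - s) / Real.pi := by
      apply div_nonneg <;> linarith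
    nlinarith
  have h10 : |s - t| = t - s := by
    rw [abs_sub_comm, abs_of_nonneg (by linarith)]
  rw [h10]
  have h11 : (t - s) / Real.pi ≤ ‖ee s - ee t‖ := h2.trans ((le_abs_self _).trans h1)
  rwa [div_le_iff₀ Real.pi_pos, mul_comm] at h11

lemma ee_inj01 {s t : ℝ} (hs : s ∈ Icc (0 : ℝ) 1) (ht : t ∈ Icc (0 : ℝ) 1) (h : ee s = ee t) :
    s = t := by
  have := chord hs ht
  rw [h, sub_self, norm_zero, mul_zero] at this
  have h2 := abs_nonpos_iff.1 this
  linarith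

/-- the points of the circle reached by the graph of the Cantor function -/
def SS : Set ℂ := {z | ∃ x y : ℝ, ee x = z ∧ ∀ n, (x, y) ∈ R n}

open scoped Classical in
/-- the Cantor function on the circle -/
def FF (z : ℂ) : ℝ := if h : ∃ y x : ℝ, ee x = z ∧ ∀ n, (x, y) ∈ R n then h.choose else 0

lemma FF_spec {z : ℂ} (hz : z ∈ SS) : ∃ x : ℝ, ee x = z ∧ ∀ n, (x, FF z) ∈ R n := by
  obtain ⟨x, y, h1, h2⟩ := hz
  have h : ∃ y x : ℝ, ee x = z ∧ ∀ n, (x, y) ∈ R n := ⟨y, x, h1, h2⟩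
  rw [FF, dif_pos h]
  exact h.choose_spec

lemma FF_holder {z w : ℂ} (hz : z ∈ SS) (hw : w ∈ SS) :
    (FF z - FF w) ^ 4 ≤ (16 * Real.pi) * ‖z - w‖ := by
  obtain ⟨x, hx, h1⟩ := FF_spec hz
  obtain ⟨x', hx', h2⟩ := FF_spec hw
  have h3 := R_holder_lim h1 h2
  have h4 := chord (P_sub 0 (R_fst 0 _ (h1 0))) (P_sub 0 (R_fst 0 _ (h2 0)))
  simp only at h4
  rw [hx, hx'] at h4
  linarith

lemma dim_SS : (1 / 4 : ℝ≥0∞) ≤ dimH SS := by
  have hpi := Real.pi_pos
  set C : NNReal := ⟨(16 * Real.pi) ^ (1 / 4 : ℝ), by positivity⟩ with hC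
  have hH : HolderOnWith C (1 / 4) FF SS := by
    intro z hz w hw
    have h1 := FF_holder hz hw
    have h2 : |FF z - FF w| ≤ (16 * Real.pi) ^ (1 / 4 : ℝ) * ‖z - w‖ ^ (1 / 4 : ℝ) := by
      rw [← Real.mul_rpow (by positivity) (norm_nonneg _)]
      have h3 : |FF z - FF w| = (|FF z - FF w| ^ (4 : ℕ)) ^ (1 / 4 : ℝ) := by
        rw [← Real.rpow_natCast, ← Real.rpow_mul (abs_nonneg _)]
        norm_num
      rw [h3]
      apply Real.rpow_le_rpow (by positivity) _ (by norm_num)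
      rw [pow_abs, abs_of_nonneg (by positivity)]
      exact h1
    rw [edist_dist, edist_dist, dist_eq_norm, dist_eq_norm, Real.norm_eq_abs]
    have h4 : ((1 / 4 : NNReal) : ℝ) = 1 / 4 := by norm_num
    rw [h4, ENNReal.ofReal_rpow_of_nonneg (norm_nonneg _) (by norm_num)]
    have h5 : (C : ℝ≥0∞) = ENNReal.ofReal ((16 * Real.pi) ^ (1 / 4 : ℝ)) := by
      rw [hC]
      exact (ENNReal.ofReal_eq_coe_nnreal (by positivity)).symm
    rw [h5, ← ENNReal.ofReal_mul (by positivity)]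
    exact ENNReal.ofReal_le_ofReal h2
  have h1 := hH.dimH_image_le (by norm_num)
  have h2 : Icc (0 : ℝ) 1 ⊆ FF '' SS := by
    intro y hy
    obtain ⟨x, hx⟩ := R_surj_all hy
    have hz : ee x ∈ SS := ⟨x, y, rfl, hx⟩
    refine ⟨ee x, hz, ?_⟩
    obtain ⟨x', hx', h3⟩ := FF_spec hz
    have h4 : x' = x := ee_inj01 (P_sub 0 (R_fst 0 _ (h3 0))) (P_sub 0 (R_fst 0 _ (hx 0))) hx'
    rw [h4] at h3
    have h5 := R_holder_lim h3 hx
    rw [sub_self, abs_zero, mul_zero] at h5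
    have h6 : (FF (ee x) - y) ^ 4 = 0 := le_antisymm h5 (by positivity)
    have h7 := pow_eq_zero_iff (by norm_num) |>.1 h6
    linarith
  have h3 : dimH (Icc (0 : ℝ) 1) = 1 := by
    rw [Real.dimH_of_nonempty_interior]
    · simp
    · rw [interior_Icc]
      exact ⟨1 / 2, by norm_num, by norm_num⟩
  have h4 : (1 : ℝ≥0∞) ≤ dimH SS / ((1 / 4 : NNReal) : ℝ≥0∞) := by
    rw [← h3]
    exact (dimH_mono h2).trans h1
  rw [ENNReal.le_div_iff_mul_le (Or.inl (by norm_num)) (Or.inl (by norm_num)), one_mul] at h4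
  refine le_trans (le_of_eq ?_) h4
  norm_num

/-- the Cantor set on the circle -/
def EC : Set ℂ := ee '' CE
/-- the even gaps on the circle -/
def NC : Set ℂ := ee '' CN

lemma SS_sub : SS ⊆ EC := by
  rintro z ⟨x, y, h1, h2⟩
  exact ⟨x, mem_iInter.2 (fun n => R_fst n _ (h2 n)), h1⟩

lemma dim_EC : (1 / 4 : ℝ≥0∞) ≤ dimH EC := dim_SS.trans (dimH_mono SS_sub)

lemma EC_norm {z : ℂ} (hz : z ∈ EC) : ‖z‖ = 1 := by
  obtain ⟨t, -, rfl⟩ := hz
  exact norm_ee t

lemma NC_norm {z : ℂ} (hz : z ∈ NC) : ‖z‖ = 1 := by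
  obtain ⟨t, -, rfl⟩ := hz
  exact norm_ee t

lemma NC_EC {z : ℂ} (hz : z ∈ NC) : z ∉ EC := by
  rintro ⟨s, hs, rfl⟩
  obtain ⟨t, ht, h⟩ := hz
  have := ee_inj01 (CN_sub ht) (CE_sub hs) h
  rw [this] at ht
  exact CN_disj ht hs

lemma EC_compact : IsCompact EC := (isCompact_Icc.of_isClosed_subset CE_closed CE_sub).image
  continuous_ee

lemma union_closed : IsClosed (EC ∪ NC) := by
  rw [EC, NC, ← image_union]
  exact ((isCompact_Icc.of_isClosed_subset closed_union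
    (union_subset CE_sub CN_sub)).image continuous_ee).isClosed

/-- nearby points of the circle have nearby angles -/
lemma near_angle (t : ℝ) {ε : ℝ} (hε : 0 < ε) :
    ∃ ρ > 0, ∀ w : ℂ, ‖w‖ = 1 → dist w (ee t) < ρ → ∃ s, |s - t| < ε ∧ ee s = w := by
  have hc : ContinuousAt (fun w : ℂ => Complex.arg (w / ee t)) (ee t) := by
    have h1 : ContinuousAt (fun w : ℂ => w / ee t) (ee t) := continuousAt_id.div_const _
    have h2 : ContinuousAt Complex.arg (ee t / ee t) := by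
      rw [div_self (ee_ne_zero t)]
      exact Complex.continuousAt_arg Complex.one_mem_slitPlane
    exact ContinuousAt.comp (g := Complex.arg) (f := fun w : ℂ => w / ee t) h2 h1
  obtain ⟨ρ, hρ, h⟩ := Metric.continuousAt_iff.1 hc ε hε
  refine ⟨ρ, hρ, ?_⟩
  intro w hw hd
  have h1 := h hd
  rw [div_self (ee_ne_zero t), Complex.arg_one, dist_zero_right, Real.norm_eq_abs] at h1
  refine ⟨t + Complex.arg (w / ee t), by rwa [add_sub_cancel_left], ?_⟩
  have h6 : ee (t + Complex.arg (w / ee t)) = ee t * ee (Complex.arg (w / ee t)) := by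
    simp only [ee]
    rw [← Complex.exp_add]
    congr 1
    push_cast
    ring
  have h7 : ee (Complex.arg (w / ee t)) = w / ee t := by
    have h8 := Complex.norm_mul_exp_arg_mul_I (w / ee t)
    have h9 : ‖w / ee t‖ = 1 := by rw [norm_div, hw, norm_ee, div_one]
    rw [h9, Complex.ofReal_one, one_mul] at h8
    exact h8
  rw [h6, h7]
  field_simp [ee_ne_zero t]

lemma NC_open {z : ℂ} (hz : z ∈ NC) : ∃ ρ > 0, ∀ w : ℂ, ‖w‖ = 1 → dist w z < ρ → w ∈ NC := by
  obtain ⟨t, ht, rfl⟩ := hz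
  obtain ⟨ε, hε, h⟩ := Metric.isOpen_iff.1 CN_open t ht
  obtain ⟨ρ, hρ, h2⟩ := near_angle t hε
  refine ⟨ρ, hρ, ?_⟩
  intro w hw hd
  obtain ⟨s, hs, rfl⟩ := h2 w hw hd
  exact ⟨s, h hs, rfl⟩

lemma MC_open {z : ℂ} (hN : z ∉ NC) (hE : z ∉ EC) :
    ∃ ρ > 0, ∀ w : ℂ, dist w z < ρ → w ∉ NC ∧ w ∉ EC := by
  have h : (EC ∪ NC)ᶜ ∈ 𝓝 z := union_closed.isOpen_compl.mem_nhds (by
    simp only [mem_compl_iff, mem_union, not_or]
    exact ⟨hE, hN⟩)
  obtain ⟨ρ, hρ, h2⟩ := Metric.mem_nhds_iff.1 h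
  refine ⟨ρ, hρ, ?_⟩
  intro w hw
  have := h2 hw
  simp only [mem_compl_iff, mem_union, not_or] at this
  exact ⟨this.2, this.1⟩

lemma acc_NC {z : ℂ} (hz : z ∈ EC) {ε : ℝ} (hε : 0 < ε) : ∃ w ∈ NC, dist w z < ε := by
  obtain ⟨t, ht, rfl⟩ := hz
  obtain ⟨δ, hδ, h⟩ := Metric.continuousAt_iff.1 (continuous_ee.continuousAt (x := t)) ε hε
  obtain ⟨y, hy, h2⟩ := acc_even ht hδ
  refine ⟨ee y, ⟨y, hy, rfl⟩, h ?_⟩
  rw [Real.dist_eq, abs_sub_comm]
  exact h2

lemma acc_MC {z : ℂ} (hz : z ∈ EC) {ε : ℝ} (hε : 0 < ε) :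
    ∃ w : ℂ, ‖w‖ = 1 ∧ w ∉ NC ∧ w ∉ EC ∧ dist w z < ε := by
  obtain ⟨t, ht, rfl⟩ := hz
  obtain ⟨δ, hδ, h⟩ := Metric.continuousAt_iff.1 (continuous_ee.continuousAt (x := t)) ε hε
  obtain ⟨y, hy, hyN, hyE, h2⟩ := acc_odd ht hδ
  refine ⟨ee y, norm_ee y, ?_, ?_, h (by rw [Real.dist_eq, abs_sub_comm]; exact h2)⟩
  · rintro ⟨s, hs, h3⟩
    have := ee_inj01 (CN_sub hs) hy h3
    exact hyN (this ▸ hs)
  · rintro ⟨s, hs, h3⟩
    have := ee_inj01 (CE_sub hs) hy h3
    exact hyE (this ▸ hs)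

end Cantor

end BdrySing
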