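import Pool.Agent.BdrySing.Plane

open Set MeasureTheory Metric Module Filter Topology
open scoped ContDiff RealInnerProductSpace Manifold

noncomputable section

namespace BdrySing

/-- projection onto the tangent plane of a graph, along the vertical -/
def tanP (D : ℂ →L[ℝ] ℂ) : C2 →L[ℝ] C2 := (hor + vert.comp D).comp pr1
/-- the differential of the vertical distance to the graph -/
def nrmQ (D : ℂ →L[ℝ] ℂ) : C2 →L[ℝ] ℂ := pr2 - D.comp pr1
/-- auxiliary -/
def RR (D : ℂ →L[ℝ] ℂ) : C2 →L[ℝ] C2 := tanP D + (1 / 2 : ℝ) • vert.comp (nrmQ D)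

lemma tan_add_nrm (D : ℂ →L[ℝ] ℂ) (u : C2) : tanP D u + vert (nrmQ D u) = u := by
  apply C2.ext <;> simp [tanP, nrmQ, hor_apply, vert_apply]

lemma tanP_eq (D : ℂ →L[ℝ] ℂ) (u : C2) :
    tanP D u = (pr1 u).re • tanP D (mk 1 0) + (pr1 u).im • tanP D (mk Complex.I 0) := by
  have h : pr1 u = (pr1 u).re • (1 : ℂ) + (pr1 u).im • Complex.I := by
    apply Complex.ext <;> simp
  simp only [tanP, ContinuousLinearMap.comp_apply, pr1_mk]
  conv_lhs => rw [h]
  rw [map_add, map_smul, map_smul]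

lemma alg_identity (a : C2 [⋀^Fin 2]→L[ℝ] ℝ) (D : ℂ →L[ℝ] ℂ) (u v : C2) :
    bil2 a (vert (nrmQ D u)) (RR D v) - bil2 a (vert (nrmQ D v)) (RR D u) =
      a ![u, v] - a ![tanP D (mk 1 0), tanP D (mk Complex.I 0)] * det2 (pr1 u) (pr1 v) := by
  have e1 : a ![u, v] = bil2 a (tanP D u) (tanP D v) + bil2 a (tanP D u) (vert (nrmQ D v))
      + bil2 a (vert (nrmQ D u)) (tanP D v) + bil2 a (vert (nrmQ D u)) (vert (nrmQ D v)) := by
    rw [← bil2_apply]
    conv_lhs => rw [← tan_add_nrm D u, ← tan_add_nrm D v]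
    simp only [map_add, add_apply]
    ring
  have e2 : bil2 a (tanP D u) (tanP D v) =
      a ![tanP D (mk 1 0), tanP D (mk Complex.I 0)] * det2 (pr1 u) (pr1 v) := by
    rw [tanP_eq D u, tanP_eq D v]
    simp only [map_add, add_apply, map_smul, smul_apply,
      smul_eq_mul]
    have s1 : ∀ x, bil2 a x x = 0 := by
      intro x
      have := bil2_antisymm a x x
      linarith
    rw [s1, s1, bil2_antisymm a (tanP D (mk Complex.I 0)) (tanP D (mk 1 0)), ← bil2_apply]
    simp only [det2]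
    ring
  rw [e1, e2]
  simp only [RR, add_apply, smul_apply,
    ContinuousLinearMap.comp_apply, map_add, map_smul, smul_eq_mul]
  rw [bil2_antisymm a (vert (nrmQ D v)) (tanP D u), bil2_antisymm a (vert (nrmQ D v))
    (vert (nrmQ D u))]
  ring

/-- auxiliary family of linear maps -/
def Lam (b : C2 →L[ℝ] C2 →L[ℝ] ℝ) (R : C2 →L[ℝ] C2) : ℂ →L[ℝ] (C2 →L[ℝ] ℝ) :=
  ((ContinuousLinearMap.compL ℝ C2 C2 ℝ).flip R).comp (b.comp vert)

lemma Lam_apply (b : C2 →L[ℝ] C2 →L[ℝ] ℝ) (R : C2 →L[ℝ] C2) (c : ℂ) (v : C2) :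
    Lam b R c v = b (vert c) (R v) := rfl

lemma contDiff_tanP {f : ℂ → ℂ} (hf : ContDiff ℝ ∞ f) :
    ContDiff ℝ ∞ (fun p : C2 => tanP (fderiv ℝ f (pr1 p))) := by
  have h1 : ContDiff ℝ ∞ (fun p : C2 => fderiv ℝ f (pr1 p)) :=
    (hf.fderiv_right (m := ∞) (by simp)).comp pr1.contDiff
  unfold tanP
  exact (contDiff_const.add (contDiff_const.clm_comp h1)).clm_comp contDiff_const

lemma contDiff_RR {f : ℂ → ℂ} (hf : ContDiff ℝ ∞ f) :
    ContDiff ℝ ∞ (fun p : C2 => RR (fderiv ℝ f (pr1 p))) := by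
  have h1 : ContDiff ℝ ∞ (fun p : C2 => fderiv ℝ f (pr1 p)) :=
    (hf.fderiv_right (m := ∞) (by simp)).comp pr1.contDiff
  unfold RR
  refine (contDiff_tanP hf).add (ContDiff.const_smul (1 / 2 : ℝ) ?_)
  unfold nrmQ
  exact contDiff_const.clm_comp (contDiff_const.sub (h1.clm_comp contDiff_const))

/-- Tangential reduction: on a closed current of finite mass supported in a smooth graph, a form
only matters through its tangential part. -/
theorem tangential_reduction {U : Set C2} (hU : IsOpen U) {T : Form C2 2 → ℝ}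
    (hT : IsCurrent U T) (hcl : ∀ η : Form C2 1, IsTest U η → T (extDeriv η) = 0)
    {f : ℂ → ℂ} (hf : ContDiff ℝ ∞ f)
    (hspt : ∀ p ∈ spt T, p ∈ U → pr2 p = f (pr1 p)) {α : Form C2 2} (hα : IsTest U α) :
    T α = T (fun p => (α p ![tanP (fderiv ℝ f (pr1 p)) (mk 1 0),
      tanP (fderiv ℝ f (pr1 p)) (mk Complex.I 0)]) • OmC) := by
  have hDf : ContDiff ℝ ∞ (fun p : C2 => fderiv ℝ f (pr1 p)) :=
    (hf.fderiv_right (m := ∞) (by simp)).comp pr1.contDiff
  have hw : ContDiff ℝ ∞ (fun p : C2 => pr2 p - f (pr1 p)) :=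
    pr2.contDiff.sub (hf.comp pr1.contDiff)
  have hb : ContDiff ℝ ∞ (fun p : C2 => bil2 (α p)) := contDiff_bil2 hα.1
  have hL : ContDiff ℝ ∞ (fun p : C2 => Lam (bil2 (α p)) (RR (fderiv ℝ f (pr1 p)))) := by
    unfold Lam
    have h5 : ContDiff ℝ ∞ (fun R : C2 →L[ℝ] C2 =>
        (ContinuousLinearMap.compL ℝ C2 C2 ℝ).flip R) := by fun_prop
    exact (h5.comp (contDiff_RR hf)).clm_comp (hb.clm_comp contDiff_const)
  set η : C2 → (C2 →L[ℝ] ℝ) := fun p => Lam (bil2 (α p)) (RR (fderiv ℝ f (pr1 p)))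
    (pr2 p - f (pr1 p)) with hη
  have hηs : ContDiff ℝ ∞ η := hL.clm_apply hw
  have hηt : IsTest U (fun p => lin1 (η p)) := by
    apply hα.lin1_of hηs
    intro p h0
    ext v
    simp [hη, Lam_apply, h0]
  have ha : ContDiff ℝ ∞ (fun p => (α p ![tanP (fderiv ℝ f (pr1 p)) (mk 1 0),
      tanP (fderiv ℝ f (pr1 p)) (mk Complex.I 0)])) := by
    have : (fun p => (α p ![tanP (fderiv ℝ f (pr1 p)) (mk 1 0),
      tanP (fderiv ℝ f (pr1 p)) (mk Complex.I 0)])) = fun p => bil2 (α p)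
        (tanP (fderiv ℝ f (pr1 p)) (mk 1 0)) (tanP (fderiv ℝ f (pr1 p)) (mk Complex.I 0)) := by
      funext p
      rw [bil2_apply]
    rw [this]
    exact (hb.clm_apply ((contDiff_tanP hf).clm_apply contDiff_const)).clm_apply
      ((contDiff_tanP hf).clm_apply contDiff_const)
  have hβt : IsTest U (fun p => (α p ![tanP (fderiv ℝ f (pr1 p)) (mk 1 0),
      tanP (fderiv ℝ f (pr1 p)) (mk Complex.I 0)]) • OmC) := by
    have hs : Function.support (fun p => (α p ![tanP (fderiv ℝ f (pr1 p)) (mk 1 0),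
      tanP (fderiv ℝ f (pr1 p)) (mk Complex.I 0)]) • OmC) ⊆ Function.support α := by
      intro p hp h0
      apply hp
      simp [h0]
    exact ⟨ha.smul contDiff_const, hα.2.1.mono hs, (closure_mono hs).trans hα.2.2⟩
  have hηd : IsTest U (extDeriv (fun p => lin1 (η p))) := hηt.extDeriv_lin1 hηs
  have hkey : T (α - (extDeriv (fun p => lin1 (η p)))) =
      T (fun p => (α p ![tanP (fderiv ℝ f (pr1 p)) (mk 1 0),
      tanP (fderiv ℝ f (pr1 p)) (mk Complex.I 0)]) • OmC) := by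
    apply hT.congr_on_spt hU (hα.sub hηd) hβt
    intro p hp hpU
    have hw0 : pr2 p - f (pr1 p) = 0 := by rw [hspt p hp hpU, sub_self]
    have hwd : HasFDerivAt (fun p : C2 => pr2 p - f (pr1 p)) (nrmQ (fderiv ℝ f (pr1 p))) p := by
      have h1 : HasFDerivAt f (fderiv ℝ f (pr1 p)) (pr1 p) :=
        (hf.contDiffAt.differentiableAt (by simp)).hasFDerivAt
      exact pr2.hasFDerivAt.sub (h1.comp p pr1.hasFDerivAt)
    have hLd : HasFDerivAt (fun p : C2 => Lam (bil2 (α p)) (RR (fderiv ℝ f (pr1 p))))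
        (fderiv ℝ (fun p : C2 => Lam (bil2 (α p)) (RR (fderiv ℝ f (pr1 p)))) p) p :=
      (hL.contDiffAt.differentiableAt (by simp)).hasFDerivAt
    have hd := hLd.clm_apply hwd
    rw [hw0] at hd
    have hd2 : extDeriv (fun p => lin1 (η p)) p = alt2 ((Lam (bil2 (α p))
        (RR (fderiv ℝ f (pr1 p)))).comp (nrmQ (fderiv ℝ f (pr1 p)))) := by
      rw [extDeriv_lin1 (hηs.contDiffAt.differentiableAt (by simp)), hd.fderiv]
      congr 1
      ext u v
      simp
    apply form2_ext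
    intro u v
    simp only [Pi.sub_apply]
    rw [hd2]
    have h3 := alg_identity (α p) (fderiv ℝ f (pr1 p)) u v
    rw [ContinuousAlternatingMap.sub_apply, alt2_apply]
    simp only [Matrix.cons_val_zero, Matrix.cons_val_one, ContinuousLinearMap.comp_apply,
      Lam_apply]
    rw [h3, ContinuousAlternatingMap.smul_apply, OmC_apply, smul_eq_mul]
    ring
  rw [hT.sub hα hηd, hcl _ hηt, sub_zero] at hkey
  exact hkey

end BdrySing
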