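import Pool.Agent.BdrySing.Forms

open Set MeasureTheory Metric Module Filter Topology
open scoped ContDiff RealInnerProductSpace Manifold

noncomputable section

namespace BdrySing

variable {V : Type} [NormedAddCommGroup V] [InnerProductSpace ℝ V]

lemma exists_cutoff [FiniteDimensional ℝ V] {K O : Set V} (hK : IsCompact K) (hO : IsOpen O)
    (hKO : K ⊆ O) :
    ∃ χ : V → ℝ, ContDiff ℝ ∞ χ ∧ HasCompactSupport χ ∧ tsupport χ ⊆ O ∧
      (∀ x, 0 ≤ χ x ∧ χ x ≤ 1) ∧ ∃ W, IsOpen W ∧ K ⊆ W ∧ ∀ x ∈ W, χ x = 1 := by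
  obtain ⟨δ, hδ, hδO⟩ := hK.exists_cthickening_subset_open hO hKO
  have h1 : IsClosed (thickening (2 * δ / 3) K)ᶜ := isOpen_thickening.isClosed_compl
  have h2 : IsClosed (cthickening (δ / 3) K) := isClosed_cthickening
  have h3 : Disjoint (thickening (2 * δ / 3) K)ᶜ (cthickening (δ / 3) K) := by
    rw [disjoint_compl_left_iff_subset]
    exact cthickening_subset_thickening' (by linarith) (by linarith) K
  obtain ⟨f, hf0, hf1, hf⟩ := exists_contMDiffMap_zero_one_of_isClosed (n := ⊤) 𝓘(ℝ, V) h1 h2 h3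
  have hsupp : tsupport (f : V → ℝ) ⊆ cthickening (2 * δ / 3) K := by
    apply closure_minimal _ isClosed_cthickening
    intro x hx
    by_contra hx2
    apply hx
    apply hf0
    intro hx3
    exact hx2 (thickening_subset_cthickening _ _ hx3)
  refine ⟨f, f.contMDiff.contDiff, ?_, ?_, ?_, thickening (δ / 3) K, isOpen_thickening,
    self_subset_thickening (by linarith) K, ?_⟩
  · exact HasCompactSupport.of_support_subset_isCompact (hK.cthickening (r := 2 * δ / 3))
      ((subset_tsupport _).trans hsupp)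
  · exact hsupp.trans ((cthickening_mono (by linarith) K).trans hδO)
  · intro x
    exact hf x
  · intro x hx
    exact hf1 (thickening_subset_cthickening _ _ hx)

namespace IsTest

variable {k : ℕ} {U U' : Set V} {α β : Form V k}

lemma mono (h : IsTest U α) (hU : U ⊆ U') : IsTest U' α := ⟨h.1, h.2.1, h.2.2.trans hU⟩

lemma add (hα : IsTest U α) (hβ : IsTest U β) : IsTest U (α + β) :=
  ⟨hα.1.add hβ.1, hα.2.1.add hβ.2.1, (tsupport_add α β).trans (union_subset hα.2.2 hβ.2.2)⟩

lemma fsmul (hα : IsTest U α) {χ : V → ℝ} (hχ : ContDiff ℝ ∞ χ) :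
    IsTest U (fun x => χ x • α x) := by
  refine ⟨hχ.smul hα.1, hα.2.1.smul_left (f := χ), ?_⟩
  exact (closure_mono (Function.support_smul_subset_right χ α)).trans hα.2.2

/-- multiplying any smooth form by a cutoff function -/
lemma of_cutoff {χ : V → ℝ} (hχ : ContDiff ℝ ∞ χ) (hc : HasCompactSupport χ)
    (hU : tsupport χ ⊆ U) (hα : ContDiff ℝ ∞ α) : IsTest U (fun x => χ x • α x) := by
  refine ⟨hχ.smul hα, ?_, ?_⟩
  · exact hc.smul_right (f' := α)
  · exact (closure_mono (Function.support_smul_subset_left χ α)).trans hU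

lemma csmul (hα : IsTest U α) (c : ℝ) : IsTest U (c • α) := by
  exact hα.fsmul (χ := fun _ => c) contDiff_const

lemma sub (hα : IsTest U α) (hβ : IsTest U β) : IsTest U (α - β) := by
  have h := hα.add (hβ.csmul (-1))
  have e : α - β = α + (-1 : ℝ) • β := by
    funext x
    ext v
    simp [sub_eq_add_neg]
  rw [e]; exact h

lemma lin1_of {η : V → (V →L[ℝ] ℝ)} {α : Form V k} (hα : IsTest U α) (hη : ContDiff ℝ ∞ η)
    (h0 : ∀ p, α p = 0 → η p = 0) : IsTest U (fun p => lin1 (η p)) := by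
  have hs : Function.support (fun p => lin1 (η p)) ⊆ Function.support α := by
    intro p hp hh
    apply hp
    simp [h0 p hh]
  exact ⟨contDiff_lin1 hη, hα.2.1.mono hs, (closure_mono hs).trans hα.2.2⟩

lemma extDeriv_lin1 {η : V → (V →L[ℝ] ℝ)} (hη : ContDiff ℝ ∞ η)
    (h : IsTest U (fun p => lin1 (η p))) : IsTest U (extDeriv (fun p => lin1 (η p))) :=
  ⟨contDiff_extDeriv_lin1 hη, h.2.1.of_isClosed_subset (isClosed_tsupport _)
    (tsupport_extDeriv_subset _), (tsupport_extDeriv_subset _).trans h.2.2⟩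

lemma bddNorm (hα : IsTest U α) : ∃ M : ℝ, 0 ≤ M ∧ ∀ x, ‖α x‖ ≤ M := by
  obtain ⟨M, hM⟩ := hα.2.1.exists_bound_of_continuous hα.1.continuous
  exact ⟨M, (norm_nonneg _).trans (hM 0), hM⟩

end IsTest

lemma comassLE_of_norm {k : ℕ} {α : Form V k} {c : ℝ} (h : ∀ x, ‖α x‖ ≤ c) : ComassLE α c := by
  intro x v hv
  have h1 := (α x).le_opNorm v
  have h2 : ∏ i, ‖v i‖ = 1 := Finset.prod_eq_one (fun i _ => hv.1 i)
  rw [h2, mul_one] at h1
  exact h1.trans (h x)

lemma spt_isClosed (T : Form V 2 → ℝ) : IsClosed (spt T) := by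
  rw [← isOpen_compl_iff, isOpen_iff_mem_nhds]
  intro x hx
  simp only [spt, mem_compl_iff, mem_ofPred_eq, not_forall] at hx
  obtain ⟨W, hW, hxW, hne⟩ := hx
  filter_upwards [hW.mem_nhds hxW] with y hy
  simp only [spt, mem_compl_iff, mem_ofPred_eq, not_forall]
  exact ⟨W, hW, hy, hne⟩

lemma not_mem_spt {T : Form V 2 → ℝ} {x : V} (hx : x ∉ spt T) :
    ∃ W, IsOpen W ∧ x ∈ W ∧ ∀ α : Form V 2, IsTest W α → T α = 0 := by
  simp only [spt, mem_ofPred_eq, not_forall, not_exists, not_and, not_not] at hx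
  obtain ⟨W, hW, hxW, hne⟩ := hx
  exact ⟨W, hW, hxW, hne⟩

namespace IsCurrent

variable [FiniteDimensional ℝ V] {U : Set V} {T : Form V 2 → ℝ}

omit [FiniteDimensional ℝ V] in
lemma mono {U' : Set V} (hT : IsCurrent U T) (h : U' ⊆ U) : IsCurrent U' T where
  add α β hα hβ := hT.add α β (hα.mono h) (hβ.mono h)
  smul c α hα := hT.smul c α (hα.mono h)
  bound := by
    obtain ⟨M, hM⟩ := hT.bound
    exact ⟨M, fun α c hα hc => hM α c (hα.mono h) hc⟩

omit [FiniteDimensional ℝ V] in
lemma sub (hT : IsCurrent U T) {α β : Form V 2} (hα : IsTest U α) (hβ : IsTest U β) :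
    T (α - β) = T α - T β := by
  have e : α - β = α + (-1 : ℝ) • β := by
    funext x
    ext v
    simp [sub_eq_add_neg]
  rw [e, hT.add _ _ hα (hβ.csmul _), hT.smul _ _ hβ]; ring

omit [FiniteDimensional ℝ V] in
/-- splitting a test form by a smooth function -/
lemma split (hT : IsCurrent U T) {α : Form V 2} (hα : IsTest U α) {χ : V → ℝ}
    (hχ : ContDiff ℝ ∞ χ) :
    T α = T (fun x => χ x • α x) + T (fun x => (1 - χ x) • α x) := by
  have h1 := hα.fsmul hχ
  have h2 := hα.fsmul (χ := fun x => 1 - χ x) (contDiff_const.sub hχ)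
  rw [← hT.add _ _ h1 h2]
  congr 1
  ext1 x
  simp only [Pi.add_apply]
  rw [← add_smul, add_sub_cancel, one_smul]

lemma eq_zero_of_disjoint (hT : IsCurrent U T) (hU : IsOpen U) {α : Form V 2} (hα : IsTest U α)
    (hd : Disjoint (tsupport α) (spt T)) : T α = 0 := by
  have key : ∃ W : Set V, IsOpen W ∧ tsupport α ⊆ W ∧
      ∀ β : Form V 2, IsTest (W ∩ U) β → T β = 0 := by
    have hK : IsCompact (tsupport α) := hα.2.1
    refine hK.induction_on (p := fun s => ∃ W : Set V, IsOpen W ∧ s ⊆ W ∧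
      ∀ β : Form V 2, IsTest (W ∩ U) β → T β = 0) ?_ ?_ ?_ ?_
    · refine ⟨∅, isOpen_empty, subset_rfl, ?_⟩
      intro β hβ
      have h0 : β = 0 := by
        have : tsupport β ⊆ ∅ := by simpa using hβ.2.2
        exact tsupport_eq_empty_iff.1 (subset_empty_iff.1 this)
      have h1 : IsTest U β := hβ.mono inter_subset_right
      have h2 := hT.smul 0 β h1
      rw [zero_mul, zero_smul] at h2
      rw [h0]; exact h2
    · rintro s t hst ⟨W, hW, htW, h⟩
      exact ⟨W, hW, hst.trans htW, h⟩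
    · rintro s t ⟨W, hW, hsW, h⟩ ⟨W', hW', htW', h'⟩
      refine ⟨W ∪ W', hW.union hW', union_subset_union hsW htW', ?_⟩
      intro β hβ
      have hKc : IsCompact (tsupport β \ W') := (hβ.2.1 : IsCompact (tsupport β)).diff hW'
      have hsub : tsupport β \ W' ⊆ W ∩ U := by
        rintro x ⟨hx, hxW'⟩
        obtain ⟨h1, h2⟩ := hβ.2.2 hx
        exact ⟨h1.resolve_right hxW', h2⟩
      obtain ⟨χ, hχ, hχc, hχs, -, W'', hW'', hKW'', hχ1⟩ := exists_cutoff hKc (hW.inter hU) hsub
      have hβU : IsTest U β := hβ.mono inter_subset_right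
      rw [hT.split hβU hχ, h _ (IsTest.of_cutoff hχ hχc hχs hβ.1), zero_add]
      apply h'
      refine ⟨(contDiff_const.sub hχ).smul hβ.1, hβ.2.1.smul_left (f := fun x => 1 - χ x), ?_⟩
      intro x hx
      have hxβ : x ∈ tsupport β :=
        closure_mono (Function.support_smul_subset_right (fun x => 1 - χ x) β) hx
      refine ⟨?_, (hβ.2.2 hxβ).2⟩
      by_contra hxW'
      have hxW'' : x ∈ W'' := hKW'' ⟨hxβ, hxW'⟩
      have : x ∉ tsupport (fun x => (1 - χ x) • β x) := by
        rw [notMem_tsupport_iff_eventuallyEq]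
        filter_upwards [hW''.mem_nhds hxW''] with y hy
        simp [hχ1 y hy]
      exact this hx
    · intro x hx
      have hx2 : x ∉ spt T := fun h => (Set.disjoint_left.1 hd) hx h
      obtain ⟨W, hW, hxW, h⟩ := not_mem_spt hx2
      refine ⟨W, mem_nhdsWithin_of_mem_nhds (hW.mem_nhds hxW), W, hW, subset_rfl, ?_⟩
      intro β hβ
      exact h β (hβ.mono inter_subset_left)
  obtain ⟨W, hW, hsub, h⟩ := key
  exact h α ⟨hα.1, hα.2.1, subset_inter hsub hα.2.2⟩

/-- a current of finite mass kills the forms vanishing on its support -/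
lemma eq_zero_of_vanish (hT : IsCurrent U T) (hU : IsOpen U) {α : Form V 2} (hα : IsTest U α)
    (hd : ∀ x ∈ spt T, x ∈ U → α x = 0) : T α = 0 := by
  obtain ⟨M, hM⟩ := hT.bound
  have key : ∀ ε > 0, |T α| ≤ M * ε := by
    intro ε hε
    have hKc : IsCompact {x | ε ≤ ‖α x‖} := by
      refine (hα.2.1 : IsCompact (tsupport α)).of_isClosed_subset
        (isClosed_le continuous_const hα.1.continuous.norm) ?_
      intro x hx
      apply subset_tsupport
      intro h0
      simp only [mem_ofPred_eq, h0, norm_zero] at hx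
      linarith
    have hsub : {x | ε ≤ ‖α x‖} ⊆ U ∩ (spt T)ᶜ := by
      intro x hx
      have hxU : x ∈ U := by
        apply hα.2.2
        apply subset_tsupport
        intro h0
        simp only [mem_ofPred_eq, h0, norm_zero] at hx
        linarith
      refine ⟨hxU, ?_⟩
      intro hxs
      simp only [mem_ofPred_eq, hd x hxs hxU, norm_zero] at hx
      linarith
    obtain ⟨χ, hχ, hχc, hχs, hχ01, W'', hW'', hKW'', hχ1⟩ :=
      exists_cutoff hKc (hU.inter (spt_isClosed T).isOpen_compl) hsub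
    rw [hT.split hα hχ]
    have h1 : T (fun x => χ x • α x) = 0 := by
      have ht : IsTest (U ∩ (spt T)ᶜ) (fun x => χ x • α x) := IsTest.of_cutoff hχ hχc hχs hα.1
      refine hT.eq_zero_of_disjoint hU (ht.mono inter_subset_left) ?_
      rw [Set.disjoint_left]
      intro x hx
      exact (ht.2.2 hx).2
    rw [h1, zero_add]
    apply hM _ _ (hα.fsmul (contDiff_const.sub hχ))
    apply comassLE_of_norm
    intro x
    rw [norm_smul, Real.norm_eq_abs, abs_of_nonneg (by linarith [(hχ01 x).2])]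
    by_cases hx : ε ≤ ‖α x‖
    · rw [hχ1 x (hKW'' hx)]
      simp only [sub_self, zero_mul]
      exact hε.le
    · push Not at hx
      have h2 := hχ01 x
      nlinarith [norm_nonneg (α x)]
  have h2 : |T α| ≤ 0 := by
    apply le_of_forall_pos_le_add
    intro ε hε
    have h3 := key (ε / (|M| + 1)) (by positivity)
    have h4 : M * (ε / (|M| + 1)) ≤ ε := by
      rw [mul_div_assoc', div_le_iff₀ (by positivity)]
      nlinarith [le_abs_self M, abs_nonneg M]
    linarith
  exact abs_eq_zero.1 (le_antisymm h2 (abs_nonneg _))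

/-- two test forms which agree on the support have the same value -/
lemma congr_on_spt (hT : IsCurrent U T) (hU : IsOpen U) {α β : Form V 2} (hα : IsTest U α)
    (hβ : IsTest U β) (hd : ∀ x ∈ spt T, x ∈ U → α x = β x) : T α = T β := by
  have h := hT.eq_zero_of_vanish hU (hα.sub hβ) (by
    intro x hx hxU
    simp [hd x hx hxU])
  rw [hT.sub hα hβ] at h
  linarith

end IsCurrent

end BdrySing
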