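import Pool.Agent.BdrySing.Translate

open Set MeasureTheory Metric Module Filter Topology
open scoped ContDiff RealInnerProductSpace Manifold

noncomputable section

namespace BdrySing

lemma contDiff_cutoff_smul {E F : Type} [NormedAddCommGroup E] [NormedSpace ℝ E]
    [NormedAddCommGroup F] [NormedSpace ℝ F] {θ : E → ℝ} (hθ : ContDiff ℝ ∞ θ) {f : E → F}
    {O : Set E} (hO : IsOpen O) (hf : ContDiffOn ℝ ∞ f O) (hs : tsupport θ ⊆ O) :
    ContDiff ℝ ∞ (fun z => θ z • f z) := by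
  rw [contDiff_iff_contDiffAt]
  intro z
  by_cases hz : z ∈ tsupport θ
  · exact hθ.contDiffAt.smul (hf.contDiffAt (hO.mem_nhds (hs hz)))
  · have h0 : θ =ᶠ[𝓝 z] 0 := notMem_tsupport_iff_eventuallyEq.1 hz
    have h1 : (fun z => θ z • f z) =ᶠ[𝓝 z] fun _ => (0 : F) := by
      filter_upwards [h0] with y hy
      simp [hy]
    exact contDiffAt_const.congr_of_eventuallyEq h1

lemma contDiff_graph {f : ℂ → ℂ} (hf : ContDiff ℝ ∞ f) :
    ContDiff ℝ ∞ (fun z : ℂ => mk z (f z)) :=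
  mkL.contDiff.comp (contDiff_id.prodMk hf)

theorem constancy_ball {U : Set C2} (hU : IsOpen U) {T : Form C2 2 → ℝ}
    (hT : IsCurrent U T) (hcl : ∀ η : Form C2 1, IsTest U η → T (extDeriv η) = 0)
    {c : ℂ} {R : ℝ} {f : ℂ → ℂ} (hf : ContDiffOn ℝ ∞ f (ball c R))
    (hgr : ∀ z ∈ ball c R, mk z (f z) ∈ U)
    (hspt : ∀ p ∈ spt T, p ∈ U → pr1 p ∈ ball c R → pr2 p = f (pr1 p))
    {z₁ z₂ : ℂ} (h₁ : z₁ ∈ ball c R) (h₂ : z₂ ∈ ball c R) (hn : mk z₁ (f z₁) ∉ spt T) :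
    mk z₂ (f z₂) ∉ spt T := by
  obtain ⟨r₀, hr₀, hr₁, hr₂⟩ : ∃ r₀ : ℝ, r₀ < R ∧ dist z₁ c ≤ r₀ ∧ dist z₂ c ≤ r₀ :=
    ⟨max (dist z₁ c) (dist z₂ c), max_lt h₁ h₂, le_max_left _ _, le_max_right _ _⟩
  obtain ⟨ρ₀, hρ₀, hρR⟩ : ∃ ρ₀ : ℝ, 0 < ρ₀ ∧ r₀ + 3 * ρ₀ = R :=
    ⟨(R - r₀) / 3, by linarith, by ring⟩
  obtain ⟨θ, hθ, hθc, hθs, hθ01, Wθ, hWθ, hKθ, hθ1⟩ := exists_cutoff
    (isCompact_closedBall c (r₀ + 2 * ρ₀)) (isOpen_ball : IsOpen (ball c R))
    (closedBall_subset_ball (by linarith))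
  obtain ⟨g, hg⟩ : ∃ g : ℂ → ℂ, g = fun z => θ z • f z := ⟨_, rfl⟩
  have hgs : ContDiff ℝ ∞ g := by
    rw [hg]; exact contDiff_cutoff_smul hθ isOpen_ball hf hθs
  have hgf : ∀ z ∈ closedBall c (r₀ + 2 * ρ₀), g z = f z := by
    intro z hz
    rw [hg]
    simp [hθ1 z (hKθ hz)]
  set U' : Set C2 := U ∩ pr1 ⁻¹' (ball c (r₀ + 2 * ρ₀)) with hU'
  have hU'o : IsOpen U' := hU.inter (isOpen_ball.preimage pr1.continuous)
  have hT' : IsCurrent U' T := hT.mono inter_subset_left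
  have hcl' : ∀ η : Form C2 1, IsTest U' η → T (extDeriv η) = 0 :=
    fun η hη => hcl η (hη.mono inter_subset_left)
  have hspt' : ∀ p ∈ spt T, p ∈ U' → pr2 p = g (pr1 p) := by
    intro p hp hpU
    rw [hgf _ (ball_subset_closedBall hpU.2)]
    exact hspt p hp hpU.1 (ball_subset_ball (by linarith) hpU.2)
  have hpg : ∀ p ∈ spt T, p ∈ U' → p = mk (pr1 p) (g (pr1 p)) := by
    intro p hp hpU
    rw [← hspt' p hp hpU, mk_pr]
  have hgrc : Continuous (fun z : ℂ => mk z (g z)) := (contDiff_graph hgs).continuous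
  set K : Set ℂ := closedBall c (r₀ + ρ₀) with hK
  have hKG : IsCompact ((fun z : ℂ => mk z (g z)) '' K) := (isCompact_closedBall _ _).image hgrc
  have hKGU : (fun z : ℂ => mk z (g z)) '' K ⊆ U' := by
    rintro _ ⟨z, hz, rfl⟩
    have hz2 : z ∈ ball c (r₀ + 2 * ρ₀) := closedBall_subset_ball (by linarith) hz
    refine ⟨?_, hz2⟩
    simp only
    rw [hgf z (ball_subset_closedBall hz2)]
    exact hgr z (ball_subset_ball (by linarith) hz2)
  obtain ⟨χ, hχ, hχc, hχs, hχ01, W, hW, hKW, hχ1⟩ := exists_cutoff hKG hU'o hKGU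
  have hKW' : ∀ p ∈ spt T, p ∈ U' → pr1 p ∈ K → p ∈ W := by
    intro p hp hpU hpK
    apply hKW
    exact ⟨pr1 p, hpK, (hpg p hp hpU).symm⟩
  obtain ⟨ρ, hρ, hρρ₀, hρn⟩ : ∃ ρ : ℝ, 0 < ρ ∧ ρ ≤ ρ₀ ∧
      ∀ z, dist z z₁ < ρ → mk z (g z) ∉ spt T := by
    have ho : IsOpen ((fun z : ℂ => mk z (g z)) ⁻¹' (spt T)ᶜ) :=
      (spt_isClosed T).isOpen_compl.preimage hgrc
    have hm : z₁ ∈ (fun z : ℂ => mk z (g z)) ⁻¹' (spt T)ᶜ := by
      simp only [mem_preimage, mem_compl_iff]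
      rw [hgf z₁ (by rw [mem_closedBall]; linarith)]
      exact hn
    obtain ⟨ε, hε, hb⟩ := Metric.isOpen_iff.1 ho z₁ hm
    exact ⟨min ε ρ₀, lt_min hε hρ₀, min_le_right _ _,
      fun z hz => hb (lt_of_lt_of_le hz (min_le_left _ _))⟩
  set W₂ : Set C2 := U' ∩ pr1 ⁻¹' (ball z₂ ρ) with hW₂
  have hW₂o : IsOpen W₂ := hU'o.inter (isOpen_ball.preimage pr1.continuous)
  have hmem : mk z₂ (f z₂) ∈ W₂ :=
    ⟨⟨hgr z₂ h₂, by
      simp only [mem_preimage, pr1_mk, mem_ball]; linarith⟩, by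
      simp only [mem_preimage, pr1_mk, mem_ball, dist_self]; exact hρ⟩
  suffices hall : ∀ α : Form C2 2, IsTest W₂ α → T α = 0 by
    intro hmem2
    obtain ⟨α, hα, hne⟩ := hmem2 W₂ hW₂o hmem
    exact hne (hall α hα)
  intro α hα
  have hαU : IsTest U' α := hα.mono inter_subset_left
  rw [tangential_reduction hU'o hT' hcl' hgs hspt' hαU]
  set a : C2 → ℝ := fun p => α p ![tanP (fderiv ℝ g (pr1 p)) (mk 1 0),
    tanP (fderiv ℝ g (pr1 p)) (mk Complex.I 0)] with ha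
  have has : ContDiff ℝ ∞ a := by
    have : a = fun p => bil2 (α p)
        (tanP (fderiv ℝ g (pr1 p)) (mk 1 0)) (tanP (fderiv ℝ g (pr1 p)) (mk Complex.I 0)) := by
      funext p
      rw [bil2_apply]
    rw [this]
    exact ((contDiff_bil2 hα.1).clm_apply ((contDiff_tanP hgs).clm_apply
      contDiff_const)).clm_apply ((contDiff_tanP hgs).clm_apply contDiff_const)
  set γ : ℂ → ℝ := fun z => a (mk z (g z)) with hγ
  have hγs : ContDiff ℝ ∞ γ := has.comp (contDiff_graph hgs)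
  have hγ0 : ∀ z, γ z ≠ 0 → dist z z₂ < ρ := by
    intro z hz
    have h1 : α (mk z (g z)) ≠ 0 := by
      intro h0
      apply hz
      simp [hγ, ha, h0]
    exact (hα.2.2 (subset_tsupport _ h1)).2
  have hγt : tsupport γ ⊆ closedBall z₂ ρ :=
    closure_minimal (fun z hz => (hγ0 z hz).le) isClosed_closedBall
  have hγc : HasCompactSupport γ :=
    (isCompact_closedBall z₂ ρ).of_isClosed_subset (isClosed_tsupport _) hγt
  have hat : IsTest U' (fun p => a p • OmC) := by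
    have hs : Function.support (fun p => a p • OmC) ⊆ Function.support α := by
      intro p hp h0
      apply hp
      simp [ha, h0]
    exact ⟨has.smul contDiff_const, hα.2.1.mono hs, (closure_mono hs).trans hαU.2.2⟩
  have e1 : T (fun p => a p • OmC) = T (Fm χ γ) := by
    apply hT'.congr_on_spt hU'o hat (Fm_test hχ hχc hχs hγs)
    intro p hp hpU
    have h1 : a p = γ (pr1 p) := by
      rw [hγ]
      simp only
      rw [← hpg p hp hpU]
    simp only [Fm]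
    rw [h1]
    by_cases hpK : pr1 p ∈ K
    · rw [hχ1 p (hKW' p hp hpU hpK), one_mul]
    · have h2 : γ (pr1 p) = 0 := by
        by_contra hne
        have h3 := hγ0 _ hne
        apply hpK
        rw [hK, mem_closedBall]
        have := dist_triangle (pr1 p) z₂ c
        linarith
      rw [h2, mul_zero]
  rw [e1, translate hU'o hT' hcl' hχ hχc hχs hW hχ1 hKW' hγs hγc (z₁ - z₂)]
  · apply hT'.eq_zero_of_vanish hU'o
    · exact Fm_test hχ hχc hχs (hγs.comp (contDiff_id.sub contDiff_const))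
    · intro p hp hpU
      have h2 : γ (pr1 p - (z₁ - z₂)) = 0 := by
        by_contra hne
        have h3 := hγ0 _ hne
        have h4 : dist (pr1 p) z₁ < ρ := by
          rw [dist_eq_norm] at h3 ⊢
          have : pr1 p - (z₁ - z₂) - z₂ = pr1 p - z₁ := by ring
          rwa [this] at h3
        apply hρn _ h4
        rw [← hpg p hp hpU]
        exact hp
      simp [Fm, h2]
  · intro s hs
    apply closure_minimal _ isClosed_closedBall
    intro z hz
    have h3 := hγ0 _ hz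
    rw [mem_closedBall, dist_eq_norm]
    rw [dist_eq_norm] at h3 hr₁ hr₂
    have e : z - c = (z - s • (z₁ - z₂) - z₂) + ((1 - s) • (z₂ - c) + s • (z₁ - c)) := by module
    rw [e]
    refine (norm_add_le _ _).trans ?_
    have h5 : ‖(1 - s) • (z₂ - c) + s • (z₁ - c)‖ ≤ r₀ := by
      refine (norm_add_le _ _).trans ?_
      rw [norm_smul, norm_smul, Real.norm_eq_abs, Real.norm_eq_abs, abs_of_nonneg hs.1,
        abs_of_nonneg (by linarith [hs.2])]
      nlinarith [hs.1, hs.2]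
    linarith

/-- Constancy theorem over a connected domain: a closed current of finite mass supported in the
graph of a smooth function either charges all of the graph or nothing. -/
theorem constancy_connected {U : Set C2} (hU : IsOpen U) {T : Form C2 2 → ℝ}
    (hT : IsCurrent U T) (hcl : ∀ η : Form C2 1, IsTest U η → T (extDeriv η) = 0)
    {D : Set ℂ} (hD : IsOpen D) (hDc : IsPreconnected D) {f : ℂ → ℂ} (hf : ContDiffOn ℝ ∞ f D)
    (hgr : ∀ z ∈ D, mk z (f z) ∈ U)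
    (hspt : ∀ p ∈ spt T, p ∈ U → pr1 p ∈ D → pr2 p = f (pr1 p))
    {z₁ z₂ : ℂ} (h₁ : z₁ ∈ D) (h₂ : z₂ ∈ D) (hn : mk z₁ (f z₁) ∉ spt T) :
    mk z₂ (f z₂) ∉ spt T := by
  have hcont : ContinuousOn (fun z => mk z (f z)) D :=
    mkL.continuous.comp_continuousOn (continuousOn_id.prodMk hf.continuousOn)
  have ho : IsOpen (D ∩ (fun z => mk z (f z)) ⁻¹' (spt T)ᶜ) :=
    hcont.isOpen_inter_preimage hD (spt_isClosed T).isOpen_compl
  have hsub : D ⊆ D ∩ (fun z => mk z (f z)) ⁻¹' (spt T)ᶜ := by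
    apply hDc.subset_of_closure_inter_subset ho ⟨z₁, h₁, h₁, hn⟩
    rintro z ⟨hzc, hzD⟩
    obtain ⟨r, hr, hb⟩ := Metric.isOpen_iff.1 hD z hzD
    obtain ⟨z', hz', hzz'⟩ := Metric.mem_closure_iff.1 hzc r hr
    refine ⟨hzD, ?_⟩
    exact constancy_ball hU hT hcl (hf.mono hb) (fun w hw => hgr w (hb hw))
      (fun p hp hpU hpb => hspt p hp hpU (hb hpb)) (z₁ := z')
      (by rw [mem_ball, dist_comm]; exact hzz') (mem_ball_self hr) hz'.2
  exact (hsub h₂).2

end BdrySing
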