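import Pool.Agent.BdrySing.Minimal
import Pool.Agent.BdrySing.Propagate

open Set MeasureTheory Metric Module Filter Topology
open scoped ContDiff RealInnerProductSpace Manifold ENNReal

noncomputable section

namespace BdrySing

/-- The function-theoretic data from which the example is built. -/
structure Data where
  build ::
  E : Set ℂ
  N : Set ℂ
  h : ℂ → ℂ
  h' : ℂ → ℂ
  B : ℂ → ℂ
  B' : ℂ → ℂ
  g : ℂ → ℂ
  g' : ℂ → ℂ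
  E_sub : ∀ z ∈ E, ‖z‖ = 1
  N_sub : ∀ z ∈ N, ‖z‖ = 1
  hB : ∀ z : ℂ, ‖z‖ ≤ 1 → HasDerivWithinAt B (B' z) {w | ‖w‖ ≤ 1} z
  hBc : ContinuousOn B' {w | ‖w‖ ≤ 1}
  hh : ∀ z : ℂ, ‖z‖ ≤ 1 → HasDerivWithinAt h (h' z) {w | ‖w‖ ≤ 1} z
  hhc : ContinuousOn h' {w | ‖w‖ ≤ 1}
  hg : ∀ z : ℂ, 1 ≤ ‖z‖ → HasDerivWithinAt g (g' z) {w | 1 ≤ ‖w‖} z
  hgc : ContinuousOn g' {w | 1 ≤ ‖w‖}
  h_zero : ∀ z : ℂ, ‖z‖ ≤ 1 → (h z = 0 ↔ z ∈ E)
  h'_zero : ∀ z ∈ E, h' z = 0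
  h_diff : ∀ z : ℂ, ‖z‖ = 1 → z ∉ E → ∃ ρ > 0, DifferentiableOn ℂ h (ball z ρ)
  rel_N : ∀ z ∈ N, B z - g z = h z ∧ B' z - g' z = h' z
  rel_M : ∀ z : ℂ, ‖z‖ = 1 → z ∉ N → B z = g z ∧ B' z = g' z
  N_E : ∀ z ∈ N, z ∉ E
  N_open : ∀ z ∈ N, ∃ ρ > 0, ∀ w : ℂ, ‖w‖ = 1 → dist w z < ρ → w ∈ N
  M_open : ∀ z : ℂ, ‖z‖ = 1 → z ∉ N → z ∉ E → ∃ ρ > 0, ∀ w : ℂ, ‖w‖ = 1 → dist w z < ρ → w ∉ N
  acc_N : ∀ z ∈ E, ∀ ε > 0, ∃ w ∈ N, dist w z < ε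
  acc_M : ∀ z ∈ E, ∀ ε > 0, ∃ w : ℂ, ‖w‖ = 1 ∧ w ∉ N ∧ w ∉ E ∧ dist w z < ε
  φ : ℂ → ℂ
  φ_N : ∀ z ∈ N, φ z = B z
  φ_M : ∀ z : ℂ, ‖z‖ = 1 → z ∉ N → φ z = B z - h z
  φ_smooth : ContDiff ℝ ∞ (fun t : ℝ => φ (ee t))
  dim : (1 / 4 : ℝ≥0∞) ≤ dimH E

/-- two holomorphic functions which agree to first order on an arc of the unit circle -/
lemma glue {u u' v v' : ℂ → ℂ} {z : ℂ} {ρ : ℝ}
    (hu : ∀ w ∈ ball z ρ, ‖w‖ ≤ 1 → HasDerivWithinAt u (u' w) {w | ‖w‖ ≤ 1} w)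
    (hv : ∀ w ∈ ball z ρ, 1 ≤ ‖w‖ → HasDerivWithinAt v (v' w) {w | 1 ≤ ‖w‖} w)
    (h0 : ∀ w ∈ ball z ρ, ‖w‖ = 1 → u w = v w ∧ u' w = v' w) :
    DifferentiableOn ℂ (fun w => if ‖w‖ ≤ 1 then u w else v w) (ball z ρ) := by
  intro w hw
  apply DifferentiableAt.differentiableWithinAt
  rcases lt_trichotomy ‖w‖ 1 with h | h | h
  · have h1 : {w : ℂ | ‖w‖ ≤ 1} ∈ 𝓝 w := by
      have ho : IsOpen {w : ℂ | ‖w‖ < 1} := isOpen_lt continuous_norm continuous_const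
      exact mem_of_superset (ho.mem_nhds h) (fun y (hy : ‖y‖ < 1) => hy.le)
    have h2 := (hu w hw h.le).hasDerivAt h1
    refine (h2.congr_of_eventuallyEq ?_).differentiableAt
    filter_upwards [h1] with y hy
    exact if_pos hy
  · obtain ⟨h3, h4⟩ := h0 w hw h
    have h1 : HasDerivWithinAt (fun w => if ‖w‖ ≤ 1 then u w else v w) (u' w) {w | ‖w‖ ≤ 1} w := by
      refine (hu w hw h.le).congr (fun y hy => if_pos hy) (if_pos h.le)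
    have h2 : HasDerivWithinAt (fun w => if ‖w‖ ≤ 1 then u w else v w) (u' w) {w | 1 ≤ ‖w‖} w := by
      rw [h4]
      refine (hv w hw h.ge).congr_of_eventuallyEq ?_ ?_
      · filter_upwards [mem_nhdsWithin_of_mem_nhds (isOpen_ball.mem_nhds hw),
          self_mem_nhdsWithin] with y hyb hy
        by_cases hy1 : ‖y‖ ≤ 1
        · simp only [hy1, if_true]
          exact (h0 y hyb (le_antisymm hy1 hy)).1
        · simp only [hy1, if_false]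
      · simp only [h.le, if_true]
        exact h3
    have h5 := h1.union h2
    have h6 : {w : ℂ | ‖w‖ ≤ 1} ∪ {w | 1 ≤ ‖w‖} = univ := by
      ext y
      simp only [mem_union, mem_ofPred_eq, mem_univ, iff_true]
      exact le_total _ _
    rw [h6] at h5
    exact h5.hasDerivAt univ_mem |>.differentiableAt
  · have h1 : {w : ℂ | 1 < ‖w‖} ∈ 𝓝 w :=
      (isOpen_lt continuous_const continuous_norm).mem_nhds h
    have h1' : {w : ℂ | 1 ≤ ‖w‖} ∈ 𝓝 w := mem_of_superset h1 (fun y (hy : 1 < ‖y‖) => hy.le)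
    have h2 := (hv w hw h.le).hasDerivAt h1'
    refine (h2.congr_of_eventuallyEq ?_).differentiableAt
    filter_upwards [h1] with y hy
    exact if_neg (not_le.2 hy)

end BdrySing
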