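import Mathlib

/-!
# Two-dimensional area-minimizing currents with smooth boundary: definitions

`V` is a finite-dimensional real inner product space (in the main theorem `V = ℂ × ℂ` with the
Euclidean norm, that is `ℝ⁴`).  The ambient manifold is `V` itself.
-/

open Set MeasureTheory Metric Module
open scoped ENNReal ContDiff RealInnerProductSpace

noncomputable section

namespace BdrySing

/-- Differential forms of degree `k` on `V` (no regularity is built in). -/
abbrev Form (V : Type) [NormedAddCommGroup V] [InnerProductSpace ℝ V] (k : ℕ) : Type :=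
  V → V [⋀^Fin k]→L[ℝ] ℝ

variable {V : Type} [NormedAddCommGroup V] [InnerProductSpace ℝ V]

/-- `α` is a test form in the open set `U`: smooth, with compact support contained in `U`. -/
def IsTest {k : ℕ} (U : Set V) (α : Form V k) : Prop :=
  ContDiff ℝ ∞ α ∧ HasCompactSupport α ∧ tsupport α ⊆ U

/-- The comass of the form `α` is at most `c` at every point: `|α_x(v₁, …, v_k)| ≤ c` for
orthonormal `v₁, …, v_k`. -/
def ComassLE {k : ℕ} (α : Form V k) (c : ℝ) : Prop :=
  ∀ (x : V) (v : Fin k → V), Orthonormal ℝ v → |α x v| ≤ c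

/-- Area of the parallelogram spanned by `a` and `b`. -/
def area (a b : V) : ℝ := Real.sqrt (‖a‖ ^ 2 * ‖b‖ ^ 2 - ⟪a, b⟫ ^ 2)

/-- The derivative of a map `f : ℝ² → V` along the first coordinate axis. -/
def dOne (f : ℝ × ℝ → V) (p : ℝ × ℝ) : V := fderiv ℝ f p (1, 0)

/-- The derivative of a map `f : ℝ² → V` along the second coordinate axis. -/
def dTwo (f : ℝ × ℝ → V) (p : ℝ × ℝ) : V := fderiv ℝ f p (0, 1)

/-- `T` is a two-dimensional integer rectifiable current of finite mass in `V`: a countable sum of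
images `(f_i)_# [[K_i]]`, with `f_i` of class `C¹` on an open set `O_i ⊆ ℝ²`, `K_i ⊆ O_i`
measurable, and finite total area. -/
def IsIntRect (T : Form V 2 → ℝ) : Prop :=
  ∃ (f : ℕ → ℝ × ℝ → V) (O K : ℕ → Set (ℝ × ℝ)),
    (∀ i, IsOpen (O i)) ∧ (∀ i, MeasurableSet (K i)) ∧ (∀ i, K i ⊆ O i) ∧
    (∀ i, ContDiffOn ℝ 1 (f i) (O i)) ∧
    (∑' i, ∫⁻ p in K i, ENNReal.ofReal (area (dOne (f i) p) (dTwo (f i) p))) < ⊤ ∧
    ∀ α : Form V 2, IsTest univ α →
      T α = ∑' i, ∫ p in K i, α (f i p) ![dOne (f i) p, dTwo (f i) p]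

/-- The mass of a two-dimensional current. -/
def mass (T : Form V 2 → ℝ) : ℝ≥0∞ :=
  ⨆ (α : Form V 2) (_ : IsTest univ α ∧ ComassLE α 1), ENNReal.ofReal (T α)

/-- `γ` is a finite family of smooth closed curves, parametrised over `[0, 2π]`, which are immersed,
embedded and pairwise disjoint.  Their union is a smooth closed oriented one-dimensional
submanifold of `V`. -/
structure IsClosedCurves {n : ℕ} (γ : Fin n → ℝ → V) : Prop where
  smooth : ∀ j, ContDiff ℝ ∞ (γ j)
  periodic : ∀ j t, γ j (t + 2 * Real.pi) = γ j t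
  immersed : ∀ j t, deriv (γ j) t ≠ 0
  embedded : ∀ i j s t, γ i s = γ j t → i = j ∧ ∃ k : ℤ, t = s + k * (2 * Real.pi)

/-- `∂T = [[Γ]]`, where `Γ` is the union of the closed curves `γ_j`. -/
def HasBoundary {n : ℕ} (T : Form V 2 → ℝ) (γ : Fin n → ℝ → V) : Prop :=
  ∀ η : Form V 1, IsTest univ η →
    T (extDeriv η) = ∑ j, ∫ t in (0 : ℝ)..(2 * Real.pi), η (γ j t) ![deriv (γ j) t]

/-- `T` is an integer rectifiable current with boundary `[[Γ]]` which minimizes mass among all
integer rectifiable currents with the same boundary. -/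
def IsMinimizing {n : ℕ} (T : Form V 2 → ℝ) (γ : Fin n → ℝ → V) : Prop :=
  IsIntRect T ∧ HasBoundary T γ ∧
    ∀ S : Form V 2 → ℝ, IsIntRect S → HasBoundary S γ → mass T ≤ mass S

/-- The support of a current. -/
def spt (T : Form V 2 → ℝ) : Set V :=
  {x | ∀ W : Set V, IsOpen W → x ∈ W → ∃ α : Form V 2, IsTest W α ∧ T α ≠ 0}

/-- `Ξ` is a smooth embedded two-dimensional submanifold of the open set `U`, without boundary
in `U`: locally the zero set of a smooth submersion to a Euclidean space of dimension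
`dim V - 2`. -/
def IsSurface (U Ξ : Set V) : Prop :=
  Ξ ⊆ U ∧ ∀ p ∈ Ξ, ∃ W : Set V, IsOpen W ∧ p ∈ W ∧ W ⊆ U ∧
    ∃ F : V → EuclideanSpace ℝ (Fin (finrank ℝ V - 2)),
      ContDiffOn ℝ ∞ F W ∧ (∀ q ∈ W, Function.Surjective (fderiv ℝ F q)) ∧
      Ξ ∩ W = {q ∈ W | F q = 0}

/-- `x` is a boundary regular point of `T`: near `x` the support of `T` is contained in a smooth
embedded surface without boundary. -/
def RegB (T : Form V 2 → ℝ) (x : V) : Prop :=
  ∃ U Ξ : Set V, IsOpen U ∧ x ∈ U ∧ IsSurface U Ξ ∧ spt T ∩ U ⊆ Ξ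

/-- `T` is a two-dimensional current of finite mass in the open set `U`: a linear functional on
the test forms in `U`, bounded with respect to the comass. -/
structure IsCurrent (U : Set V) (T : Form V 2 → ℝ) : Prop where
  add : ∀ α η : Form V 2, IsTest U α → IsTest U η → T (α + η) = T α + T η
  smul : ∀ (c : ℝ) (α : Form V 2), IsTest U α → T (c • α) = c * T α
  bound : ∃ M : ℝ, ∀ (α : Form V 2) (c : ℝ), IsTest U α → ComassLE α c → |T α| ≤ M * c

/-- `x` is of crossing type for `T`: in a neighbourhood `U` of `x`, `T = T₁ + T₂` with `∂T₁ = 0`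
and `x` boundary regular for `T₂`. The decomposition must be one without cancellation; this is
required only in the weak form that the support of `T₁` in `U` is contained in the support of `T`
(which follows from `‖T‖ = ‖T₁‖ + ‖T₂‖`). Without any such requirement every point of `Γ` would be
of crossing type: take for `T₂` a smooth half-surface bounded by `Γ` near `x` and `T₁ = T - T₂`. -/
def Crossing (T : Form V 2 → ℝ) (x : V) : Prop :=
  ∃ (U : Set V) (T₁ T₂ : Form V 2 → ℝ), IsOpen U ∧ x ∈ U ∧ IsCurrent U T₁ ∧ IsCurrent U T₂ ∧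
    (∀ α : Form V 2, IsTest U α → T α = T₁ α + T₂ α) ∧
    (∀ η : Form V 1, IsTest U η → T₁ (extDeriv η) = 0) ∧
    RegB T₂ x ∧ spt T₁ ∩ U ⊆ spt T

/-- The genuine boundary singularities of `T`: points of `Γ` which are neither boundary regular
nor of crossing type. -/
def genuine {n : ℕ} (T : Form V 2 → ℝ) (γ : Fin n → ℝ → V) : Set V :=
  {x | (∃ j, x ∈ range (γ j)) ∧ ¬ RegB T x ∧ ¬ Crossing T x}

/-- `ℂ²` with its Euclidean norm, a model of `ℝ⁴`. -/
abbrev C2 : Type := WithLp 2 (ℂ × ℂ)

end BdrySing
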