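import Pool.Agent.BdrySing.Defs

open Set MeasureTheory Metric Module
open scoped ENNReal ContDiff RealInnerProductSpace

noncomputable section

namespace BdrySing

variable {V : Type} [NormedAddCommGroup V] [InnerProductSpace ℝ V]

/-- covectors as forms of degree one -/
def lin1 : (V →L[ℝ] ℝ) →L[ℝ] (V [⋀^Fin 1]→L[ℝ] ℝ) :=
  ((ContinuousAlternatingMap.ofSubsingletonLIE (𝕜 := ℝ) (E := V) (F := ℝ)
    (0 : Fin 1)).toContinuousLinearEquiv : (V →L[ℝ] ℝ) →L[ℝ] (V [⋀^Fin 1]→L[ℝ] ℝ))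

lemma lin1_apply (a : V →L[ℝ] ℝ) (v : Fin 1 → V) : lin1 a v = a (v 0) := by
  simp [lin1]

/-- forms of degree one as covectors -/
def unlin1 : (V [⋀^Fin 1]→L[ℝ] ℝ) →L[ℝ] (V →L[ℝ] ℝ) :=
  ((ContinuousAlternatingMap.ofSubsingletonLIE (𝕜 := ℝ) (E := V) (F := ℝ)
    (0 : Fin 1)).symm.toContinuousLinearEquiv : (V [⋀^Fin 1]→L[ℝ] ℝ) →L[ℝ] (V →L[ℝ] ℝ))

lemma lin1_unlin1 (a : V [⋀^Fin 1]→L[ℝ] ℝ) : lin1 (unlin1 a) = a := by
  simp [lin1, unlin1]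

lemma unlin1_apply (a : V [⋀^Fin 1]→L[ℝ] ℝ) (v : V) : unlin1 a v = a ![v] := by
  conv_rhs => rw [← lin1_unlin1 a, lin1_apply]
  simp

/-- alternation of a bilinear form -/
def alt2 : (V →L[ℝ] V →L[ℝ] ℝ) →L[ℝ] (V [⋀^Fin 2]→L[ℝ] ℝ) :=
  (ContinuousAlternatingMap.alternatizeUncurryFinCLM ℝ V ℝ (n := 1)).comp
    (ContinuousLinearMap.postcomp V lin1)

lemma alt2_apply (L : V →L[ℝ] V →L[ℝ] ℝ) (v : Fin 2 → V) :
    alt2 L v = L (v 0) (v 1) - L (v 1) (v 0) := by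
  simp only [alt2, ContinuousLinearMap.comp_apply,
    ContinuousAlternatingMap.alternatizeUncurryFinCLM_apply,
    ContinuousAlternatingMap.alternatizeUncurryFin_apply]
  simp [lin1_apply, Fin.removeNth, sub_eq_add_neg]

/-- a form of degree two as a bilinear form -/
def bil2 : (V [⋀^Fin 2]→L[ℝ] ℝ) →L[ℝ] (V →L[ℝ] V →L[ℝ] ℝ) :=
  (ContinuousLinearMap.postcomp V unlin1).comp
    (ContinuousAlternatingMap.curryLeftLI (𝕜 := ℝ) (E := V) (F := ℝ) (n := 1)).toContinuousLinearMap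

lemma bil2_apply (a : V [⋀^Fin 2]→L[ℝ] ℝ) (x y : V) : bil2 a x y = a ![x, y] := by
  simp only [bil2, ContinuousLinearMap.comp_apply]
  simp [unlin1_apply]

lemma bil2_antisymm (a : V [⋀^Fin 2]→L[ℝ] ℝ) (x y : V) : bil2 a x y = - bil2 a y x := by
  rw [bil2_apply, bil2_apply]
  have h := a.toAlternatingMap.map_swap ![y, x] (i := 0) (j := 1) (by decide)
  have h2 : (![y, x] ∘ ⇑(Equiv.swap (0 : Fin 2) 1)) = ![x, y] := by
    ext i
    fin_cases i <;> rfl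
  rw [h2] at h
  exact h

lemma form2_ext {a b : V [⋀^Fin 2]→L[ℝ] ℝ} (h : ∀ x y, a ![x, y] = b ![x, y]) : a = b := by
  ext v
  have : v = ![v 0, v 1] := by ext i; fin_cases i <;> rfl
  rw [this]
  exact h _ _

lemma extDeriv_lin1 {a : V → (V →L[ℝ] ℝ)} {p : V} (ha : DifferentiableAt ℝ a p) :
    extDeriv (fun x => lin1 (a x)) p = alt2 (fderiv ℝ a p) := by
  have h1 : fderiv ℝ (fun x => lin1 (a x)) p = lin1.comp (fderiv ℝ a p) := by
    exact ((lin1 (V := V)).hasFDerivAt.comp p ha.hasFDerivAt).fderiv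
  rw [extDeriv, h1]
  rfl

lemma continuous_bil2 :
    Continuous (fun y : V [⋀^Fin 2]→L[ℝ] ℝ => (bil2 y : V →L[ℝ] V →L[ℝ] ℝ)) := by
  fun_prop

lemma contDiff_unlin1 {n : WithTop ℕ∞} :
    ContDiff ℝ n (fun y : V [⋀^Fin 1]→L[ℝ] ℝ => (unlin1 y : V →L[ℝ] ℝ)) := by
  fun_prop

lemma contDiff_lin1 {n : WithTop ℕ∞} {a : V → (V →L[ℝ] ℝ)} (h : ContDiff ℝ n a) :
    ContDiff ℝ n (fun x => lin1 (a x)) := (lin1 (V := V)).contDiff.comp h

lemma contDiff_alt2 {n : WithTop ℕ∞} {a : V → (V →L[ℝ] V →L[ℝ] ℝ)} (h : ContDiff ℝ n a) :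
    ContDiff ℝ n (fun x => alt2 (a x)) := by
  have h2 : ContDiff ℝ n (fun y : V →L[ℝ] V →L[ℝ] ℝ => (alt2 y : V [⋀^Fin 2]→L[ℝ] ℝ)) := by
    fun_prop
  exact h2.comp h

lemma contDiff_bil2 {n : WithTop ℕ∞} {a : V → (V [⋀^Fin 2]→L[ℝ] ℝ)} (h : ContDiff ℝ n a) :
    ContDiff ℝ n (fun x => bil2 (a x)) := by
  have h2 : ContDiff ℝ n (fun y : V [⋀^Fin 2]→L[ℝ] ℝ => (bil2 y : V →L[ℝ] V →L[ℝ] ℝ)) := by
    fun_prop
  exact h2.comp h

lemma contDiff_extDeriv_lin1 {a : V → (V →L[ℝ] ℝ)} (h : ContDiff ℝ ∞ a) :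
    ContDiff ℝ ∞ (extDeriv (fun x => lin1 (a x))) := by
  have : extDeriv (fun x => lin1 (a x)) = fun x => alt2 (fderiv ℝ a x) := by
    funext x
    exact extDeriv_lin1 (h.contDiffAt.differentiableAt (by simp))
  rw [this]
  exact contDiff_alt2 (h.fderiv_right (m := ∞) (by simp))

lemma tsupport_extDeriv_subset (η : Form V 1) : tsupport (extDeriv η) ⊆ tsupport η := by
  have : extDeriv η = fun p =>
      ContinuousAlternatingMap.alternatizeUncurryFinCLM ℝ V ℝ (fderiv ℝ η p) := rfl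
  rw [this]
  refine (closure_mono ?_).trans (tsupport_fderiv_subset ℝ (f := η))
  intro p hp h0
  apply hp
  simp only [h0, map_zero]

end BdrySing
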