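import Pool.Agent.BdrySing.HCircle

open Set Metric Filter Topology MeasureTheory
open scoped ENNReal ContDiff

noncomputable section

namespace BdrySing

/-- Fourier coefficients of a `2π`-periodic function -/
def fc (f : ℝ → ℂ) (n : ℤ) : ℂ :=
  (1 / (2 * Real.pi) : ℝ) • ∫ t in (0 : ℝ)..(2 * Real.pi), f t * ee (-(n * t))

lemma ee_add (s t : ℝ) : ee (s + t) = ee s * ee t := by
  rw [ee, ee, ee, ← Complex.exp_add]
  congr 1
  push_cast
  ring

lemma ee_zero : ee 0 = 1 := by simp [ee]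

lemma ee_neg (t : ℝ) : ee (-t) = (ee t)⁻¹ := by
  have h := ee_add t (-t)
  rw [add_neg_cancel, ee_zero] at h
  exact eq_inv_of_mul_eq_one_right h.symm

lemma ee_nat_mul (n : ℕ) (t : ℝ) : ee (n * t) = ee t ^ n := by
  rw [ee, ee, ← Complex.exp_nat_mul]
  congr 1
  push_cast
  ring

lemma ee_int_period (n : ℤ) : ee (-(n * (2 * Real.pi))) = 1 := by
  rw [ee]
  have : ((-(n * (2 * Real.pi)) : ℝ) : ℂ) * Complex.I = ((-n : ℤ) : ℂ) * (2 * Real.pi * Complex.I) := by
    push_cast; ring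
  rw [this, Complex.exp_int_mul_two_pi_mul_I]

theorem fourier_hasSum {f : ℝ → ℂ} (hf : Continuous f) (hp : ∀ t, f (t + 2 * Real.pi) = f t)
    (hs : Summable (fc f)) (t : ℝ) : HasSum (fun n : ℤ => fc f n * ee (n * t)) (f t) := by
  have : Fact (0 < 2 * Real.pi) := ⟨by positivity⟩
  have hper : Function.Periodic f (2 * Real.pi) := hp
  set F : C(AddCircle (2 * Real.pi), ℂ) := ⟨hper.lift, continuous_coinduced_dom.mpr hf⟩ with hF
  have hFc : ∀ s : ℝ, F (s : AddCircle (2 * Real.pi)) = f s := fun s => hper.lift_coe s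
  have hcoe : ∀ (n : ℤ) (s : ℝ), fourier n (s : AddCircle (2 * Real.pi)) = ee (n * s) := by
    intro n s
    rw [fourier_coe_apply, ee]
    congr 1
    have hpi : (Real.pi : ℂ) ≠ 0 := by exact_mod_cast Real.pi_ne_zero
    push_cast
    field_simp
  have hcoef : ∀ n, fourierCoeff F n = fc f n := by
    intro n
    rw [fourierCoeff_eq_intervalIntegral F n 0, zero_add, fc]
    congr 1
    apply intervalIntegral.integral_congr
    intro s _
    simp only
    rw [hFc, hcoe, smul_eq_mul, mul_comm]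
    congr 2
    push_cast
    ring
  have hs' : Summable (fourierCoeff F) := by
    have : fourierCoeff F = fc f := funext hcoef
    rw [this]; exact hs
  have h := has_pointwise_sum_fourier_series_of_summable hs' (t : AddCircle (2 * Real.pi))
  rw [hFc] at h
  have e : (fun n : ℤ => fc f n * ee (n * t)) =
      fun i => fourierCoeff (F : AddCircle (2 * Real.pi) → ℂ) i • (fourier i) (t : AddCircle (2 * Real.pi)) := by
    funext n
    rw [hcoef, hcoe, smul_eq_mul]
  rw [e]
  exact h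

/-- integration by parts -/
lemma fc_deriv {f f' : ℝ → ℂ} (hf : ∀ t, HasDerivAt f (f' t) t) (hf' : Continuous f')
    (hp : ∀ t, f (t + 2 * Real.pi) = f t) (n : ℤ) : fc f' n = (n * Complex.I) * fc f n := by
  have hfc : Continuous f := continuous_iff_continuousAt.2 (fun t => (hf t).continuousAt)
  have he : Continuous (fun t : ℝ => ee (-(n * t))) :=
    continuous_ee.comp (continuous_const.mul continuous_id).neg
  have hde : ∀ t : ℝ, HasDerivAt (fun t : ℝ => ee (-(n * t))) (-(n * Complex.I) * ee (-(n * t))) t := by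
    intro t
    have h1 : HasDerivAt (fun t : ℝ => -(n * t)) (-(n : ℝ)) t := by
      have h0 : HasDerivAt (fun t : ℝ => (n : ℝ) * t) (n : ℝ) t := by
        simpa using (hasDerivAt_id t).const_mul (n : ℝ)
      exact h0.fun_neg
    have h2 := (hasDerivAt_ee (-(n * t))).scomp t h1
    refine h2.congr_deriv ?_
    simp only [Complex.real_smul]
    push_cast
    ring
  have hd : ∀ t : ℝ, HasDerivAt (fun t => f t * ee (-(n * t)))
      (f' t * ee (-(n * t)) + f t * (-(n * Complex.I) * ee (-(n * t)))) t := fun t =>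
    (hf t).mul (hde t)
  have hc1 : Continuous (fun t => f' t * ee (-(n * t))) := hf'.mul he
  have hc2 : Continuous (fun t => f t * (-(n * Complex.I) * ee (-(n * t)))) :=
    hfc.mul (continuous_const.mul he)
  have h3 := intervalIntegral.integral_eq_sub_of_hasDerivAt (a := 0) (b := 2 * Real.pi)
    (fun t _ => hd t) ((hc1.add hc2).intervalIntegrable _ _)
  have h4 : f (2 * Real.pi) = f 0 := by
    have := hp 0
    rwa [zero_add] at this
  have h5 : ee (-(n * (2 * Real.pi))) = 1 := ee_int_period n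
  have h6 : ee (-(n * (0 : ℝ))) = 1 := by rw [mul_zero, neg_zero, ee_zero]
  rw [h4, h5, h6, sub_self, intervalIntegral.integral_add (hc1.intervalIntegrable _ _)
    (hc2.intervalIntegrable _ _)] at h3
  have h7 : ∫ t in (0 : ℝ)..(2 * Real.pi), f t * (-(n * Complex.I) * ee (-(n * t))) =
      -(n * Complex.I) * ∫ t in (0 : ℝ)..(2 * Real.pi), f t * ee (-(n * t)) := by
    rw [← intervalIntegral.integral_const_mul]
    apply intervalIntegral.integral_congr
    intro t _
    simp only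
    ring
  rw [h7] at h3
  have h8 : ∫ t in (0 : ℝ)..(2 * Real.pi), f' t * ee (-(n * t)) =
      (n * Complex.I) * ∫ t in (0 : ℝ)..(2 * Real.pi), f t * ee (-(n * t)) := by
    linear_combination h3
  rw [fc, fc, h8]
  simp only [Complex.real_smul]
  ring

lemma fc_bound {f : ℝ → ℂ} {C : ℝ} (hC : ∀ t, ‖f t‖ ≤ C) (n : ℤ) : ‖fc f n‖ ≤ C := by
  have hpi := Real.pi_pos
  rw [fc, norm_smul, Real.norm_eq_abs, abs_of_pos (by positivity)]
  have h1 : ‖∫ t in (0 : ℝ)..(2 * Real.pi), f t * ee (-(n * t))‖ ≤ C * |2 * Real.pi - 0| := by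
    apply intervalIntegral.norm_integral_le_of_norm_le_const
    intro t _
    rw [norm_mul, norm_ee, mul_one]
    exact hC t
  rw [sub_zero, abs_of_pos (by positivity)] at h1
  calc 1 / (2 * Real.pi) * ‖∫ t in (0 : ℝ)..(2 * Real.pi), f t * ee (-(n * t))‖
      ≤ 1 / (2 * Real.pi) * (C * (2 * Real.pi)) :=
        mul_le_mul_of_nonneg_left h1 (by positivity)
    _ = C := by field_simp

/-- rapid decay of the Fourier coefficients -/
lemma fc_decay {ψ : ℕ → ℝ → ℂ} (h : ∀ j t, HasDerivAt (ψ j) (ψ (j + 1) t) t)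
    (hp : ∀ j t, ψ j (t + 2 * Real.pi) = ψ j t) (hb : ∀ j, ∃ C : ℝ, ∀ t, ‖ψ j t‖ ≤ C) (k : ℕ) :
    ∃ C : ℝ, ∀ n : ℤ, |(n : ℝ)| ^ k * ‖fc (ψ 0) n‖ ≤ C := by
  have hk : ∀ n : ℤ, fc (ψ k) n = (n * Complex.I) ^ k * fc (ψ 0) n := by
    intro n
    induction k with
    | zero => simp
    | succ k ih =>
      have hc : Continuous (ψ (k + 1)) :=
        continuous_iff_continuousAt.2 (fun t => (h (k + 1) t).continuousAt)
      rw [fc_deriv (h k) hc (hp k) n, ih, pow_succ]
      ring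
  obtain ⟨C, hC⟩ := hb k
  refine ⟨C, fun n => ?_⟩
  have h1 := fc_bound hC n
  rw [hk n, norm_mul, norm_pow, norm_mul, Complex.norm_I, mul_one] at h1
  have h2 : ‖(n : ℂ)‖ = |(n : ℝ)| := by
    rw [Complex.norm_intCast]
  rwa [h2] at h1

/-- rapidly decreasing sequences -/
def RD (b : ℕ → ℂ) : Prop := ∀ k : ℕ, Summable (fun n : ℕ => ((n : ℝ) + 1) ^ k * ‖b n‖)

lemma rd_of_bound {b : ℕ → ℂ} (h : ∀ k : ℕ, ∃ C : ℝ, ∀ n : ℕ, ((n : ℝ) + 1) ^ k * ‖b n‖ ≤ C) : RD b := by
  intro k
  obtain ⟨C, hC⟩ := h (k + 2)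
  have hs : Summable (fun n : ℕ => C * (1 / ((n : ℝ) + 1) ^ 2)) := by
    apply Summable.mul_left
    have h1 : Summable (fun n : ℕ => 1 / (n : ℝ) ^ 2) := Real.summable_one_div_nat_pow.2 (by norm_num)
    have h2 := (summable_nat_add_iff 1).2 h1
    refine h2.congr (fun m => ?_)
    simp
  refine Summable.of_nonneg_of_le (fun n => by positivity) (fun n => ?_) hs
  have h3 := hC n
  rw [pow_add] at h3
  have hpos : (0 : ℝ) < ((n : ℝ) + 1) ^ 2 := by positivity
  rw [mul_one_div, le_div_iff₀ hpos]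
  calc ((n : ℝ) + 1) ^ k * ‖b n‖ * ((n : ℝ) + 1) ^ 2 =
      ((n : ℝ) + 1) ^ k * ((n : ℝ) + 1) ^ 2 * ‖b n‖ := by ring
    _ ≤ C := h3

end BdrySing
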