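import Pool.Agent.BdrySing.HFun

open Set Metric Filter Topology
open scoped ENNReal ContDiff

noncomputable section

namespace BdrySing

open Cantor

lemma contDiff_of_seq {ψ : ℕ → ℝ → ℂ} (h : ∀ j t, HasDerivAt (ψ j) (ψ (j + 1) t) t) (j : ℕ) :
    ContDiff ℝ ∞ (ψ j) := by
  have key : ∀ n : ℕ, ∀ j, ContDiff ℝ n (ψ j) := by
    intro n
    induction n with
    | zero =>
      intro j
      rw [Nat.cast_zero, contDiff_zero]
      exact continuous_iff_continuousAt.2 (fun t => (h j t).continuousAt)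
    | succ n ih =>
      intro j
      push_cast
      rw [contDiff_succ_iff_deriv]
      refine ⟨fun t => (h j t).differentiableAt, ?_, ?_⟩
      · intro hn
        exact absurd hn (by simp)
      · have : deriv (ψ j) = ψ (j + 1) := by
          funext t
          exact (h j t).deriv
        rw [this]
        exact ih (j + 1)
  exact contDiff_infty.2 (fun n => key n j)

/-- the successive angular derivatives of `h` -/
def Hj : ℕ → ℂ → ℂ
  | 0 => hh
  | j + 1 => fun z => Complex.I * z * deriv (Hj j) z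

lemma flat_Hj (j : ℕ) : Flat (Hj j) := by
  induction j with
  | zero => exact flat_hh
  | succ j ih => exact flat_mul (flat_deriv ih)

open scoped Classical in
/-- the successive derivatives of `1_S h` on the circle -/
def psi (S : Set ℂ) (j : ℕ) (t : ℝ) : ℂ := if ee t ∈ S ∧ ee t ∉ EC then Hj j (ee t) else 0

lemma flat_diffAt {u : ℂ → ℂ} (hu : Flat u) {z : ℂ} (h1 : ‖z‖ ≤ 1) (hE : z ∉ EC) :
    DifferentiableAt ℂ u z := by
  obtain ⟨r, hr0, -, hd, -⟩ := hu
  have hD := dd_pos hE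
  exact (hd z h1 hE).differentiableAt (isOpen_ball.mem_nhds (mem_ball_self (by positivity)))

lemma flat_bound {u : ℂ → ℂ} (hu : Flat u) (K : ℕ) : ∃ C : ℝ, 0 ≤ C ∧ ∀ z : ℂ, ‖z‖ ≤ 1 → z ∉ EC →
    ‖u z‖ ≤ C * dd z ^ K := by
  obtain ⟨r, hr0, -, -, hb⟩ := hu
  obtain ⟨C, hC0, hC⟩ := hb K
  refine ⟨C, hC0, fun z h1 hE => ?_⟩
  have hD := dd_pos hE
  exact hC z h1 hE z (mem_ball_self (by positivity))

/-- sets of the circle whose only boundary points are in the Cantor set -/
def Clopen (S : Set ℂ) : Prop := ∀ z : ℂ, ‖z‖ = 1 → z ∉ EC →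
  ∃ ρ > 0, ∀ w : ℂ, ‖w‖ = 1 → dist w z < ρ → (w ∈ S ↔ z ∈ S)

lemma clopen_NC : Clopen NC := by
  intro z h1 hE
  by_cases hN : z ∈ NC
  · obtain ⟨ρ, hρ, h⟩ := NC_open hN
    exact ⟨ρ, hρ, fun w hw hd => ⟨fun _ => hN, fun _ => h w hw hd⟩⟩
  · obtain ⟨ρ, hρ, h⟩ := MC_open hN hE
    exact ⟨ρ, hρ, fun w hw hd => ⟨fun h2 => absurd h2 (h w hd).1, fun h2 => absurd h2 hN⟩⟩

lemma clopen_compl {S : Set ℂ} (hS : Clopen S) : Clopen Sᶜ := by
  intro z h1 hE
  obtain ⟨ρ, hρ, h⟩ := hS z h1 hE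
  exact ⟨ρ, hρ, fun w hw hd => not_congr (h w hw hd)⟩

lemma hasDerivAt_of_sq {f : ℝ → ℂ} {t C : ℝ} (h : ∀ s, ‖f s - f t‖ ≤ C * |s - t| ^ 2) :
    HasDerivAt f 0 t := by
  rw [hasDerivAt_iff_isLittleO]
  simp only [smul_zero, sub_zero]
  have h1 : (fun s => f s - f t) =O[𝓝 t] fun s => (s - t) ^ 2 := by
    apply Asymptotics.IsBigO.of_bound C
    refine Eventually.of_forall (fun s => ?_)
    rw [norm_pow, Real.norm_eq_abs]
    exact h s
  refine h1.trans_isLittleO ?_
  have h2 : (fun s : ℝ => (s - t) ^ 2) =o[𝓝 t] fun s => (s - t) ^ 1 := by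
    have := Asymptotics.isLittleO_pow_pow (𝕜 := ℝ) (m := 1) (n := 2) (by norm_num)
    have ht : Tendsto (fun s : ℝ => s - t) (𝓝 t) (𝓝 0) := by
      have : Tendsto (fun s : ℝ => s - t) (𝓝 t) (𝓝 (t - t)) :=
        tendsto_id.sub tendsto_const_nhds
      rwa [sub_self] at this
    exact this.comp_tendsto ht
  simpa using h2

lemma psi_hasDerivAt {S : Set ℂ} (hS : Clopen S) (j : ℕ) (t : ℝ) :
    HasDerivAt (psi S j) (psi S (j + 1) t) t := by
  by_cases hE : ee t ∈ EC
  · have h0 : ∀ i, psi S i t = 0 := by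
      intro i
      rw [psi, if_neg]
      rintro ⟨-, h⟩
      exact h hE
    rw [h0]
    obtain ⟨C, hC0, hC⟩ := flat_bound (flat_Hj j) 2
    apply hasDerivAt_of_sq (C := C)
    intro s
    rw [h0, sub_zero, psi]
    split_ifs with h
    · refine (hC _ (norm_ee s).le h.2).trans ?_
      apply mul_le_mul_of_nonneg_left _ hC0
      apply pow_le_pow_left₀ (dd_pos h.2).le
      exact (dd_le hE).trans (by rw [dist_eq_norm]; exact ee_lip s t)
    · rw [norm_zero]; positivity
  · obtain ⟨ρ, hρ, h⟩ := hS (ee t) (norm_ee t) hE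
    have e1 : ∀ᶠ s in 𝓝 t, dist (ee s) (ee t) < ρ :=
      continuous_ee.continuousAt.eventually (ball_mem_nhds _ hρ)
    have e2 : ∀ᶠ s in 𝓝 t, ee s ∉ EC :=
      continuous_ee.continuousAt.eventually (EC_compact.isClosed.isOpen_compl.mem_nhds hE)
    by_cases hSt : ee t ∈ S
    · have e3 : psi S j =ᶠ[𝓝 t] fun s => Hj j (ee s) := by
        filter_upwards [e1, e2] with s h1 h2
        rw [psi, if_pos ⟨(h _ (norm_ee s) h1).2 hSt, h2⟩]
      have h4 := hasDerivAt_comp_ee (s := univ) (t := t)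
        (flat_diffAt (flat_Hj j) (norm_ee t).le hE).hasDerivAt.hasDerivWithinAt
        (fun _ => mem_univ _)
      have h5 : psi S (j + 1) t = deriv (Hj j) (ee t) * (Complex.I * ee t) := by
        rw [psi, if_pos ⟨hSt, hE⟩]
        simp only [Hj]
        ring
      rw [h5]
      exact h4.congr_of_eventuallyEq e3
    · have e3 : psi S j =ᶠ[𝓝 t] fun s => (0 : ℂ) := by
        filter_upwards [e1, e2] with s h1 h2
        rw [psi, if_neg]
        rintro ⟨h3, -⟩
        exact hSt ((h _ (norm_ee s) h1).1 h3)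
      have h5 : psi S (j + 1) t = 0 := by
        rw [psi, if_neg]
        rintro ⟨h3, -⟩
        exact hSt h3
      rw [h5]
      exact (hasDerivAt_const t (0 : ℂ)).congr_of_eventuallyEq e3

lemma psi_smooth {S : Set ℂ} (hS : Clopen S) (j : ℕ) : ContDiff ℝ ∞ (psi S j) :=
  contDiff_of_seq (psi_hasDerivAt hS) j

lemma psi_periodic (S : Set ℂ) (j : ℕ) (t : ℝ) : psi S j (t + 2 * Real.pi) = psi S j t := by
  unfold psi
  rw [ee_periodic]

lemma psi_bound (S : Set ℂ) (j : ℕ) : ∃ C : ℝ, ∀ t, ‖psi S j t‖ ≤ C := by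
  obtain ⟨C, hC0, hC⟩ := flat_bound (flat_Hj j) 0
  refine ⟨C, fun t => ?_⟩
  rw [psi]
  split_ifs with h
  · have := hC _ (norm_ee t).le h.2
    rwa [pow_zero, mul_one] at this
  · rw [norm_zero]; exact hC0

open scoped Classical in
/-- the derivative of `h` on the closed disc -/
def hh' (z : ℂ) : ℂ := if z ∈ EC then 0 else deriv hh z

lemma hh_deriv {z : ℂ} (hz : ‖z‖ ≤ 1) : HasDerivWithinAt hh (hh' z) {w | ‖w‖ ≤ 1} z := by
  by_cases hE : z ∈ EC
  · rw [hh', if_pos hE]
    obtain ⟨C, hC0, hC⟩ := flat_bound flat_hh 2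
    rw [hasDerivWithinAt_iff_isLittleO]
    have h0 : hh z = 0 := if_pos hE
    simp only [smul_zero, sub_zero, h0]
    have h1 : (fun w => hh w) =O[𝓝[{w | ‖w‖ ≤ 1}] z] fun w => (w - z) ^ 2 := by
      apply Asymptotics.IsBigO.of_bound C
      filter_upwards [self_mem_nhdsWithin] with w hw
      rw [norm_pow]
      by_cases hwE : w ∈ EC
      · have : hh w = 0 := if_pos hwE
        rw [this, norm_zero]; positivity
      · refine (hC w hw hwE).trans ?_
        apply mul_le_mul_of_nonneg_left _ hC0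
        apply pow_le_pow_left₀ (dd_pos hwE).le
        rw [← dist_eq_norm]
        exact dd_le hE
    refine h1.trans_isLittleO ?_
    have h2 : (fun w : ℂ => (w - z) ^ 2) =o[𝓝[{w | ‖w‖ ≤ 1}] z] fun w => (w - z) ^ 1 := by
      have := Asymptotics.isLittleO_pow_pow (𝕜 := ℂ) (m := 1) (n := 2) (by norm_num)
      have ht : Tendsto (fun w : ℂ => w - z) (𝓝[{w | ‖w‖ ≤ 1}] z) (𝓝 0) := by
        have : Tendsto (fun w : ℂ => w - z) (𝓝 z) (𝓝 (z - z)) :=
          tendsto_id.sub tendsto_const_nhds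
        rw [sub_self] at this
        exact this.mono_left nhdsWithin_le_nhds
      exact this.comp_tendsto ht
    simpa using h2
  · rw [hh', if_neg hE]
    exact (flat_diffAt flat_hh hz hE).hasDerivAt.hasDerivWithinAt

lemma hh'_cont : ContinuousOn hh' {w | ‖w‖ ≤ 1} := by
  intro z hz
  by_cases hE : z ∈ EC
  · obtain ⟨C, hC0, hC⟩ := flat_bound (flat_deriv flat_hh) 1
    have h0 : hh' z = 0 := if_pos hE
    rw [ContinuousWithinAt, h0]
    have hb : ∀ᶠ w in 𝓝[{w : ℂ | ‖w‖ ≤ 1}] z, ‖hh' w‖ ≤ C * dist w z := by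
      filter_upwards [self_mem_nhdsWithin] with w hw
      by_cases hwE : w ∈ EC
      · have : hh' w = 0 := if_pos hwE
        rw [this, norm_zero]; positivity
      · have : hh' w = deriv hh w := if_neg hwE
        rw [this]
        refine (hC w hw hwE).trans ?_
        rw [pow_one]
        exact mul_le_mul_of_nonneg_left (dd_le hE) hC0
    apply squeeze_zero_norm' hb
    have h3 : Tendsto (fun w : ℂ => C * dist w z) (𝓝 z) (𝓝 (C * dist z z)) :=
      (continuous_const.mul (continuous_id.dist continuous_const)).tendsto z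
    rw [dist_self, mul_zero] at h3
    exact h3.mono_left nhdsWithin_le_nhds
  · apply ContinuousAt.continuousWithinAt
    have h1 := (flat_diffAt (flat_deriv flat_hh) hz hE).continuousAt
    refine h1.congr ?_
    filter_upwards [EC_compact.isClosed.isOpen_compl.mem_nhds hE] with w hw
    exact (if_neg hw).symm

lemma hh_zero {z : ℂ} : hh z = 0 ↔ z ∈ EC := by
  rw [hh]
  split_ifs with h
  · simp [h]
  · simp [h, Complex.exp_ne_zero]

end BdrySing
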