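import Pool.Agent.BdrySing.CantorDim

open Set Metric Filter Topology
open scoped ENNReal

noncomputable section

namespace BdrySing

open Cantor

/-- weights -/
def wt (m : ℕ) : ℝ := 1 / ((m : ℝ) + 1) ^ (3 / 2 : ℝ)

lemma wt_pos (m : ℕ) : 0 < wt m := by unfold wt; positivity

lemma wt_summable : Summable wt := by
  have h1 : Summable (fun n : ℕ => 1 / (n : ℝ) ^ (3 / 2 : ℝ)) :=
    Real.summable_one_div_nat_rpow.2 (by norm_num)
  have h2 := (summable_nat_add_iff 1).2 h1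
  refine h2.congr (fun m => ?_)
  simp [wt]

lemma wt_pow (m : ℕ) : wt m ^ 8 = 1 / ((m : ℝ) + 1) ^ 12 := by
  rw [wt, div_pow, one_pow, ← Real.rpow_natCast, ← Real.rpow_mul (by positivity)]
  congr 1
  rw [← Real.rpow_natCast]
  norm_num

/-- inverse square root -/
def qq (y : ℂ) : ℂ := Complex.exp (-(1 / 2) * Complex.log y)

lemma re_arg (y : ℂ) : (-(1 / 2) * Complex.log y).re = -(1 / 2) * Real.log ‖y‖ ∧
    (-(1 / 2) * Complex.log y).im = -(Complex.arg y / 2) := by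
  have : (-(1 / 2) * Complex.log y) = ((-(1 / 2) : ℝ) : ℂ) * Complex.log y := by push_cast; ring
  rw [this, Complex.re_ofReal_mul, Complex.im_ofReal_mul, Complex.log_re, Complex.log_im]
  exact ⟨rfl, by ring⟩

lemma norm_qq_sq {y : ℂ} (hy : y ≠ 0) : ‖qq y‖ ^ 2 = 1 / ‖y‖ := by
  have hpos : 0 < ‖y‖ := norm_pos_iff.2 hy
  rw [qq, Complex.norm_exp, (re_arg y).1, ← Real.exp_nat_mul]
  have : ((2 : ℕ) : ℝ) * (-(1 / 2) * Real.log ‖y‖) = - Real.log ‖y‖ := by push_cast; ring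
  rw [this, Real.exp_neg, Real.exp_log hpos, one_div]

lemma re_qq {y : ℂ} : (qq y).re = Real.exp (-(1 / 2) * Real.log ‖y‖) * Real.cos (Complex.arg y / 2) := by
  rw [qq, Complex.exp_re, (re_arg y).1, (re_arg y).2, Real.cos_neg]

lemma re_qq_nonneg (y : ℂ) : 0 ≤ (qq y).re := by
  rw [re_qq]
  apply mul_nonneg (Real.exp_pos _).le
  apply Real.cos_nonneg_of_mem_Icc
  have h1 := Complex.neg_pi_lt_arg y
  have h2 := Complex.arg_le_pi y
  constructor <;> linarith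

lemma re_qq_sq {y : ℂ} (hy : y ≠ 0) (h : -‖y‖ / 3 ≤ y.re) : 1 / (3 * ‖y‖) ≤ (qq y).re ^ 2 := by
  have hpos : 0 < ‖y‖ := norm_pos_iff.2 hy
  rw [re_qq, mul_pow, ← Real.exp_nat_mul]
  have e1 : ((2 : ℕ) : ℝ) * (-(1 / 2) * Real.log ‖y‖) = - Real.log ‖y‖ := by push_cast; ring
  rw [e1, Real.exp_neg, Real.exp_log hpos, Real.cos_sq]
  have e2 : 2 * (Complex.arg y / 2) = Complex.arg y := by ring
  rw [e2, Complex.cos_arg hy]
  have h3 : -(1 / 3) ≤ y.re / ‖y‖ := by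
    rw [le_div_iff₀ hpos]
    linarith
  have h4 : (1 : ℝ) / 3 ≤ 1 / 2 + y.re / ‖y‖ / 2 := by linarith
  have h5 : 1 / (3 * ‖y‖) = ‖y‖⁻¹ * (1 / 3) := by
    field_simp
  rw [h5]
  exact mul_le_mul_of_nonneg_left h4 (inv_pos.2 hpos).le

/-- the basic linear functions -/
def yy (m : ℕ) (z : ℂ) : ℂ := 1 - z / ee (aa m)

lemma norm_yy (m : ℕ) (z : ℂ) : ‖yy m z‖ = ‖z - ee (aa m)‖ := by
  have h0 := ee_ne_zero (aa m)
  have : yy m z = -(z - ee (aa m)) / ee (aa m) := by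
    rw [yy]; field_simp; ring
  rw [this, norm_div, norm_neg, norm_ee, div_one]

/-- the exponent -/
def kk (z : ℂ) : ℂ := ∑' m, (wt m : ℂ) * qq (yy m z)

lemma ee_mem_EC (m : ℕ) : ee (aa m) ∈ EC := ⟨_, aa_mem m, rfl⟩

lemma EC_nonempty : EC.Nonempty := ⟨_, ee_mem_EC 0⟩

/-- distance to the Cantor set -/
def dd (z : ℂ) : ℝ := infDist z EC

lemma dd_pos {z : ℂ} (hz : z ∉ EC) : 0 < dd z :=
  (EC_compact.isClosed.notMem_iff_infDist_pos EC_nonempty).1 hz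

lemma dd_le {z w : ℂ} (hw : w ∈ EC) : dd z ≤ dist z w := infDist_le_dist_of_mem hw

lemma dd_le_two {z : ℂ} (hz : ‖z‖ ≤ 1) : dd z ≤ 2 := by
  refine (dd_le (ee_mem_EC 0)).trans ?_
  rw [dist_eq_norm]
  have := norm_sub_le z (ee (aa 0))
  rw [norm_ee] at this
  linarith

lemma good {z₁ z : ℂ} (h1 : ‖z₁‖ ≤ 1) (hz : z ∈ ball z₁ (dd z₁ / 4)) (m : ℕ) :
    3 / 4 * dd z₁ ≤ ‖yy m z‖ ∧ -‖yy m z‖ / 3 ≤ (yy m z).re := by
  rw [mem_ball, dist_eq_norm] at hz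
  have h3 : dd z₁ ≤ ‖z₁ - ee (aa m)‖ := by
    rw [← dist_eq_norm]; exact dd_le (ee_mem_EC m)
  have h4 : ‖z₁ - ee (aa m)‖ ≤ ‖z - z₁‖ + ‖z - ee (aa m)‖ := by
    have := norm_sub_le_norm_sub_add_norm_sub z₁ z (ee (aa m))
    rwa [norm_sub_rev z₁ z] at this
  have h5 : 3 / 4 * dd z₁ ≤ ‖yy m z‖ := by
    rw [norm_yy]; linarith
  refine ⟨h5, ?_⟩
  have e : yy m z = (1 - z₁ / ee (aa m)) - (z - z₁) / ee (aa m) := by
    rw [yy]; ring
  have h6 : 0 ≤ (1 - z₁ / ee (aa m)).re := by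
    have h7 := Complex.abs_re_le_norm (z₁ / ee (aa m))
    rw [norm_div, norm_ee, div_one] at h7
    have h8 := (abs_le.1 (h7.trans h1)).2
    simp only [Complex.sub_re, Complex.one_re]
    linarith
  have h9 := Complex.abs_re_le_norm ((z - z₁) / ee (aa m))
  rw [norm_div, norm_ee, div_one] at h9
  have h10 := (abs_le.1 h9).2
  rw [e, Complex.sub_re, ← e]
  linarith

lemma slit {y : ℂ} (hy : 0 < ‖y‖) (h : -‖y‖ / 3 ≤ y.re) : y ∈ Complex.slitPlane := by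
  by_contra hn
  rw [Complex.mem_slitPlane_iff, not_or, not_lt, not_not] at hn
  obtain ⟨h1, h2⟩ := hn
  have h3 : ‖y‖ = |y.re| := by
    rw [← Complex.abs_re_eq_norm.2 h2]
  rw [abs_of_nonpos h1] at h3
  linarith

lemma norm_qq_le {y : ℂ} {δ : ℝ} (hδ : 0 < δ) (hy : δ ≤ ‖y‖) : ‖qq y‖ ≤ 1 / Real.sqrt δ := by
  have hy0 : y ≠ 0 := by
    intro h; rw [h, norm_zero] at hy; linarith
  have h1 := norm_qq_sq hy0
  have h2 : ‖qq y‖ ^ 2 ≤ (1 / Real.sqrt δ) ^ 2 := by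
    rw [h1, div_pow, one_pow, Real.sq_sqrt hδ.le]
    exact one_div_le_one_div_of_le hδ hy
  exact (abs_le_of_sq_le_sq' h2 (by positivity)).2

lemma term_le {z₁ z : ℂ} (h1 : ‖z₁‖ ≤ 1) (hE : z₁ ∉ EC) (hz : z ∈ ball z₁ (dd z₁ / 4)) (m : ℕ) :
    ‖(wt m : ℂ) * qq (yy m z)‖ ≤ wt m * (1 / Real.sqrt (3 / 4 * dd z₁)) := by
  have hd := dd_pos hE
  rw [norm_mul, Complex.norm_real, Real.norm_eq_abs, abs_of_pos (wt_pos m)]
  exact mul_le_mul_of_nonneg_left (norm_qq_le (by positivity) (good h1 hz m).1) (wt_pos m).le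

lemma kk_diff {z₁ : ℂ} (h1 : ‖z₁‖ ≤ 1) (hE : z₁ ∉ EC) :
    DifferentiableOn ℂ kk (ball z₁ (dd z₁ / 4)) := by
  have hd := dd_pos hE
  apply Complex.differentiableOn_tsum_of_summable_norm
    (u := fun m => wt m * (1 / Real.sqrt (3 / 4 * dd z₁))) (wt_summable.mul_right _) _ isOpen_ball
  · intro m z hz
    exact term_le h1 hE hz m
  · intro m z hz
    apply DifferentiableAt.differentiableWithinAt
    apply DifferentiableAt.const_mul
    unfold qq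
    apply DifferentiableAt.cexp
    apply DifferentiableAt.const_mul
    obtain ⟨g1, g2⟩ := good h1 hz m
    have h3 : yy m z ∈ Complex.slitPlane := slit (by linarith) g2
    have h4 : DifferentiableAt ℂ (yy m) z := by
      unfold yy
      fun_prop
    exact h4.clog h3

lemma kk_re_ge {z₁ z : ℂ} (h1 : ‖z₁‖ ≤ 1) (hE : z₁ ∉ EC) (hz : z ∈ ball z₁ (dd z₁ / 4)) (m : ℕ) :
    wt m * (qq (yy m z)).re ≤ (kk z).re := by
  have hs : Summable (fun m => (wt m : ℂ) * qq (yy m z)) :=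
    Summable.of_norm_bounded (wt_summable.mul_right _) (fun m => term_le h1 hE hz m)
  have hre : ∀ m, ((wt m : ℂ) * qq (yy m z)).re = wt m * (qq (yy m z)).re := fun m =>
    Complex.re_ofReal_mul _ _
  have hs2 : Summable (fun m => ((wt m : ℂ) * qq (yy m z)).re) :=
    (Complex.hasSum_re hs.hasSum).summable
  rw [kk, Complex.re_tsum hs, ← hre m]
  apply hs2.le_tsum m
  intro j _
  rw [hre j]
  exact mul_nonneg (wt_pos j).le (re_qq_nonneg _)

lemma ee_lip (s t : ℝ) : ‖ee s - ee t‖ ≤ |s - t| := by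
  have h := Convex.norm_image_sub_le_of_norm_deriv_le (f := ee) (s := univ) (x := t) (y := s)
    (C := 1) (fun x _ => (hasDerivAt_ee x).differentiableAt)
    (fun x _ => by rw [(hasDerivAt_ee x).deriv, norm_mul, Complex.norm_I, norm_ee, one_mul])
    convex_univ (mem_univ _) (mem_univ _)
  rwa [one_mul, Real.norm_eq_abs] at h

/-- the constant in the lower bound -/
def c8 : ℝ := 4 ^ 4 / (32 ^ 3 * 27 ^ 4)

lemma c8_pos : 0 < c8 := by unfold c8; positivity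

lemma kk_lower {z₁ z : ℂ} (h1 : ‖z₁‖ ≤ 1) (hE : z₁ ∉ EC) (hz : z ∈ ball z₁ (dd z₁ / 4)) :
    0 ≤ (kk z).re ∧ c8 / dd z₁ ≤ (kk z).re ^ 8 := by
  have hD := dd_pos hE
  have hD2 := dd_le_two h1
  have hnn : 0 ≤ (kk z).re :=
    (mul_nonneg (wt_pos 0).le (re_qq_nonneg _)).trans (kk_re_ge h1 hE hz 0)
  refine ⟨hnn, ?_⟩
  obtain ⟨e, he, hde⟩ := EC_compact.exists_infDist_eq_dist EC_nonempty z₁
  obtain ⟨t, ht, rfl⟩ := he
  -- the scale
  obtain ⟨n, hn1, hn2⟩ : ∃ n : ℕ, (1 / 16 : ℝ) ^ n ≤ dd z₁ ∧ (16 : ℝ) ^ n ≤ 32 / dd z₁ := by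
    have hex : ∃ n : ℕ, (1 / 16 : ℝ) ^ n ≤ dd z₁ := by
      obtain ⟨n, hn⟩ := exists_pow_lt_of_lt_one hD (by norm_num : (1 / 16 : ℝ) < 1)
      exact ⟨n, hn.le⟩
    classical
    refine ⟨Nat.find hex, Nat.find_spec hex, ?_⟩
    rw [le_div_iff₀ hD]
    rcases Nat.eq_zero_or_pos (Nat.find hex) with h0 | h0
    · rw [h0, pow_zero]; linarith
    · have h2 := Nat.find_min hex (Nat.sub_lt h0 one_pos)
      push Not at h2
      have h3 : Nat.find hex = (Nat.find hex - 1) + 1 := by omega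
      rw [h3, pow_succ]
      have h4 : (16 : ℝ) ^ (Nat.find hex - 1) * dd z₁ <
          (16 : ℝ) ^ (Nat.find hex - 1) * (1 / 16 : ℝ) ^ (Nat.find hex - 1) :=
        mul_lt_mul_of_pos_left h2 (by positivity)
      rw [← mul_pow] at h4
      norm_num at h4
      nlinarith
  obtain ⟨m, hm1, hm2⟩ := aa_near n t (mem_iInter.1 ht n)
  have hy : ‖yy m z‖ ≤ 9 / 4 * dd z₁ := by
    rw [norm_yy]
    have t1 : ‖z - ee (aa m)‖ ≤ ‖z - z₁‖ + ‖z₁ - ee (aa m)‖ :=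
      norm_sub_le_norm_sub_add_norm_sub _ _ _
    have t2 : ‖z₁ - ee (aa m)‖ ≤ ‖z₁ - ee t‖ + ‖ee t - ee (aa m)‖ :=
      norm_sub_le_norm_sub_add_norm_sub _ _ _
    have t3 := ee_lip t (aa m)
    have t4 : ‖z₁ - ee t‖ = dd z₁ := by
      rw [← dist_eq_norm]; exact hde.symm
    rw [mem_ball, dist_eq_norm] at hz
    linarith
  obtain ⟨g1, g2⟩ := good h1 hz m
  have hy0 : 0 < ‖yy m z‖ := by linarith
  have hq := re_qq_sq (norm_pos_iff.1 hy0) g2
  have hX := kk_re_ge h1 hE hz m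
  have hA : (dd z₁ / 32) ^ 3 ≤ wt m ^ 8 := by
    rw [wt_pow]
    have h5 : ((m : ℝ) + 1) ≤ 2 ^ n := by exact_mod_cast hm1
    have h6 : ((m : ℝ) + 1) ^ 12 ≤ (32 / dd z₁) ^ 3 := by
      calc ((m : ℝ) + 1) ^ 12 ≤ ((2 : ℝ) ^ n) ^ 12 := pow_le_pow_left₀ (by positivity) h5 12
        _ = ((16 : ℝ) ^ n) ^ 3 := by
          rw [← pow_mul, ← pow_mul]
          have : (16 : ℝ) = 2 ^ 4 := by norm_num
          rw [this, ← pow_mul]
          congr 1
          ring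
        _ ≤ (32 / dd z₁) ^ 3 := pow_le_pow_left₀ (by positivity) hn2 3
    have h7 : (dd z₁ / 32) ^ 3 = 1 / (32 / dd z₁) ^ 3 := by
      field_simp
    rw [h7]
    exact one_div_le_one_div_of_le (by positivity) h6
  have hB : (4 / (27 * dd z₁)) ^ 4 ≤ (qq (yy m z)).re ^ 8 := by
    have h8 : (qq (yy m z)).re ^ 8 = ((qq (yy m z)).re ^ 2) ^ 4 := by ring
    rw [h8]
    apply pow_le_pow_left₀ (by positivity)
    refine le_trans ?_ hq
    rw [div_le_div_iff₀ (by positivity) (by positivity)]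
    nlinarith
  calc c8 / dd z₁ = (dd z₁ / 32) ^ 3 * (4 / (27 * dd z₁)) ^ 4 := by
        rw [c8]; field_simp
    _ ≤ wt m ^ 8 * (qq (yy m z)).re ^ 8 := mul_le_mul hA hB (by positivity) (by positivity)
    _ = (wt m * (qq (yy m z)).re) ^ 8 := by ring
    _ ≤ (kk z).re ^ 8 := pow_le_pow_left₀ (mul_nonneg (wt_pos m).le (re_qq_nonneg _)) hX 8

open scoped Classical in
/-- the flat function -/
def hh (z : ℂ) : ℂ := if z ∈ EC then 0 else Complex.exp (-kk z)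

/-- flat functions -/
def Flat (u : ℂ → ℂ) : Prop := ∃ r : ℝ, 0 < r ∧ r ≤ 1 / 4 ∧
  (∀ z₁ : ℂ, ‖z₁‖ ≤ 1 → z₁ ∉ EC → DifferentiableOn ℂ u (ball z₁ (r * dd z₁))) ∧
  ∀ K : ℕ, ∃ C : ℝ, 0 ≤ C ∧ ∀ z₁ : ℂ, ‖z₁‖ ≤ 1 → z₁ ∉ EC → ∀ z ∈ ball z₁ (r * dd z₁),
    ‖u z‖ ≤ C * dd z₁ ^ K

lemma ball_EC {z₁ z : ℂ} {r : ℝ} (hr : r ≤ 1 / 4) (hE : z₁ ∉ EC) (hz : z ∈ ball z₁ (r * dd z₁)) :
    z ∉ EC := by
  intro h
  have h1 := dd_le (z := z₁) h
  have hd := dd_pos hE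
  rw [mem_ball, dist_comm] at hz
  nlinarith

lemma flat_hh : Flat hh := by
  refine ⟨1 / 4, by norm_num, le_rfl, ?_, ?_⟩
  · intro z₁ h1 hE
    have e : (1 / 4 : ℝ) * dd z₁ = dd z₁ / 4 := by ring
    have h2 : DifferentiableOn ℂ (fun z => Complex.exp (-kk z)) (ball z₁ (1 / 4 * dd z₁)) := by
      rw [e]; exact (kk_diff h1 hE).neg.cexp
    refine h2.congr (fun z hz => ?_)
    exact if_neg (ball_EC le_rfl hE hz)
  · intro K
    refine ⟨((8 * K).factorial : ℝ) * (1 / c8) ^ K, by have := c8_pos; positivity, ?_⟩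
    intro z₁ h1 hE z hz
    have hz' : z ∈ ball z₁ (dd z₁ / 4) := by
      have e : (1 / 4 : ℝ) * dd z₁ = dd z₁ / 4 := by ring
      rwa [e] at hz
    obtain ⟨h3, h4⟩ := kk_lower h1 hE hz'
    have hc := c8_pos
    have hd := dd_pos hE
    rw [hh, if_neg (ball_EC le_rfl hE hz), Complex.norm_exp, Complex.neg_re]
    set X := (kk z).re with hX
    have hX0 : 0 < X := by
      rcases h3.lt_or_eq with h | h
      · exact h
      · exfalso
        rw [← h] at h4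
        have : 0 < c8 / dd z₁ := by positivity
        norm_num at h4
        linarith
    have h5 := Real.pow_div_factorial_le_exp X h3 (8 * K)
    have hf : (0 : ℝ) < ((8 * K).factorial : ℝ) := by exact_mod_cast Nat.factorial_pos _
    rw [Real.exp_neg]
    have h6 : (c8 / dd z₁) ^ K / ((8 * K).factorial : ℝ) ≤ Real.exp X := by
      refine le_trans ?_ h5
      rw [pow_mul]
      exact div_le_div_of_nonneg_right (pow_le_pow_left₀ (by positivity) h4 K) hf.le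
    have h7 : (Real.exp X)⁻¹ ≤ ((c8 / dd z₁) ^ K / ((8 * K).factorial : ℝ))⁻¹ :=
      inv_anti₀ (by positivity) h6
    refine h7.trans (le_of_eq ?_)
    rw [inv_div, div_pow, div_pow, one_pow]
    field_simp

lemma flat_deriv {u : ℂ → ℂ} (hu : Flat u) : Flat (deriv u) := by
  obtain ⟨r, hr0, hr4, hd, hb⟩ := hu
  refine ⟨r / 2, by linarith, by linarith, ?_, ?_⟩
  · intro z₁ h1 hE
    exact ((hd z₁ h1 hE).deriv isOpen_ball).mono
      (ball_subset_ball (by nlinarith [dd_pos hE]))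
  · intro K
    obtain ⟨C, hC0, hC⟩ := hb (K + 1)
    refine ⟨4 * C / r, by positivity, ?_⟩
    intro z₁ h1 hE z hz
    have hD := dd_pos hE
    have hR : 0 < r * dd z₁ / 4 := by positivity
    have hsub : closedBall z (r * dd z₁ / 4) ⊆ ball z₁ (r * dd z₁) := by
      intro w hw
      rw [mem_closedBall] at hw
      rw [mem_ball] at hz ⊢
      have := dist_triangle w z z₁
      nlinarith
    have h3 : DiffContOnCl ℂ u (ball z (r * dd z₁ / 4)) := by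
      apply DifferentiableOn.diffContOnCl
      rw [closure_ball _ hR.ne']
      exact (hd z₁ h1 hE).mono hsub
    have h4 := Complex.norm_deriv_le_of_forall_mem_sphere_norm_le hR h3
      (fun w hw => hC z₁ h1 hE w (hsub (sphere_subset_closedBall hw)))
    refine h4.trans (le_of_eq ?_)
    rw [pow_succ]
    field_simp

lemma flat_mul {u : ℂ → ℂ} (hu : Flat u) : Flat (fun z => Complex.I * z * u z) := by
  obtain ⟨r, hr0, hr4, hd, hb⟩ := hu
  refine ⟨r, hr0, hr4, ?_, ?_⟩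
  · intro z₁ h1 hE
    exact (differentiableOn_id.const_mul Complex.I).mul (hd z₁ h1 hE)
  · intro K
    obtain ⟨C, hC0, hC⟩ := hb K
    refine ⟨2 * C, by positivity, ?_⟩
    intro z₁ h1 hE z hz
    have hD := dd_pos hE
    have hD2 := dd_le_two h1
    have h3 := hC z₁ h1 hE z hz
    have h4 : ‖z‖ ≤ 2 := by
      rw [mem_ball, dist_eq_norm] at hz
      have := norm_le_norm_add_norm_sub' z z₁
      nlinarith
    rw [norm_mul, norm_mul, Complex.norm_I, one_mul]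
    calc ‖z‖ * ‖u z‖ ≤ 2 * (C * dd z₁ ^ K) := mul_le_mul h4 h3 (norm_nonneg _) (by norm_num)
      _ = 2 * C * dd z₁ ^ K := by ring

end BdrySing
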