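import Pool.Agent.BdrySing.Stokes

open Set MeasureTheory Metric Module Filter Topology
open scoped ContDiff RealInnerProductSpace Manifold

noncomputable section

namespace BdrySing

/-- multiplication by `i` on `ℂ²` -/
def JJ : C2 →L[ℝ] C2 :=
  mkL.comp (((Complex.I • ContinuousLinearMap.id ℝ ℂ).comp pr1).prod
    ((Complex.I • ContinuousLinearMap.id ℝ ℂ).comp pr2))

lemma JJ_apply (u : C2) : JJ u = mk (Complex.I * pr1 u) (Complex.I * pr2 u) := by
  simp [JJ, mkL_apply]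

lemma norm_JJ (u : C2) : ‖JJ u‖ = ‖u‖ := by
  have h1 := norm_sq_C2 (JJ u)
  have h2 := norm_sq_C2 u
  rw [JJ_apply] at h1 ⊢
  simp only [pr1_mk, pr2_mk, norm_mul, Complex.norm_I, one_mul] at h1
  have h3 : ‖mk (Complex.I * pr1 u) (Complex.I * pr2 u)‖ ^ 2 = ‖u‖ ^ 2 := by rw [h1, h2]
  exact (sq_eq_sq₀ (norm_nonneg _) (norm_nonneg _)).1 h3

lemma inner_JJ (u v : C2) : ⟪JJ u, v⟫ = - ⟪JJ v, u⟫ := by
  rw [JJ_apply, JJ_apply, inner_C2, inner_C2]
  simp only [pr1_mk, pr2_mk, Complex.inner]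
  simp
  ring

lemma inner_JJ_self (u : C2) : ⟪JJ u, u⟫ = 0 := by
  have := inner_JJ u u
  linarith

lemma X2_eq (f' : ℂ → ℂ) (q : ℝ × ℝ) : X2 f' q = q.1 • JJ (X1 f' q) := by
  rw [JJ_apply]
  apply C2.ext <;> simp [X1, X2] <;> ring

lemma comass_JJ {α : Form C2 2} {c : ℝ} (hα : ComassLE α c) (x u : C2) {r : ℝ} (hr : 0 ≤ r) :
    |α x ![u, r • JJ u]| ≤ c * (r * ‖u‖ ^ 2) := by
  by_cases hu : u = 0
  · subst hu
    rw [← bil2_apply]
    simp
  · have hu0 : ‖u‖ ≠ 0 := norm_ne_zero_iff.2 hu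
    set w : C2 := ‖u‖⁻¹ • u with hw
    have hwn : ‖w‖ = 1 := by
      rw [hw, norm_smul, norm_inv, norm_norm, inv_mul_cancel₀ hu0]
    have huw : u = ‖u‖ • w := by
      rw [hw, smul_smul, mul_inv_cancel₀ hu0, one_smul]
    have ho : Orthonormal ℝ ![w, JJ w] := by
      rw [orthonormal_iff_ite]
      intro i j
      fin_cases i <;> fin_cases j
      · simp [hwn]
      · simp only [Fin.zero_eta, Fin.mk_one, Matrix.cons_val_zero, Matrix.cons_val_one]
        rw [real_inner_comm, inner_JJ_self]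
        simp
      · simp only [Fin.zero_eta, Fin.mk_one, Matrix.cons_val_zero, Matrix.cons_val_one]
        rw [inner_JJ_self]
        simp
      · simp [norm_JJ, hwn]
    have h1 := hα x _ ho
    have h2 : α x ![u, r • JJ u] = (r * ‖u‖ ^ 2) * α x ![w, JJ w] := by
      rw [← bil2_apply, ← bil2_apply]
      conv_lhs => rw [huw]
      simp only [map_smul, smul_apply, smul_eq_mul]
      ring
    rw [h2, abs_mul, abs_of_nonneg (by positivity), mul_comm c]
    exact mul_le_mul_of_nonneg_left h1 (by positivity)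

/-- primitive of the Kähler form -/
def prim : C2 →L[ℝ] C2 →L[ℝ] ℝ := (1 / 2 : ℝ) • ((innerSL ℝ (E := C2)).comp JJ)

lemma prim_apply (x v : C2) : prim x v = (1 / 2) * ⟪JJ x, v⟫ := by
  simp [prim]

lemma abs_prim_le (x v : C2) : |prim x v| ≤ (1 / 2) * (‖x‖ * ‖v‖) := by
  rw [prim_apply, abs_mul, abs_of_pos (by norm_num : (0 : ℝ) < 1 / 2)]
  have := abs_real_inner_le_norm (JJ x) v
  rw [norm_JJ] at this
  linarith

lemma fderiv_cut_prim {χ : C2 → ℝ} (hχ : ContDiff ℝ ∞ χ) (x u v : C2) :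
    fderiv ℝ (fun x => χ x • prim x) x u v = χ x * prim u v + fderiv ℝ χ x u * prim x v := by
  have h1 : HasFDerivAt χ (fderiv ℝ χ x) x :=
    (hχ.contDiffAt.differentiableAt (by simp)).hasFDerivAt
  have h2 : HasFDerivAt (fun x => prim x) prim x := by
    have := prim.hasFDerivAt (x := x)
    exact this
  have h3 : HasFDerivAt (fun x => χ x • prim x) _ x := h1.smul h2
  rw [h3.fderiv]
  simp

lemma contDiff_cut_prim {χ : C2 → ℝ} (hχ : ContDiff ℝ ∞ χ) :
    ContDiff ℝ ∞ (fun x => χ x • prim x) := by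
  have h2 : ContDiff ℝ ∞ (fun x => prim x) := by
    fun_prop
  exact hχ.smul h2

lemma extDeriv_cut_prim {χ : C2 → ℝ} (hχ : ContDiff ℝ ∞ χ) (x u v : C2) :
    extDeriv (fun x => lin1 (χ x • prim x)) x ![u, v] =
      χ x * ⟪JJ u, v⟫ + (fderiv ℝ χ x u * prim x v - fderiv ℝ χ x v * prim x u) := by
  rw [extDeriv_lin1 ((contDiff_cut_prim hχ).contDiffAt.differentiableAt (by simp)), alt2_apply]
  simp only [Matrix.cons_val_zero, Matrix.cons_val_one]
  rw [fderiv_cut_prim hχ, fderiv_cut_prim hχ, prim_apply u v, prim_apply v u, inner_JJ v u]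
  ring

lemma comass_cut_prim {χ : C2 → ℝ} (hχ : ContDiff ℝ ∞ χ) (h01 : ∀ x, 0 ≤ χ x ∧ χ x ≤ 1)
    {ε : ℝ} (hε : ∀ x, ‖fderiv ℝ χ x‖ * ‖x‖ ≤ ε) :
    ComassLE (extDeriv (fun x => lin1 (χ x • prim x))) (1 + ε) := by
  intro x w hw
  have hw2 : w = ![w 0, w 1] := by ext i; fin_cases i <;> rfl
  rw [hw2, extDeriv_cut_prim hχ]
  have n0 : ‖w 0‖ = 1 := hw.1 0
  have n1 : ‖w 1‖ = 1 := hw.1 1
  have h1 : |⟪JJ (w 0), w 1⟫| ≤ 1 := by
    have := abs_real_inner_le_norm (JJ (w 0)) (w 1)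
    rwa [norm_JJ, n0, n1, one_mul] at this
  have h2 : |χ x * ⟪JJ (w 0), w 1⟫| ≤ 1 := by
    rw [abs_mul, abs_of_nonneg (h01 x).1]
    nlinarith [(h01 x).1, (h01 x).2, abs_nonneg ⟪JJ (w 0), w 1⟫]
  have h3 : ∀ i j : Fin 2, |fderiv ℝ χ x (w i) * prim x (w j)| ≤ ε / 2 := by
    intro i j
    rw [abs_mul]
    have h4 : |fderiv ℝ χ x (w i)| ≤ ‖fderiv ℝ χ x‖ := by
      have := (fderiv ℝ χ x).le_opNorm (w i)
      rwa [hw.1 i, mul_one] at this
    have h5 : |prim x (w j)| ≤ (1 / 2) * ‖x‖ := by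
      have := abs_prim_le x (w j)
      rwa [hw.1 j, mul_one] at this
    have h6 := mul_le_mul h4 h5 (abs_nonneg _) (norm_nonneg _)
    have h7 := hε x
    linarith
  have h8 := h3 0 1
  have h9 := h3 1 0
  have h10 := abs_add_le (χ x * ⟪JJ (w 0), w 1⟫)
    (fderiv ℝ χ x (w 0) * prim x (w 1) - fderiv ℝ χ x (w 1) * prim x (w 0))
  have h11 := abs_sub (fderiv ℝ χ x (w 0) * prim x (w 1)) (fderiv ℝ χ x (w 1) * prim x (w 0))
  linarith

lemma bound_deriv_st : ∃ C : ℝ, 0 ≤ C ∧ ∀ s, |deriv Real.smoothTransition s| ≤ C := by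
  have h1 : Continuous (deriv Real.smoothTransition) :=
    (Real.smoothTransition.contDiff (n := 1)).continuous_deriv (by simp)
  have h2 : HasCompactSupport (deriv Real.smoothTransition) := by
    apply HasCompactSupport.of_support_subset_isCompact (isCompact_Icc (a := (0 : ℝ)) (b := 1))
    intro s hs
    by_contra hs2
    apply hs
    rw [mem_Icc, not_and_or, not_le, not_le] at hs2
    rcases hs2 with h | h
    · have : Real.smoothTransition =ᶠ[𝓝 s] fun _ => (0 : ℝ) := by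
        filter_upwards [Iio_mem_nhds h] with y hy
        exact Real.smoothTransition.zero_of_nonpos (le_of_lt hy)
      rw [this.deriv_eq, deriv_const]
    · have : Real.smoothTransition =ᶠ[𝓝 s] fun _ => (1 : ℝ) := by
        filter_upwards [Ioi_mem_nhds h] with y hy
        exact Real.smoothTransition.one_of_one_le (le_of_lt hy)
      rw [this.deriv_eq, deriv_const]
  obtain ⟨C, hC⟩ := h2.exists_bound_of_continuous h1
  exact ⟨C, (norm_nonneg _).trans (hC 0), hC⟩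

/-- cutoff functions with small logarithmic derivative -/
lemma exists_log_cutoff (R ε : ℝ) (hε : 0 < ε) :
    ∃ χ : C2 → ℝ, ContDiff ℝ ∞ χ ∧ HasCompactSupport χ ∧ (∀ x, 0 ≤ χ x ∧ χ x ≤ 1) ∧
      (∀ x, ‖x‖ < R → χ x = 1) ∧ ∀ x, ‖fderiv ℝ χ x‖ * ‖x‖ ≤ ε := by
  obtain ⟨C, hC0, hC⟩ := bound_deriv_st
  obtain ⟨L, hL0, hL1, hL2⟩ : ∃ L : ℝ, 0 < L ∧ Real.log (1 + R ^ 2) ≤ L ∧ 2 * C / L ≤ ε := by
    refine ⟨max 1 (max (Real.log (1 + R ^ 2)) (2 * C / ε)), by positivity,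
      (le_max_left _ _).trans (le_max_right _ _), ?_⟩
    rw [div_le_iff₀ (by positivity)]
    have h1 : 2 * C / ε ≤ max 1 (max (Real.log (1 + R ^ 2)) (2 * C / ε)) :=
      (le_max_right _ _).trans (le_max_right _ _)
    rw [div_le_iff₀ hε] at h1
    linarith
  have hpos : ∀ x : C2, (0 : ℝ) < 1 + ‖x‖ ^ 2 := fun x => by positivity
  have hu : ContDiff ℝ ∞ (fun x : C2 => 2 - Real.log (1 + ‖x‖ ^ 2) / L) := by
    refine contDiff_const.sub (ContDiff.div_const ?_ L)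
    exact (contDiff_const.add (contDiff_norm_sq ℝ)).log (fun x => (hpos x).ne')
  have hst : ContDiff ℝ ∞ Real.smoothTransition := Real.smoothTransition.contDiff
  refine ⟨fun x => Real.smoothTransition (2 - Real.log (1 + ‖x‖ ^ 2) / L), hst.comp hu,
    ?_, fun x => ⟨Real.smoothTransition.nonneg _, Real.smoothTransition.le_one _⟩, ?_, ?_⟩
  · apply HasCompactSupport.of_support_subset_isCompact (isCompact_closedBall (0 : C2) (Real.exp L))
    intro x hx
    have h1 : 0 < 2 - Real.log (1 + ‖x‖ ^ 2) / L := by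
      by_contra h
      push Not at h
      exact hx (Real.smoothTransition.zero_of_nonpos h)
    have h2 : Real.log (1 + ‖x‖ ^ 2) < 2 * L := by
      have : Real.log (1 + ‖x‖ ^ 2) / L < 2 := by linarith
      rwa [div_lt_iff₀ hL0] at this
    have h3 : 1 + ‖x‖ ^ 2 < Real.exp (2 * L) := (Real.log_lt_iff_lt_exp (hpos x)).1 h2
    have h4 : Real.exp (2 * L) = Real.exp L ^ 2 := by
      rw [← Real.exp_nat_mul]; norm_num
    rw [mem_closedBall_zero_iff]
    have h5 : ‖x‖ ^ 2 < Real.exp L ^ 2 := by linarith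
    exact (abs_le_of_sq_le_sq' h5.le (Real.exp_pos L).le).2
  · intro x hx
    apply Real.smoothTransition.one_of_one_le
    have h1 : Real.log (1 + ‖x‖ ^ 2) ≤ L := by
      refine (Real.log_le_log (hpos x) ?_).trans hL1
      have : ‖x‖ ^ 2 ≤ R ^ 2 := pow_le_pow_left₀ (norm_nonneg x) hx.le 2
      linarith
    have h2 : Real.log (1 + ‖x‖ ^ 2) / L ≤ 1 := by
      rw [div_le_one hL0]; exact h1
    linarith
  · intro x
    have d1 : HasFDerivAt (fun x : C2 => 1 + ‖x‖ ^ 2) (2 • (innerSL ℝ x)) x :=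
      (hasStrictFDerivAt_norm_sq x).hasFDerivAt.const_add 1
    have d2 := d1.log (hpos x).ne'
    have d3 : HasFDerivAt (fun x : C2 => 2 - Real.log (1 + ‖x‖ ^ 2) / L)
        (-(L⁻¹ • ((1 + ‖x‖ ^ 2)⁻¹ • (2 • (innerSL ℝ x))))) x := by
      have := (d2.mul_const L⁻¹).const_sub 2
      simpa only [div_eq_mul_inv] using this
    have d4 : HasFDerivAt Real.smoothTransition
        (ContinuousLinearMap.toSpanSingleton ℝ
          (deriv Real.smoothTransition (2 - Real.log (1 + ‖x‖ ^ 2) / L)))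
        (2 - Real.log (1 + ‖x‖ ^ 2) / L) :=
      ((hst.contDiffAt.differentiableAt (by simp)).hasDerivAt).hasFDerivAt
    have d5 := d4.comp x d3
    have e5 : fderiv ℝ (fun x : C2 => Real.smoothTransition (2 - Real.log (1 + ‖x‖ ^ 2) / L)) x =
        _ := d5.fderiv
    rw [e5]
    have h6 : ‖fderiv ℝ (fun x : C2 => Real.smoothTransition (2 - Real.log (1 + ‖x‖ ^ 2) / L)) x‖
        ≤ C * (L⁻¹ * ((1 + ‖x‖ ^ 2)⁻¹ * (2 * ‖x‖))) := by
      rw [e5]
      refine (ContinuousLinearMap.opNorm_comp_le _ _).trans ?_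
      refine mul_le_mul ?_ ?_ (norm_nonneg _) hC0
      · rw [ContinuousLinearMap.norm_toSpanSingleton]
        exact hC _
      · rw [norm_neg, norm_smul, norm_smul, Real.norm_eq_abs, Real.norm_eq_abs,
          abs_of_pos (inv_pos.2 hL0), abs_of_pos (inv_pos.2 (hpos x))]
        refine mul_le_mul_of_nonneg_left ?_ (inv_pos.2 hL0).le
        refine mul_le_mul_of_nonneg_left ?_ (inv_pos.2 (hpos x)).le
        have : ‖(2 : ℕ) • (innerSL ℝ x)‖ ≤ 2 * ‖innerSL ℝ x‖ := by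
          have := norm_nsmul_le (n := 2) (a := innerSL ℝ x)
          simpa using this
        refine this.trans ?_
        rw [innerSL_apply_norm]
    rw [e5] at h6
    refine (mul_le_mul_of_nonneg_right h6 (norm_nonneg x)).trans ?_
    refine le_trans ?_ hL2
    have h7 : (1 + ‖x‖ ^ 2)⁻¹ * ‖x‖ ^ 2 ≤ 1 := by
      rw [inv_mul_le_iff₀ (hpos x)]
      linarith
    have h8 : C * (L⁻¹ * ((1 + ‖x‖ ^ 2)⁻¹ * (2 * ‖x‖))) * ‖x‖ =
        (2 * C / L) * ((1 + ‖x‖ ^ 2)⁻¹ * ‖x‖ ^ 2) := by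
      field_simp
    rw [h8]
    have h9 : 0 ≤ 2 * C / L := by positivity
    nlinarith

end BdrySing
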