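import Pool.Agent.BdrySing.Kahler

open Set MeasureTheory Metric Module Filter Topology
open scoped ContDiff RealInnerProductSpace Manifold ENNReal

noncomputable section

namespace BdrySing

/-- the rectangle of polar coordinates -/
def Rect (a b : ℝ) : Set (ℝ × ℝ) := Ioo a b ×ˢ Ioo 0 (2 * Real.pi)

lemma measurableSet_Rect (a b : ℝ) : MeasurableSet (Rect a b) :=
  measurableSet_Ioo.prod measurableSet_Ioo

lemma Rect_subset (a b : ℝ) : Rect a b ⊆ Icc (a, (0 : ℝ)) (b, 2 * Real.pi) := by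
  rw [← Icc_prod_Icc]
  exact prod_mono Ioo_subset_Icc_self Ioo_subset_Icc_self

lemma volume_Rect_lt_top (a b : ℝ) : volume (Rect a b) < ⊤ :=
  lt_of_le_of_lt (measure_mono (Rect_subset a b)) isCompact_Icc.measure_lt_top

lemma area_le (a b : C2) : area a b ≤ ‖a‖ * ‖b‖ := by
  rw [area]
  apply Real.sqrt_le_iff.2
  constructor
  · positivity
  · have := sq_nonneg ⟪a, b⟫
    nlinarith

/-- area of a sheet -/
def SA (f' : ℂ → ℂ) (a b : ℝ) : ℝ := ∫ q in Rect a b, q.1 * ‖X1 f' q‖ ^ 2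

namespace SheetData

variable {f f' : ℂ → ℂ} {a b : ℝ}

lemma SC_eq (h : SheetData f f' a b) (α : Form C2 2) :
    ∫ q in Rect a b, α (sheet f q) ![dOne (sheet f) q, dTwo (sheet f) q] = SC f f' a b α := by
  rw [SC]
  apply setIntegral_congr_fun (measurableSet_Rect a b)
  intro q hq
  simp only
  rw [h.dOne_sheet hq.1, h.dTwo_sheet hq.1]

lemma area_finite (h : SheetData f f' a b) :
    ∫⁻ q in Rect a b, ENNReal.ofReal (area (dOne (sheet f) q) (dTwo (sheet f) q)) < ⊤ := by
  obtain ⟨C1, hC1⟩ := (isCompact_Icc (a := (a, (0 : ℝ))) (b := (b, 2 * Real.pi))).exists_bound_of_continuousOn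
    (h.cont_X1.mono (rect_subset a b))
  obtain ⟨C2', hC2⟩ := (isCompact_Icc (a := (a, (0 : ℝ))) (b := (b, 2 * Real.pi))).exists_bound_of_continuousOn
    (h.cont_X2.mono (rect_subset a b))
  have h1 : ∫⁻ q in Rect a b, ENNReal.ofReal (area (dOne (sheet f) q) (dTwo (sheet f) q)) ≤
      ∫⁻ _ in Rect a b, ENNReal.ofReal (C1 * C2') := by
    apply setLIntegral_mono' (measurableSet_Rect a b)
    intro q hq
    apply ENNReal.ofReal_le_ofReal
    rw [h.dOne_sheet hq.1, h.dTwo_sheet hq.1]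
    have hq' := Rect_subset a b hq
    exact (area_le _ _).trans (mul_le_mul (hC1 q hq') (hC2 q hq') (norm_nonneg _)
      ((norm_nonneg _).trans (hC1 q hq')))
  refine lt_of_le_of_lt h1 ?_
  rw [setLIntegral_const]
  exact ENNReal.mul_lt_top ENNReal.ofReal_lt_top (volume_Rect_lt_top a b)

lemma SA_integrable (h : SheetData f f' a b) :
    IntegrableOn (fun q : ℝ × ℝ => q.1 * ‖X1 f' q‖ ^ 2) (Rect a b) := by
  have h1 : ContinuousOn (fun q : ℝ × ℝ => q.1 * ‖X1 f' q‖ ^ 2)
      (Icc (a, (0 : ℝ)) (b, 2 * Real.pi)) :=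
    continuous_fst.continuousOn.mul ((h.cont_X1.mono (rect_subset a b)).norm.pow 2)
  exact (h1.integrableOn_compact isCompact_Icc).mono_set (Rect_subset a b)

lemma SC_le (h : SheetData f f' a b) {α : Form C2 2} (hα : Continuous α) (hc : ComassLE α 1) :
    SC f f' a b α ≤ SA f' a b := by
  rw [SC, SA]
  apply setIntegral_mono_on ((h.integrableOn hα).mono_set (Rect_subset a b)) h.SA_integrable
    (measurableSet_Rect a b)
  intro q hq
  have h0 : 0 ≤ q.1 := h.nonneg.trans hq.1.1.le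
  have := comass_JJ hc (sheet f q) (X1 f' q) h0
  rw [X2_eq]
  rw [one_mul] at this
  exact (le_abs_self _).trans this

lemma SC_calibrated (_h : SheetData f f' a b) {χ : C2 → ℝ} (hχ : ContDiff ℝ ∞ χ) {R : ℝ}
    (h1 : ∀ x, ‖x‖ < R → χ x = 1) (hR : ∀ q ∈ Rect a b, ‖sheet f q‖ < R) :
    SC f f' a b (extDeriv (fun x => lin1 (χ x • prim x))) = SA f' a b := by
  rw [SC, SA]
  apply setIntegral_congr_fun (measurableSet_Rect a b)
  intro q hq
  simp only
  rw [extDeriv_cut_prim hχ, h1 _ (hR q hq)]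
  have h2 : fderiv ℝ χ (sheet f q) = 0 := by
    have h3 : χ =ᶠ[𝓝 (sheet f q)] fun _ => (1 : ℝ) := by
      have ho : IsOpen {x : C2 | ‖x‖ < R} := isOpen_lt continuous_norm continuous_const
      filter_upwards [ho.mem_nhds (hR q hq)] with y hy
      exact h1 y hy
    rw [h3.fderiv_eq]
    simp
  rw [h2, X2_eq]
  rw [inner_smul_right, real_inner_self_eq_norm_sq, norm_JJ]
  simp

lemma exists_bound (h : SheetData f f' a b) : ∃ R : ℝ, ∀ q ∈ Rect a b, ‖sheet f q‖ < R := by
  obtain ⟨C, hC⟩ := (isCompact_Icc (a := (a, (0 : ℝ))) (b := (b, 2 * Real.pi))).exists_bound_of_continuousOn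
    (h.cont_sheet.mono (rect_subset a b))
  exact ⟨C + 1, fun q hq => lt_of_le_of_lt (hC q (Rect_subset a b hq)) (by linarith)⟩

end SheetData

/-- the sum of finitely many sheets -/
def TT {k : ℕ} (f f' : Fin k → ℂ → ℂ) (a b : Fin k → ℝ) (α : Form C2 2) : ℝ :=
  ∑ i, SC (f i) (f' i) (a i) (b i) α

lemma tsum_fin_eq {k : ℕ} (G : ℕ → ℝ) (g : Fin k → ℝ) (h1 : ∀ i : Fin k, G i = g i)
    (h2 : ∀ i, k ≤ i → G i = 0) : ∑' i, G i = ∑ i, g i := by
  rw [tsum_eq_sum (s := Finset.range k) (fun i hi => h2 i (by simpa using hi)),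
    ← Fin.sum_univ_eq_sum_range]
  exact Finset.sum_congr rfl (fun i _ => h1 i)

lemma tsum_fin_lt_top {k : ℕ} (G : ℕ → ℝ≥0∞) (h1 : ∀ i : Fin k, G i < ⊤)
    (h2 : ∀ i, k ≤ i → G i = 0) : ∑' i, G i < ⊤ := by
  rw [tsum_eq_sum (s := Finset.range k) (fun i hi => h2 i (by simpa using hi))]
  apply ENNReal.sum_lt_top.2
  intro i hi
  exact h1 ⟨i, Finset.mem_range.1 hi⟩

theorem isIntRect_TT {k : ℕ} {f f' : Fin k → ℂ → ℂ} {a b : Fin k → ℝ}
    (h : ∀ i, SheetData (f i) (f' i) (a i) (b i)) : IsIntRect (TT f f' a b) := by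
  refine ⟨fun i => if hi : i < k then sheet (f ⟨i, hi⟩) else 0,
    fun i => if hi : i < k then Ioo (a ⟨i, hi⟩) (b ⟨i, hi⟩) ×ˢ univ else univ,
    fun i => if hi : i < k then Rect (a ⟨i, hi⟩) (b ⟨i, hi⟩) else ∅, ?_, ?_, ?_, ?_, ?_, ?_⟩
  · intro i
    by_cases hi : i < k
    · simp only [hi, dif_pos]
      exact isOpen_Ioo.prod isOpen_univ
    · simp only [hi, dif_neg, not_false_eq_true]
      exact isOpen_univ
  · intro i
    by_cases hi : i < k
    · simp only [hi, dif_pos]
      exact measurableSet_Rect _ _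
    · simp only [hi, dif_neg, not_false_eq_true]
      exact MeasurableSet.empty
  · intro i
    by_cases hi : i < k
    · simp only [hi, dif_pos]
      exact prod_mono subset_rfl (subset_univ _)
    · simp only [hi, dif_neg, not_false_eq_true]
      exact empty_subset _
  · intro i
    by_cases hi : i < k
    · simp only [hi, dif_pos]
      exact (h ⟨i, hi⟩).contDiffOn_sheet
    · simp only [hi, dif_neg, not_false_eq_true]
      exact contDiffOn_const
  · apply tsum_fin_lt_top (k := k)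
    · intro i
      simp only [i.2, dif_pos, Fin.eta]
      exact (h i).area_finite
    · intro i hi
      simp only [not_lt.2 hi, dif_neg, not_false_eq_true]
      simp
  · intro α _
    symm
    apply tsum_fin_eq (k := k)
    · intro i
      simp only [i.2, dif_pos, Fin.eta]
      exact (h i).SC_eq α
    · intro i hi
      simp only [not_lt.2 hi, dif_neg, not_false_eq_true]
      simp

lemma mass_TT_le {k : ℕ} {f f' : Fin k → ℂ → ℂ} {a b : Fin k → ℝ}
    (h : ∀ i, SheetData (f i) (f' i) (a i) (b i)) :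
    mass (TT f f' a b) ≤ ENNReal.ofReal (∑ i, SA (f' i) (a i) (b i)) := by
  apply iSup₂_le
  rintro α ⟨hα, hc⟩
  apply ENNReal.ofReal_le_ofReal
  exact Finset.sum_le_sum (fun i _ => (h i).SC_le hα.1.continuous hc)

lemma IsIntRect.smul {V : Type} [NormedAddCommGroup V] [InnerProductSpace ℝ V]
    {S : Form V 2 → ℝ} (hS : IsIntRect S) (c : ℝ) {α : Form V 2}
    (hα : IsTest univ α) : S (c • α) = c * S α := by
  obtain ⟨f, O, K, -, -, -, -, -, h⟩ := hS
  rw [h _ (hα.csmul c), h _ hα, ← tsum_mul_left]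
  congr 1
  funext i
  rw [← integral_const_mul]
  rfl

lemma mass_ge {S : Form C2 2 → ℝ} (hS : IsIntRect S) {α : Form C2 2} (hα : IsTest univ α) {c : ℝ}
    (hc : 0 < c) (hcm : ComassLE α c) : ENNReal.ofReal (S α / c) ≤ mass S := by
  have h1 : IsTest univ (c⁻¹ • α) := hα.csmul _
  have h2 : ComassLE (c⁻¹ • α) 1 := by
    intro x v hv
    have := hcm x v hv
    simp only [Pi.smul_apply, ContinuousAlternatingMap.smul_apply, smul_eq_mul, abs_mul, abs_inv,
      abs_of_pos hc]
    rw [inv_mul_le_iff₀ hc, mul_one]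
    exact this
  have h3 : S α / c = S (c⁻¹ • α) := by
    rw [hS.smul _ hα, div_eq_inv_mul]
  rw [h3]
  exact le_iSup₂_of_le (c⁻¹ • α) ⟨h1, h2⟩ le_rfl

theorem isMinimizing_TT {k n : ℕ} {f f' : Fin k → ℂ → ℂ} {a b : Fin k → ℝ}
    (h : ∀ i, SheetData (f i) (f' i) (a i) (b i)) {γ : Fin n → ℝ → C2}
    (hb : HasBoundary (TT f f' a b) γ) : IsMinimizing (TT f f' a b) γ := by
  refine ⟨isIntRect_TT h, hb, ?_⟩
  intro S hS hSb
  refine (mass_TT_le h).trans ?_
  choose R hR using fun i => (h i).exists_bound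
  set A : ℝ := ∑ i, SA (f' i) (a i) (b i) with hA
  have key : ∀ ε : ℝ, 0 < ε → ENNReal.ofReal (A / (1 + ε)) ≤ mass S := by
    intro ε hε
    obtain ⟨χ, hχ, hχc, h01, hχ1, hχε⟩ := exists_log_cutoff (∑ i, |R i|) ε hε
    have htest : IsTest univ (fun x => lin1 (χ x • prim x)) := by
      refine ⟨contDiff_lin1 (contDiff_cut_prim hχ), ?_, subset_univ _⟩
      refine hχc.mono ?_
      intro x hx h0
      apply hx
      simp [h0]
    have hdt : IsTest univ (extDeriv (fun x => lin1 (χ x • prim x))) :=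
      htest.extDeriv_lin1 (contDiff_cut_prim hχ)
    have hTA : TT f f' a b (extDeriv (fun x => lin1 (χ x • prim x))) = A := by
      rw [TT, hA]
      apply Finset.sum_congr rfl
      intro i _
      apply (h i).SC_calibrated hχ hχ1
      intro q hq
      refine lt_of_lt_of_le (hR i q hq) ?_
      refine (le_abs_self _).trans ?_
      exact Finset.single_le_sum (f := fun i => |R i|) (fun _ _ => abs_nonneg _)
        (Finset.mem_univ i)
    have hSA : S (extDeriv (fun x => lin1 (χ x • prim x))) = A := by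
      rw [hSb _ htest, ← hb _ htest, hTA]
    have := mass_ge hS hdt (by linarith : 0 < 1 + ε) (comass_cut_prim hχ h01 hχε)
    rwa [hSA] at this
  have hlim : Tendsto (fun ε : ℝ => ENNReal.ofReal (A / (1 + ε))) (𝓝[>] 0)
      (𝓝 (ENNReal.ofReal (A / (1 + 0)))) := by
    apply ENNReal.tendsto_ofReal
    apply Tendsto.mono_left _ nhdsWithin_le_nhds
    have : ContinuousAt (fun ε : ℝ => A / (1 + ε)) 0 := by
      apply ContinuousAt.div continuousAt_const (continuousAt_const.add continuousAt_id)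
      norm_num
    exact this
  rw [add_zero, div_one] at hlim
  exact le_of_tendsto hlim (by
    filter_upwards [self_mem_nhdsWithin] with ε hε
    exact key ε hε)

end BdrySing
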