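import Pool.Agent.BdrySing.NonReg

open Set MeasureTheory Metric Module Filter Topology
open scoped ContDiff RealInnerProductSpace Manifold ENNReal

noncomputable section

namespace BdrySing

lemma uniqueDiff_disc {z : ℂ} (hz : ‖z‖ ≤ 1) : UniqueDiffWithinAt ℂ {w : ℂ | ‖w‖ ≤ 1} z := by
  have h1 : {w : ℂ | ‖w‖ ≤ 1} = closedBall 0 1 := by ext; simp
  rw [h1]
  have h2 : UniqueDiffWithinAt ℝ (closedBall (0 : ℂ) 1) z := by
    apply uniqueDiffOn_convex (convex_closedBall 0 1)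
    · rw [interior_closedBall _ one_ne_zero]
      exact ⟨0, mem_ball_self one_pos⟩
    · simpa using hz
  exact h2.mono_field

/-- a piece of the complement of the disc is connected -/
lemma outer_preconnected {z₀ : ℂ} (hz₀ : ‖z₀‖ = 1) {δ : ℝ} (hδ : 0 < δ) (hδ2 : δ ≤ 1 / 2) :
    IsPreconnected (ball z₀ δ ∩ {z : ℂ | 1 < ‖z‖}) := by
  set p : ℂ := ((1 + δ / 2 : ℝ) : ℂ) * z₀ with hp
  have hpn : ‖p‖ = 1 + δ / 2 := by
    rw [hp, norm_mul, hz₀, mul_one, Complex.norm_real, Real.norm_eq_abs,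
      abs_of_pos (by linarith)]
  have hpd : dist p z₀ < δ := by
    have : p - z₀ = ((δ / 2 : ℝ) : ℂ) * z₀ := by rw [hp]; push_cast; ring
    rw [dist_eq_norm, this, norm_mul, hz₀, mul_one, Complex.norm_real, Real.norm_eq_abs,
      abs_of_pos (by linarith)]
    linarith
  have hstar : StarConvex ℝ p (ball z₀ δ ∩ {z : ℂ | 1 < ‖z‖}) := by
    intro z hz a b ha hb hab
    refine ⟨(convex_ball z₀ δ) hpd hz.1 ha hb hab, ?_⟩
    have hz1 : 1 < ‖z‖ := hz.2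
    have hzd : ‖z - z₀‖ < δ := by
      have := hz.1
      rwa [mem_ball, dist_eq_norm] at this
    -- inner products with `z`
    have i1 : ⟪z, z⟫ = ‖z‖ ^ 2 := real_inner_self_eq_norm_sq z
    have i2 : ‖z - z₀‖ ^ 2 = ‖z‖ ^ 2 - 2 * ⟪z, z₀⟫ + ‖z₀‖ ^ 2 := norm_sub_sq_real z z₀
    have i3 : ⟪z, p⟫ = (1 + δ / 2) * ⟪z, z₀⟫ := by
      have : p = (1 + δ / 2 : ℝ) • z₀ := by rw [hp, Complex.real_smul]
      rw [this, inner_smul_right]
    have i4 : ‖z‖ < ⟪z, p⟫ := by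
      rw [i3]
      rw [hz₀] at i2
      have h5 : ‖z - z₀‖ ^ 2 < δ ^ 2 := by
        have := norm_nonneg (z - z₀)
        nlinarith
      have h6 : ‖z‖ - δ ^ 2 / 2 < ⟪z, z₀⟫ := by nlinarith [sq_nonneg (‖z‖ - 1)]
      nlinarith
    have i5 : ⟪z, a • p + b • z⟫ = a * ⟪z, p⟫ + b * ‖z‖ ^ 2 := by
      rw [inner_add_right, inner_smul_right, inner_smul_right, i1]
    have i6 : ‖z‖ < ⟪z, a • p + b • z⟫ := by
      rw [i5]
      have h7 : ‖z‖ < ‖z‖ ^ 2 := by nlinarith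
      rcases eq_or_lt_of_le ha with h | h
      · have hb1 : b = 1 := by linarith
        rw [← h, hb1]; linarith
      · nlinarith
    have i7 := real_inner_le_norm z (a • p + b • z)
    simp only [mem_ofPred_eq]
    have hz0 : 0 < ‖z‖ := by linarith
    have i8 : ‖z‖ * 1 < ‖z‖ * ‖a • p + b • z‖ := by linarith
    exact lt_of_mul_lt_mul_left i8 hz0.le
  have hmem : p ∈ ball z₀ δ ∩ {z : ℂ | 1 < ‖z‖} := by
    refine ⟨hpd, ?_⟩
    simp only [mem_ofPred_eq, hpn]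
    linarith
  exact (hstar.isPathConnected hmem).isConnected.isPreconnected

namespace Data

variable (D : Data)

section Local

variable {U : Set C2} (hU : IsOpen U) {T₁ : Form C2 2 → ℝ} (hT : IsCurrent U T₁)
  (hcl : ∀ η : Form C2 1, IsTest U η → T₁ (extDeriv η) = 0) (hsub : spt T₁ ∩ U ⊆ spt D.T)

include hU hT hcl hsub

/-- local switching along a sheet across the unit circle -/
lemma local_switch {s s' v v' : ℂ → ℂ} {z₁ : ℂ} {ρ : ℝ} (hρ : 0 < ρ)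
    (i1 : ∀ w ∈ ball z₁ ρ, ‖w‖ ≤ 1 → HasDerivWithinAt s (s' w) {w | ‖w‖ ≤ 1} w)
    (i2 : ∀ w ∈ ball z₁ ρ, 1 ≤ ‖w‖ → HasDerivWithinAt v (v' w) {w | 1 ≤ ‖w‖} w)
    (i3 : ∀ w ∈ ball z₁ ρ, ‖w‖ = 1 → s w = v w ∧ s' w = v' w)
    (i4 : ∀ w : ℂ, ‖w‖ ≤ 1 → (D.B w = s w ∨ ‖D.B w - s w‖ = ‖D.h w‖) ∧
      (D.B w - D.h w = s w ∨ ‖D.B w - D.h w - s w‖ = ‖D.h w‖))
    (i5 : ∀ w : ℂ, D.g w = v w ∨ ‖D.g w - v w‖ = ‖D.h w‖)
    (i6 : DifferentiableOn ℂ D.h (ball z₁ ρ)) (hz₁ : ‖z₁‖ = 1) (hzE : z₁ ∉ D.E)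
    (i7 : mk z₁ (s z₁) ∈ U) :
    ∃ r > 0, r ≤ ρ ∧ (∀ w ∈ ball z₁ r, mk w (if ‖w‖ ≤ 1 then s w else v w) ∈ U ∧ D.h w ≠ 0) ∧
      ∀ w₁ ∈ ball z₁ r, ∀ w₂ ∈ ball z₁ r,
        mk w₁ (if ‖w₁‖ ≤ 1 then s w₁ else v w₁) ∉ spt T₁ →
        mk w₂ (if ‖w₂‖ ≤ 1 then s w₂ else v w₂) ∉ spt T₁ := by
  have hF := glue i1 i2 i3
  set F : ℂ → ℂ := fun w => if ‖w‖ ≤ 1 then s w else v w with hFdef
  have hz₁b : z₁ ∈ ball z₁ ρ := mem_ball_self hρ
  have hF1 : F z₁ = s z₁ := by simp [hFdef, hz₁]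
  have hh1 : D.h z₁ ≠ 0 := fun h => hzE ((D.h_zero z₁ hz₁.le).1 h)
  have hFc : ContinuousAt F z₁ := (hF.differentiableAt (isOpen_ball.mem_nhds hz₁b)).continuousAt
  have hhc : ContinuousAt D.h z₁ := (i6.differentiableAt (isOpen_ball.mem_nhds hz₁b)).continuousAt
  have hgc : ContinuousAt (fun w => mk w (F w)) z₁ :=
    mkL.continuous.continuousAt.comp (continuousAt_id.prodMk hFc)
  have e1 : ∀ᶠ w in 𝓝 z₁, mk w (F w) ∈ U := by
    apply hgc.eventually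
    have : U ∈ 𝓝 (mk z₁ (F z₁)) := by rw [hF1]; exact hU.mem_nhds i7
    exact this
  have e2 : ∀ᶠ w in 𝓝 z₁, D.h w ≠ 0 := hhc.eventually_ne hh1
  obtain ⟨r₀, hr₀, hr₀'⟩ := Metric.eventually_nhds_iff_ball.1 (e1.and e2)
  refine ⟨min r₀ ρ, lt_min hr₀ hρ, min_le_right _ _, fun w hw =>
    hr₀' w (ball_subset_ball (min_le_left _ _) hw), ?_⟩
  set r := min r₀ ρ with hr
  have hbρ : ball z₁ r ⊆ ball z₁ ρ := ball_subset_ball (min_le_right _ _)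
  have hFr : DifferentiableOn ℂ F (ball z₁ r) := hF.mono hbρ
  have hhr : DifferentiableOn ℂ D.h (ball z₁ r) := i6.mono hbρ
  -- the separating neighbourhood
  set W : Set C2 := U ∩ (pr1 ⁻¹' (ball z₁ r) ∩
    (fun p : C2 => ‖D.h (pr1 p)‖ - ‖pr2 p - F (pr1 p)‖) ⁻¹' Ioi 0) with hW
  have hWo : IsOpen W := by
    apply hU.inter
    apply ContinuousOn.isOpen_inter_preimage _ (isOpen_ball.preimage pr1.continuous) isOpen_Ioi
    have c1 : ContinuousOn (fun p : C2 => D.h (pr1 p)) (pr1 ⁻¹' (ball z₁ r)) :=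
      hhr.continuousOn.comp pr1.continuous.continuousOn (fun p hp => hp)
    have c2 : ContinuousOn (fun p : C2 => F (pr1 p)) (pr1 ⁻¹' (ball z₁ r)) :=
      hFr.continuousOn.comp pr1.continuous.continuousOn (fun p hp => hp)
    exact c1.norm.sub (pr2.continuous.continuousOn.sub c2).norm
  have hWU : W ⊆ U := inter_subset_left
  intro w₁ hw₁ w₂ hw₂ hn
  refine constancy_ball hWo (hT.mono hWU) (fun η hη => hcl η (hη.mono hWU))
    (c := z₁) (R := r) (f := F) ((hFr.contDiffOn isOpen_ball).restrict_scalars ℝ) ?_ ?_ hw₁ hw₂ hn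
  · intro w hw
    obtain ⟨h1, h2⟩ := hr₀' w (ball_subset_ball (min_le_left _ _) hw)
    refine ⟨h1, hw, ?_⟩
    simp only [mem_preimage, pr1_mk, pr2_mk, sub_self, norm_zero, sub_zero, mem_Ioi]
    exact norm_pos_iff.2 h2
  · intro p hp hpW hpb
    have hsep : ‖pr2 p - F (pr1 p)‖ < ‖D.h (pr1 p)‖ := by
      have := hpW.2.2
      simp only [mem_preimage, mem_Ioi] at this
      linarith
    rcases D.spt_desc (hsub ⟨hp, hpW.1⟩) with ⟨h1, h2⟩ | ⟨h1, h2⟩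
    · have hFs : F (pr1 p) = s (pr1 p) := if_pos h1
      rw [hFs] at hsep ⊢
      obtain ⟨j1, j2⟩ := i4 (pr1 p) h1
      rcases h2 with h2 | h2
      · rw [h2] at hsep ⊢
        rcases j1 with j | j
        · exact j
        · exact absurd hsep (by rw [j]; exact lt_irrefl _)
      · rw [h2] at hsep ⊢
        rcases j2 with j | j
        · exact j
        · exact absurd hsep (by rw [j]; exact lt_irrefl _)
    · have hFv : F (pr1 p) = v (pr1 p) := by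
        by_cases h3 : ‖pr1 p‖ ≤ 1
        · rw [hFdef]
          simp only [h3, if_true]
          exact (i3 _ (hbρ hpb) (le_antisymm h3 h1)).1
        · exact if_neg h3
      rw [hFv] at hsep ⊢
      rw [h2] at hsep ⊢
      rcases i5 (pr1 p) with j | j
      · exact j
      · exact absurd hsep (by rw [j]; exact lt_irrefl _)

/-- a sheet which ends at the circle near `z₁` is not charged near `z₁` -/
lemma local_end {s s' v v' : ℂ → ℂ} {z₁ : ℂ} {ρ : ℝ} (hρ : 0 < ρ)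
    (i1 : ∀ w ∈ ball z₁ ρ, ‖w‖ ≤ 1 → HasDerivWithinAt s (s' w) {w | ‖w‖ ≤ 1} w)
    (i2 : ∀ w ∈ ball z₁ ρ, 1 ≤ ‖w‖ → HasDerivWithinAt v (v' w) {w | 1 ≤ ‖w‖} w)
    (i3 : ∀ w ∈ ball z₁ ρ, ‖w‖ = 1 → s w = v w ∧ s' w = v' w)
    (i4 : ∀ w : ℂ, ‖w‖ ≤ 1 → (D.B w = s w ∨ ‖D.B w - s w‖ = ‖D.h w‖) ∧
      (D.B w - D.h w = s w ∨ ‖D.B w - D.h w - s w‖ = ‖D.h w‖))
    (i5 : ∀ w : ℂ, ‖D.g w - v w‖ = ‖D.h w‖)
    (i6 : DifferentiableOn ℂ D.h (ball z₁ ρ)) (hz₁ : ‖z₁‖ = 1) (hzE : z₁ ∉ D.E)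
    (i7 : mk z₁ (s z₁) ∈ U) :
    ∃ r > 0, ∀ w ∈ ball z₁ r, ‖w‖ ≤ 1 → mk w (s w) ∉ spt T₁ := by
  obtain ⟨r, hr, -, h1, h2⟩ := D.local_switch hU hT hcl hsub hρ i1 i2 i3 i4
    (fun w => Or.inr (i5 w)) i6 hz₁ hzE i7
  refine ⟨r, hr, ?_⟩
  intro w hw hw1
  set w₁ : ℂ := ((1 + r / 2 : ℝ) : ℂ) * z₁ with hw₁
  have hn1 : ‖w₁‖ = 1 + r / 2 := by
    rw [hw₁, norm_mul, hz₁, mul_one, Complex.norm_real, Real.norm_eq_abs,
      abs_of_pos (by linarith)]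
  have hw₁b : w₁ ∈ ball z₁ r := by
    have : w₁ - z₁ = ((r / 2 : ℝ) : ℂ) * z₁ := by rw [hw₁]; push_cast; ring
    rw [mem_ball, dist_eq_norm, this, norm_mul, hz₁, mul_one, Complex.norm_real,
      Real.norm_eq_abs, abs_of_pos (by linarith)]
    linarith
  have hw₁n : ¬ ‖w₁‖ ≤ 1 := by rw [hn1]; linarith
  have h3 : mk w₁ (if ‖w₁‖ ≤ 1 then s w₁ else v w₁) ∉ spt T₁ := by
    obtain ⟨h4, h5⟩ := h1 w₁ hw₁b
    rw [if_neg hw₁n] at h4 ⊢
    intro h6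
    rcases D.spt_desc (hsub ⟨h6, h4⟩) with ⟨h7, -⟩ | ⟨-, h7⟩
    · exact hw₁n h7
    · simp only [pr1_mk, pr2_mk] at h7
      have := i5 w₁
      rw [h7, sub_self, norm_zero] at this
      exact h5 (norm_eq_zero.1 this.symm)
  have h8 := h2 w₁ hw₁b w hw h3
  rwa [if_pos hw1] at h8

end Local

end Data

end BdrySing
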