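import Pool.Agent.BdrySing.NonCross

open Set MeasureTheory Metric Module Filter Topology
open scoped ContDiff RealInnerProductSpace Manifold ENNReal

noncomputable section

namespace BdrySing

namespace Data

variable (D : Data)

lemma deriv_h_eq {w : ℂ} (hw : ‖w‖ = 1) (hd : DifferentiableAt ℂ D.h w) :
    deriv D.h w = D.h' w :=
  (uniqueDiff_disc hw.le).eq_deriv _ hd.hasDerivAt.hasDerivWithinAt (D.hh w hw.le)

lemma radius_N {z₁ : ℂ} (hN : z₁ ∈ D.N) : ∃ ρ > 0, (∀ w : ℂ, ‖w‖ = 1 → w ∈ ball z₁ ρ → w ∈ D.N) ∧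
    DifferentiableOn ℂ D.h (ball z₁ ρ) := by
  obtain ⟨ρ₁, h1, h2⟩ := D.N_open z₁ hN
  obtain ⟨ρ₂, h3, h4⟩ := D.h_diff z₁ (D.N_sub z₁ hN) (D.N_E z₁ hN)
  exact ⟨min ρ₁ ρ₂, lt_min h1 h3, fun w hw hwb => h2 w hw (lt_of_lt_of_le hwb (min_le_left _ _)),
    h4.mono (ball_subset_ball (min_le_right _ _))⟩

lemma radius_M {z₁ : ℂ} (h1 : ‖z₁‖ = 1) (hN : z₁ ∉ D.N) (hE : z₁ ∉ D.E) :
    ∃ ρ > 0, (∀ w : ℂ, ‖w‖ = 1 → w ∈ ball z₁ ρ → w ∉ D.N) ∧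
      DifferentiableOn ℂ D.h (ball z₁ ρ) := by
  obtain ⟨ρ₁, h1', h2⟩ := D.M_open z₁ h1 hN hE
  obtain ⟨ρ₂, h3, h4⟩ := D.h_diff z₁ h1 hE
  exact ⟨min ρ₁ ρ₂, lt_min h1' h3, fun w hw hwb => h2 w hw (lt_of_lt_of_le hwb (min_le_left _ _)),
    h4.mono (ball_subset_ball (min_le_right _ _))⟩

lemma i4_B : ∀ w : ℂ, ‖w‖ ≤ 1 → (D.B w = D.B w ∨ ‖D.B w - D.B w‖ = ‖D.h w‖) ∧
    (D.B w - D.h w = D.B w ∨ ‖D.B w - D.h w - D.B w‖ = ‖D.h w‖) := by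
  intro w _
  refine ⟨Or.inl rfl, Or.inr ?_⟩
  have : D.B w - D.h w - D.B w = - D.h w := by ring
  rw [this, norm_neg]

lemma i4_Bh : ∀ w : ℂ, ‖w‖ ≤ 1 →
    (D.B w = D.B w - D.h w ∨ ‖D.B w - (D.B w - D.h w)‖ = ‖D.h w‖) ∧
    (D.B w - D.h w = D.B w - D.h w ∨ ‖D.B w - D.h w - (D.B w - D.h w)‖ = ‖D.h w‖) := by
  intro w _
  refine ⟨Or.inr ?_, Or.inl rfl⟩
  have : D.B w - (D.B w - D.h w) = D.h w := by ring
  rw [this]

section Local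

variable {U : Set C2} (hU : IsOpen U) {T₁ : Form C2 2 → ℝ} (hT : IsCurrent U T₁)
  (hcl : ∀ η : Form C2 1, IsTest U η → T₁ (extDeriv η) = 0) (hsub : spt T₁ ∩ U ⊆ spt D.T)

include hU hT hcl hsub

lemma N_B {z₁ : ℂ} (hN : z₁ ∈ D.N) (hzU : mk z₁ (D.B z₁) ∈ U) :
    ∃ r > 0, ∀ w ∈ ball z₁ r, ‖w‖ ≤ 1 → mk w (D.B w) ∉ spt T₁ := by
  obtain ⟨ρ, hρ, h1, h2⟩ := D.radius_N hN
  refine D.local_end hU hT hcl hsub (s := D.B) (s' := D.B') (v := fun w => D.g w + D.h w)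
    (v' := fun w => D.g' w + deriv D.h w) hρ ?_ ?_ ?_ D.i4_B ?_ h2 (D.N_sub z₁ hN)
    (D.N_E z₁ hN) hzU
  · intro w _ hw
    exact D.hB w hw
  · intro w hwb hw
    exact (D.hg w hw).add
      (h2.differentiableAt (isOpen_ball.mem_nhds hwb)).hasDerivAt.hasDerivWithinAt
  · intro w hwb hw
    obtain ⟨h3, h4⟩ := D.rel_N w (h1 w hw hwb)
    rw [D.deriv_h_eq hw (h2.differentiableAt (isOpen_ball.mem_nhds hwb))]
    exact ⟨by rw [← h3]; ring, by rw [← h4]; ring⟩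
  · intro w
    have : D.g w - (D.g w + D.h w) = - D.h w := by ring
    rw [this, norm_neg]

lemma N_Bh {z₁ : ℂ} (hN : z₁ ∈ D.N) (hzU : mk z₁ (D.B z₁ - D.h z₁) ∈ U) :
    ∃ r > 0, ∀ w₁ ∈ ball z₁ r, ∀ w₂ ∈ ball z₁ r,
        mk w₁ (if ‖w₁‖ ≤ 1 then D.B w₁ - D.h w₁ else D.g w₁) ∉ spt T₁ →
        mk w₂ (if ‖w₂‖ ≤ 1 then D.B w₂ - D.h w₂ else D.g w₂) ∉ spt T₁ := by
  obtain ⟨ρ, hρ, h1, h2⟩ := D.radius_N hN
  obtain ⟨r, hr, -, -, h3⟩ := D.local_switch hU hT hcl hsub (s := fun w => D.B w - D.h w)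
    (s' := fun w => D.B' w - D.h' w) (v := D.g) (v' := D.g') hρ
    (by
      intro w _ hw
      exact (D.hB w hw).sub (D.hh w hw))
    (by
      intro w _ hw
      exact D.hg w hw)
    (by
      intro w hwb hw
      obtain ⟨h3, h4⟩ := D.rel_N w (h1 w hw hwb)
      exact ⟨by rw [← h3]; ring, by rw [← h4]; ring⟩)
    D.i4_Bh (fun w => Or.inl rfl) h2 (D.N_sub z₁ hN) (D.N_E z₁ hN) hzU
  exact ⟨r, hr, h3⟩

lemma M_B {z₁ : ℂ} (hz : ‖z₁‖ = 1) (hN : z₁ ∉ D.N) (hE : z₁ ∉ D.E)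
    (hzU : mk z₁ (D.B z₁) ∈ U) :
    ∃ r > 0, ∀ w₁ ∈ ball z₁ r, ∀ w₂ ∈ ball z₁ r,
        mk w₁ (if ‖w₁‖ ≤ 1 then D.B w₁ else D.g w₁) ∉ spt T₁ →
        mk w₂ (if ‖w₂‖ ≤ 1 then D.B w₂ else D.g w₂) ∉ spt T₁ := by
  obtain ⟨ρ, hρ, h1, h2⟩ := D.radius_M hz hN hE
  obtain ⟨r, hr, -, -, h3⟩ := D.local_switch hU hT hcl hsub (s := D.B)
    (s' := D.B') (v := D.g) (v' := D.g') hρ
    (by
      intro w _ hw
      exact D.hB w hw)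
    (by
      intro w _ hw
      exact D.hg w hw)
    (by
      intro w hwb hw
      exact D.rel_M w hw (h1 w hw hwb))
    D.i4_B (fun w => Or.inl rfl) h2 hz hE hzU
  exact ⟨r, hr, h3⟩

lemma M_Bh {z₁ : ℂ} (hz : ‖z₁‖ = 1) (hN : z₁ ∉ D.N) (hE : z₁ ∉ D.E)
    (hzU : mk z₁ (D.B z₁ - D.h z₁) ∈ U) :
    ∃ r > 0, ∀ w ∈ ball z₁ r, ‖w‖ ≤ 1 → mk w (D.B w - D.h w) ∉ spt T₁ := by
  obtain ⟨ρ, hρ, h1, h2⟩ := D.radius_M hz hN hE
  refine D.local_end hU hT hcl hsub (s := fun w => D.B w - D.h w)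
    (s' := fun w => D.B' w - D.h' w) (v := fun w => D.g w - D.h w)
    (v' := fun w => D.g' w - deriv D.h w) hρ ?_ ?_ ?_ D.i4_Bh ?_ h2 hz hE hzU
  · intro w _ hw
    exact (D.hB w hw).sub (D.hh w hw)
  · intro w hwb hw
    exact (D.hg w hw).sub
      (h2.differentiableAt (isOpen_ball.mem_nhds hwb)).hasDerivAt.hasDerivWithinAt
  · intro w hwb hw
    obtain ⟨h3, h4⟩ := D.rel_M w hw (h1 w hw hwb)
    rw [D.deriv_h_eq hw (h2.differentiableAt (isOpen_ball.mem_nhds hwb)), h3, h4]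
    exact ⟨rfl, rfl⟩
  · intro w
    have : D.g w - (D.g w - D.h w) = D.h w := by ring
    rw [this]

/-- propagation along a sheet inside the disc -/
lemma inner_all {s : ℂ → ℂ} {z₀ : ℂ} {δ : ℝ}
    (hs : DifferentiableOn ℂ s (ball 0 1))
    (i4 : ∀ w : ℂ, ‖w‖ ≤ 1 → (D.B w = s w ∨ ‖D.B w - s w‖ = ‖D.h w‖) ∧
      (D.B w - D.h w = s w ∨ ‖D.B w - D.h w - s w‖ = ‖D.h w‖))
    (hgr : ∀ w ∈ ball z₀ δ, ‖w‖ ≤ 1 → mk w (s w) ∈ U) {w₁ w₂ : ℂ}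
    (h₁ : w₁ ∈ ball z₀ δ) (h₁' : ‖w₁‖ < 1) (h₂ : w₂ ∈ ball z₀ δ) (h₂' : ‖w₂‖ < 1)
    (hn : mk w₁ (s w₁) ∉ spt T₁) : mk w₂ (s w₂) ∉ spt T₁ := by
  set Din : Set ℂ := ball z₀ δ ∩ ball 0 1 with hDin
  have hDo : IsOpen Din := isOpen_ball.inter isOpen_ball
  have hDc : IsPreconnected Din := ((convex_ball z₀ δ).inter (convex_ball 0 1)).isPreconnected
  have hnorm : ∀ w ∈ Din, ‖w‖ < 1 := fun w hw => by simpa using hw.2
  have hh : DifferentiableOn ℂ D.h (ball 0 1) := fun z hz =>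
    ((D.hh z (by simpa using le_of_lt (by simpa using hz))).hasDerivAt
      (nhds_lt (by simpa using hz))).differentiableAt.differentiableWithinAt
  set W : Set C2 := U ∩ (pr1 ⁻¹' Din ∩
    (fun p : C2 => ‖D.h (pr1 p)‖ - ‖pr2 p - s (pr1 p)‖) ⁻¹' Ioi 0) with hW
  have hWo : IsOpen W := by
    apply hU.inter
    apply ContinuousOn.isOpen_inter_preimage _ (hDo.preimage pr1.continuous) isOpen_Ioi
    have c1 : ContinuousOn (fun p : C2 => D.h (pr1 p)) (pr1 ⁻¹' Din) :=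
      hh.continuousOn.comp pr1.continuous.continuousOn (fun p hp => hp.2)
    have c2 : ContinuousOn (fun p : C2 => s (pr1 p)) (pr1 ⁻¹' Din) :=
      hs.continuousOn.comp pr1.continuous.continuousOn (fun p hp => hp.2)
    exact c1.norm.sub (pr2.continuous.continuousOn.sub c2).norm
  have hWU : W ⊆ U := inter_subset_left
  refine constancy_connected hWo (hT.mono hWU) (fun η hη => hcl η (hη.mono hWU)) hDo hDc
    (f := s) (((hs.mono inter_subset_right).contDiffOn hDo).restrict_scalars ℝ) ?_ ?_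
    (z₁ := w₁) (z₂ := w₂) ⟨h₁, by simpa using h₁'⟩ ⟨h₂, by simpa using h₂'⟩ hn
  · intro w hw
    refine ⟨hgr w hw.1 (hnorm w hw).le, hw, ?_⟩
    simp only [mem_preimage, pr1_mk, pr2_mk, sub_self, norm_zero, sub_zero, mem_Ioi]
    apply norm_pos_iff.2
    intro h0
    have := D.E_sub w ((D.h_zero w (hnorm w hw).le).1 h0)
    linarith [hnorm w hw]
  · intro p hp hpW hpb
    have hsep : ‖pr2 p - s (pr1 p)‖ < ‖D.h (pr1 p)‖ := by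
      have := hpW.2.2
      simp only [mem_preimage, mem_Ioi] at this
      linarith
    have hlt := hnorm _ hpb
    rcases D.spt_desc (hsub ⟨hp, hpW.1⟩) with ⟨h1, h2⟩ | ⟨h1, h2⟩
    · obtain ⟨j1, j2⟩ := i4 (pr1 p) h1
      rcases h2 with h2 | h2
      · rw [h2] at hsep ⊢
        rcases j1 with j | j
        · exact j
        · exact absurd hsep (by rw [j]; exact lt_irrefl _)
      · rw [h2] at hsep ⊢
        rcases j2 with j | j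
        · exact j
        · exact absurd hsep (by rw [j]; exact lt_irrefl _)
    · linarith

/-- propagation along the outer sheet -/
lemma outer_all {z₀ : ℂ} (hz₀ : ‖z₀‖ = 1) {δ : ℝ} (hδ : 0 < δ) (hδ2 : δ ≤ 1 / 2)
    (hgr : ∀ w ∈ ball z₀ δ, 1 ≤ ‖w‖ → mk w (D.g w) ∈ U) {w₁ w₂ : ℂ}
    (h₁ : w₁ ∈ ball z₀ δ) (h₁' : 1 < ‖w₁‖) (h₂ : w₂ ∈ ball z₀ δ) (h₂' : 1 < ‖w₂‖)
    (hn : mk w₁ (D.g w₁) ∉ spt T₁) : mk w₂ (D.g w₂) ∉ spt T₁ := by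
  have hDo : IsOpen (ball z₀ δ ∩ {z : ℂ | 1 < ‖z‖}) :=
    isOpen_ball.inter (isOpen_lt continuous_const continuous_norm)
  have hgd : DifferentiableOn ℂ D.g (ball z₀ δ ∩ {z : ℂ | 1 < ‖z‖}) := fun z hz =>
    ((D.hg z (le_of_lt hz.2)).hasDerivAt (nhds_gt hz.2)).differentiableAt.differentiableWithinAt
  refine constancy_connected hU hT hcl hDo (outer_preconnected hz₀ hδ hδ2)
    (f := D.g) ((hgd.contDiffOn hDo).restrict_scalars ℝ) ?_ ?_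
    (z₁ := w₁) (z₂ := w₂) ⟨h₁, h₁'⟩ ⟨h₂, h₂'⟩ hn
  · intro w hw
    exact hgr w hw.1 (le_of_lt hw.2)
  · intro p hp hpU hpb
    have hlt : 1 < ‖pr1 p‖ := hpb.2
    rcases D.spt_desc (hsub ⟨hp, hpU⟩) with ⟨h1, h2⟩ | ⟨h1, h2⟩
    · linarith
    · exact h2

end Local

end Data

end BdrySing
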