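import Pool.Agent.BdrySing.Support

open Set MeasureTheory Metric Module Filter Topology
open scoped ContDiff RealInnerProductSpace Manifold ENNReal

noncomputable section

namespace BdrySing

lemma finrank_C2 : finrank ℝ C2 = 4 := by
  have e : C2 ≃ₗ[ℝ] ℂ × ℂ := (WithLp.prodContinuousLinearEquiv 2 ℝ ℂ ℂ).toLinearEquiv
  rw [e.finrank_eq, finrank_prod, Complex.finrank_real_complex]

namespace Data

variable (D : Data)

theorem not_regB {T' : Form C2 2 → ℝ} {U₀ : Set C2} (hU₀ : IsOpen U₀) {z₀ : ℂ} (hz₀ : z₀ ∈ D.E)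
    (hx : mk z₀ (D.B z₀) ∈ U₀)
    (h1 : ∀ z : ℂ, ‖z‖ ≤ 1 → mk z (D.B z) ∈ U₀ → mk z (D.B z) ∈ spt T')
    (h2 : ∀ z : ℂ, ‖z‖ ≤ 1 → mk z (D.B z - D.h z) ∈ U₀ → mk z (D.B z - D.h z) ∈ spt T') :
    ¬ RegB T' (mk z₀ (D.B z₀)) := by
  rintro ⟨U, Ξ, hU, hxU, ⟨hΞU, hsurf⟩, hsub⟩
  have hnz : ‖z₀‖ = 1 := D.E_sub z₀ hz₀
  have hz₀ne : z₀ ≠ 0 := by
    intro h
    rw [h] at hnz
    simp at hnz
  have hxΞ : mk z₀ (D.B z₀) ∈ Ξ := hsub ⟨h1 z₀ hnz.le hx, hxU⟩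
  obtain ⟨W, hW, hxW, hWU, F, hF, hsurj, hzero⟩ := hsurf _ hxΞ
  set x₀ : C2 := mk z₀ (D.B z₀) with hx₀
  set O : Set C2 := W ∩ (U₀ ∩ U) with hO
  have hOo : IsOpen O := hW.inter (hU₀.inter hU)
  have hxO : x₀ ∈ O := ⟨hxW, hx, hxU⟩
  have hF0 : ∀ p ∈ O, p ∈ spt T' → F p = 0 := by
    intro p hp hps
    have h3 : p ∈ Ξ ∩ W := ⟨hsub ⟨hps, hp.2.2⟩, hp.1⟩
    rw [hzero] at h3
    exact h3.2
  set L : C2 →L[ℝ] EuclideanSpace ℝ (Fin (finrank ℝ C2 - 2)) := fderiv ℝ F x₀ with hL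
  have hstrict : HasStrictFDerivAt F L x₀ :=
    (hF.contDiffAt (hW.mem_nhds hxW)).hasStrictFDerivAt (by simp)
  have tang : ∀ u₀ : ℂ, (∀ s ∈ Icc (0 : ℝ) 1, ‖z₀ + s * u₀‖ ≤ 1) →
      L (mk u₀ (D.B' z₀ * u₀)) = 0 := by
    intro u₀ hu₀
    have hc1 : HasDerivWithinAt (fun s : ℝ => z₀ + s * u₀) u₀ (Icc 0 1) 0 := by
      have h3 : HasDerivAt (fun s : ℝ => z₀ + s * u₀) (1 * u₀) 0 :=
        ((HasDerivAt.ofReal_comp (hasDerivAt_id (0 : ℝ))).mul_const u₀).const_add z₀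
      rw [one_mul] at h3
      exact h3.hasDerivWithinAt
    have hB0 := D.hB z₀ hnz.le
    have e0 : (fun s : ℝ => z₀ + s * u₀) 0 = z₀ := by simp
    have hc2 : HasDerivWithinAt (fun s : ℝ => D.B (z₀ + s * u₀)) (D.B' z₀ * u₀) (Icc 0 1) 0 := by
      have h4 : HasDerivWithinAt D.B (D.B' z₀) {w : ℂ | ‖w‖ ≤ 1} ((fun s : ℝ => z₀ + s * u₀) 0) := by
        rw [e0]; exact hB0
      have h3 := (h4.hasFDerivWithinAt.restrictScalars ℝ).comp_hasDerivWithinAt (0 : ℝ) hc1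
        (fun s hs => hu₀ s hs)
      refine h3.congr_deriv ?_
      simp [mul_comm]
    have hc : HasDerivWithinAt (fun s : ℝ => mk (z₀ + s * u₀) (D.B (z₀ + s * u₀)))
        (mk u₀ (D.B' z₀ * u₀)) (Icc 0 1) 0 :=
      mkL.hasFDerivAt.comp_hasDerivWithinAt (0 : ℝ) (hc1.prodMk hc2)
    have e1 : (fun s : ℝ => mk (z₀ + s * u₀) (D.B (z₀ + s * u₀))) 0 = x₀ := by
      simp [hx₀]
    have hFc : HasDerivWithinAt (fun s : ℝ => F (mk (z₀ + s * u₀) (D.B (z₀ + s * u₀))))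
        (L (mk u₀ (D.B' z₀ * u₀))) (Icc 0 1) 0 := by
      have h5 : HasFDerivAt F L ((fun s : ℝ => mk (z₀ + s * u₀) (D.B (z₀ + s * u₀))) 0) := by
        rw [e1]; exact hstrict.hasFDerivAt
      exact h5.comp_hasDerivWithinAt (0 : ℝ) hc
    have hz : (fun s : ℝ => F (mk (z₀ + s * u₀) (D.B (z₀ + s * u₀)))) =ᶠ[𝓝[Icc 0 1] 0]
        fun _ => 0 := by
      have h6 : ∀ᶠ s : ℝ in 𝓝[Icc 0 1] 0, mk (z₀ + s * u₀) (D.B (z₀ + s * u₀)) ∈ O := by
        apply hc.continuousWithinAt.eventually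
        have : O ∈ 𝓝 ((fun s : ℝ => mk (z₀ + s * u₀) (D.B (z₀ + s * u₀))) 0) := by
          rw [e1]; exact hOo.mem_nhds hxO
        exact this
      filter_upwards [h6, self_mem_nhdsWithin] with s hs hs01
      exact hF0 _ hs (h1 _ (hu₀ s hs01) hs.2.1)
    have h7 : HasDerivWithinAt (fun s : ℝ => F (mk (z₀ + s * u₀) (D.B (z₀ + s * u₀))))
        0 (Icc 0 1) 0 :=
      (hasDerivWithinAt_const (0 : ℝ) (Icc (0 : ℝ) 1) (0 : EuclideanSpace ℝ
        (Fin (finrank ℝ C2 - 2)))).congr_of_eventuallyEq hz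
        (hz.self_of_nhdsWithin (by simp))
    exact (uniqueDiffOn_Icc (zero_lt_one) (0 : ℝ) (by simp)).eq_deriv _ hFc h7
  have tangAll : ∀ u : ℂ, L (mk u (D.B' z₀ * u)) = 0 := by
    intro u
    have t1 := tang (-z₀) (by
      intro s hs
      have : z₀ + s * -z₀ = ((1 - s : ℝ) : ℂ) * z₀ := by push_cast; ring
      rw [this, norm_mul, hnz, mul_one, Complex.norm_real, Real.norm_eq_abs,
        abs_of_nonneg (by linarith [hs.2])]
      linarith [hs.1])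
    have t2 := tang (z₀ * (-1 + Complex.I)) (by
      intro s hs
      have : z₀ + s * (z₀ * (-1 + Complex.I)) = z₀ * (((1 - s : ℝ) : ℂ) + (s : ℝ) * Complex.I) := by
        push_cast; ring
      rw [this, norm_mul, hnz, one_mul]
      have h3 : ‖((1 - s : ℝ) : ℂ) + (s : ℝ) * Complex.I‖ ^ 2 = (1 - s) ^ 2 + s ^ 2 := by
        rw [Complex.sq_norm, Complex.normSq_add_mul_I]
      have h4 : ‖((1 - s : ℝ) : ℂ) + (s : ℝ) * Complex.I‖ ^ 2 ≤ 1 := by
        rw [h3]; nlinarith [hs.1, hs.2]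
      exact (sq_le_one_iff₀ (norm_nonneg _)).1 h4)
    have e : u = (-(u / z₀).re - (u / z₀).im) • (-z₀) + (u / z₀).im • (z₀ * (-1 + Complex.I)) := by
      have h3 : u = z₀ * (((u / z₀).re : ℂ) + ((u / z₀).im : ℂ) * Complex.I) := by
        rw [Complex.re_add_im]
        field_simp
      conv_lhs => rw [h3]
      simp only [Complex.real_smul]
      push_cast
      ring
    have e2 : mk u (D.B' z₀ * u) = (-(u / z₀).re - (u / z₀).im) • mk (-z₀) (D.B' z₀ * (-z₀)) +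
        (u / z₀).im • mk (z₀ * (-1 + Complex.I)) (D.B' z₀ * (z₀ * (-1 + Complex.I))) := by
      rw [smul_mk, smul_mk, mk_add, ← e]
      congr 1
      conv_lhs => rw [e]
      simp only [Complex.real_smul]
      ring
    rw [e2, map_add, map_smul, map_smul, t1, t2, smul_zero, smul_zero, add_zero]
  set Lv : ℂ →ₗ[ℝ] EuclideanSpace ℝ (Fin (finrank ℝ C2 - 2)) :=
    (L.comp vert).toLinearMap with hLv
  have hsv : Function.Surjective Lv := by
    intro y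
    obtain ⟨p, hp⟩ := hsurj x₀ hxW y
    refine ⟨pr2 p - D.B' z₀ * pr1 p, ?_⟩
    have h3 : p = mk (pr1 p) (D.B' z₀ * pr1 p) + vert (pr2 p - D.B' z₀ * pr1 p) := by
      apply C2.ext <;> simp [vert_apply]
    have h4 : L p = L (vert (pr2 p - D.B' z₀ * pr1 p)) := by
      conv_lhs => rw [h3]
      rw [map_add, tangAll, zero_add]
    rw [← hp]
    exact h4.symm
  have hinj : Function.Injective Lv := by
    rw [LinearMap.injective_iff_surjective_of_finrank_eq_finrank]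
    · exact hsv
    · rw [Complex.finrank_real_complex, finrank_euclideanSpace_fin, finrank_C2]
  obtain ⟨K, hK, hanti⟩ := LinearMap.exists_antilipschitzWith Lv
    (LinearMap.ker_eq_bot.2 hinj)
  have hbd : ∀ v : ℂ, ‖v‖ ≤ K * ‖L (vert v)‖ := by
    intro v
    have := hanti.le_mul_dist v 0
    simpa [hLv, dist_zero_right] using this
  -- pairs of points of the two sheets
  have hK' : (0 : ℝ) < K := by exact_mod_cast hK
  have hlo := hstrict.isLittleO.def (c := 1 / (2 * K)) (by positivity)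
  set l : Filter ℂ := 𝓝[{z : ℂ | ‖z‖ < 1}] z₀ with hl
  have hne : l.NeBot := by
    rw [hl, ← mem_closure_iff_nhdsWithin_neBot]
    have h3 : {z : ℂ | ‖z‖ < 1} = ball 0 1 := by
      ext z; simp
    rw [h3, closure_ball (0 : ℂ) one_ne_zero]
    simp [hnz]
  have hle : l ≤ 𝓝[{z : ℂ | ‖z‖ ≤ 1}] z₀ := nhdsWithin_mono _ (fun z (hz : ‖z‖ < 1) => hz.le)
  have hh0 : D.h z₀ = 0 := (D.h_zero z₀ hnz.le).2 hz₀
  have tz : Tendsto (fun z : ℂ => z) l (𝓝 z₀) := tendsto_id.mono_left nhdsWithin_le_nhds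
  have tB : Tendsto D.B l (𝓝 (D.B z₀)) :=
    (D.contB z₀ hnz.le).tendsto.mono_left hle
  have th : Tendsto D.h l (𝓝 0) := by
    have := (D.conth z₀ hnz.le).tendsto.mono_left hle
    rwa [hh0] at this
  have tp : Tendsto (fun z => mk z (D.B z)) l (𝓝 x₀) :=
    (mkL.continuous.tendsto (z₀, D.B z₀)).comp (tz.prodMk_nhds tB)
  have tq : Tendsto (fun z => mk z (D.B z - D.h z)) l (𝓝 x₀) := by
    have h3 : Tendsto (fun z => D.B z - D.h z) l (𝓝 (D.B z₀)) := by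
      have := tB.sub th
      rwa [sub_zero] at this
    exact (mkL.continuous.tendsto (z₀, D.B z₀)).comp (tz.prodMk_nhds h3)
  have hev := (tp.prodMk_nhds tq).eventually hlo
  have hevp := tp.eventually (hOo.mem_nhds hxO)
  have hevq := tq.eventually (hOo.mem_nhds hxO)
  have hevn : ∀ᶠ z in l, ‖z‖ < 1 := self_mem_nhdsWithin
  obtain ⟨z, ⟨⟨hz1, hz2⟩, hz3⟩, hz4⟩ := (((hev.and hevp).and hevq).and hevn).exists
  have f1 : F (mk z (D.B z)) = 0 := hF0 _ hz2 (h1 z hz4.le hz2.2.1)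
  have f2 : F (mk z (D.B z - D.h z)) = 0 := hF0 _ hz3 (h2 z hz4.le hz3.2.1)
  have hdiff : mk z (D.B z) - mk z (D.B z - D.h z) = vert (D.h z) := by
    rw [mk_sub, vert_apply]
    congr 1 <;> ring
  simp only [f1, f2, hdiff, sub_self, zero_sub, norm_neg] at hz1
  have h5 := hbd (D.h z)
  have h6 : ‖vert (D.h z)‖ = ‖D.h z‖ := by
    have h7 := norm_sq_C2 (vert (D.h z))
    rw [vert_apply] at h7 ⊢
    simp only [pr1_mk, pr2_mk, norm_zero] at h7
    have h8 : ‖mk 0 (D.h z)‖ ^ 2 = ‖D.h z‖ ^ 2 := by rw [h7]; ring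
    exact (sq_eq_sq₀ (norm_nonneg _) (norm_nonneg _)).1 h8
  rw [h6] at hz1
  have h9 : ‖D.h z‖ ≤ ‖D.h z‖ / 2 := by
    refine h5.trans ((mul_le_mul_of_nonneg_left hz1 hK'.le).trans (le_of_eq ?_))
    field_simp
  have h10 : D.h z = 0 := by
    have : ‖D.h z‖ ≤ 0 := by linarith
    exact norm_le_zero_iff.1 this
  have h11 := D.E_sub z ((D.h_zero z hz4.le).1 h10)
  linarith

theorem not_regB_T {z₀ : ℂ} (hz₀ : z₀ ∈ D.E) : ¬ RegB D.T (mk z₀ (D.B z₀)) :=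
  D.not_regB isOpen_univ hz₀ (mem_univ _) (fun _ hz _ => D.mem_spt_B hz)
    (fun _ hz _ => D.mem_spt_Bh hz)

end Data

end BdrySing
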