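import Pool.Agent.BdrySing.Fourier

open Set Metric Filter Topology MeasureTheory
open scoped ENNReal ContDiff

noncomputable section

namespace BdrySing

/-- power series -/
def PS (b : ℕ → ℂ) (z : ℂ) : ℂ := ∑' n, b n * z ^ n

/-- derivative of a power series -/
def PS1 (b : ℕ → ℂ) (z : ℂ) : ℂ := ∑' n : ℕ, b n * (n * z ^ (n - 1))

lemma RD.summable_norm {b : ℕ → ℂ} (hb : RD b) (k : ℕ) :
    Summable (fun n : ℕ => (n : ℝ) ^ k * ‖b n‖) := by
  refine Summable.of_nonneg_of_le (fun n => by positivity) (fun n => ?_) (hb k)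
  apply mul_le_mul_of_nonneg_right _ (norm_nonneg _)
  exact pow_le_pow_left₀ (by positivity) (by linarith) k

lemma pow_taylor (z w : ℂ) (hz : ‖z‖ ≤ 1) (hw : ‖w‖ ≤ 1) (n : ℕ) :
    ‖w ^ n - z ^ n - n * z ^ (n - 1) * (w - z)‖ ≤ (n : ℝ) ^ 2 * ‖w - z‖ ^ 2 := by
  induction n with
  | zero => simp
  | succ n ih =>
    have e : w ^ (n + 1) - z ^ (n + 1) - ((n + 1 : ℕ) : ℂ) * z ^ (n + 1 - 1) * (w - z) =
        w * (w ^ n - z ^ n - n * z ^ (n - 1) * (w - z)) + n * z ^ (n - 1) * (w - z) ^ 2 := by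
      rcases n with _ | n
      · simp
      · simp only [Nat.add_sub_cancel]
        push_cast
        ring
    rw [e]
    refine (norm_add_le _ _).trans ?_
    rw [norm_mul, norm_mul, norm_mul, norm_pow, norm_pow, Complex.norm_natCast]
    have h1 : ‖w‖ * ‖w ^ n - z ^ n - n * z ^ (n - 1) * (w - z)‖ ≤ (n : ℝ) ^ 2 * ‖w - z‖ ^ 2 := by
      calc ‖w‖ * ‖w ^ n - z ^ n - n * z ^ (n - 1) * (w - z)‖
          ≤ 1 * ((n : ℝ) ^ 2 * ‖w - z‖ ^ 2) := mul_le_mul hw ih (norm_nonneg _) zero_le_one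
        _ = _ := one_mul _
    have h2 : (n : ℝ) * ‖z‖ ^ (n - 1) * ‖w - z‖ ^ 2 ≤ (n : ℝ) * ‖w - z‖ ^ 2 := by
      apply mul_le_mul_of_nonneg_right _ (by positivity)
      have := pow_le_one₀ (n := n - 1) (norm_nonneg z) hz
      nlinarith [Nat.cast_nonneg (α := ℝ) n]
    push_cast
    nlinarith [sq_nonneg ‖w - z‖, Nat.cast_nonneg (α := ℝ) n,
      mul_nonneg (Nat.cast_nonneg (α := ℝ) n) (sq_nonneg ‖w - z‖)]

lemma PS_summable {b : ℕ → ℂ} (hb : RD b) {z : ℂ} (hz : ‖z‖ ≤ 1) :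
    Summable (fun n => b n * z ^ n) := by
  refine Summable.of_norm_bounded (hb.summable_norm 0) (fun n => ?_)
  rw [norm_mul, norm_pow, pow_zero, one_mul]
  have := pow_le_one₀ (n := n) (norm_nonneg z) hz
  nlinarith [norm_nonneg (b n)]

lemma PS1_bound {b : ℕ → ℂ} {z : ℂ} (hz : ‖z‖ ≤ 1) (n : ℕ) :
    ‖b n * (n * z ^ (n - 1))‖ ≤ (n : ℝ) ^ 1 * ‖b n‖ := by
  rw [norm_mul, norm_mul, norm_pow, Complex.norm_natCast, pow_one]
  have := pow_le_one₀ (n := n - 1) (norm_nonneg z) hz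
  have h2 : (n : ℝ) * ‖z‖ ^ (n - 1) ≤ n := by nlinarith [Nat.cast_nonneg (α := ℝ) n]
  nlinarith [norm_nonneg (b n)]

lemma PS1_summable {b : ℕ → ℂ} (hb : RD b) {z : ℂ} (hz : ‖z‖ ≤ 1) :
    Summable (fun n : ℕ => b n * (n * z ^ (n - 1))) :=
  Summable.of_norm_bounded (hb.summable_norm 1) (fun n => PS1_bound hz n)

lemma PS_deriv {b : ℕ → ℂ} (hb : RD b) {z : ℂ} (hz : ‖z‖ ≤ 1) :
    HasDerivWithinAt (PS b) (PS1 b z) {w | ‖w‖ ≤ 1} z := by
  rw [hasDerivWithinAt_iff_isLittleO]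
  have hC : ∀ w : ℂ, ‖w‖ ≤ 1 → ‖PS b w - PS b z - (w - z) • PS1 b z‖ ≤
      (∑' n : ℕ, (n : ℝ) ^ 2 * ‖b n‖) * ‖w - z‖ ^ 2 := by
    intro w hw
    have e : PS b w - PS b z - (w - z) • PS1 b z =
        ∑' n : ℕ, b n * (w ^ n - z ^ n - n * z ^ (n - 1) * (w - z)) := by
      rw [PS, PS, PS1, smul_eq_mul, ← tsum_mul_left, ← (PS_summable hb hw).tsum_sub
        (PS_summable hb hz), ← ((PS_summable hb hw).sub (PS_summable hb hz)).tsum_sub
        ((PS1_summable hb hz).mul_left _)]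
      congr 1
      funext n
      ring
    rw [e, ← tsum_mul_right]
    have hsum : Summable (fun n : ℕ => (n : ℝ) ^ 2 * ‖b n‖ * ‖w - z‖ ^ 2) :=
      (hb.summable_norm 2).mul_right _
    apply tsum_of_norm_bounded hsum.hasSum
    intro n
    rw [norm_mul]
    have := pow_taylor z w hz hw n
    nlinarith [norm_nonneg (b n)]
  have h1 : (fun w => PS b w - PS b z - (w - z) • PS1 b z) =O[𝓝[{w | ‖w‖ ≤ 1}] z]
      fun w => (w - z) ^ 2 := by
    apply Asymptotics.IsBigO.of_bound (∑' n : ℕ, (n : ℝ) ^ 2 * ‖b n‖)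
    filter_upwards [self_mem_nhdsWithin] with w hw
    rw [norm_pow]
    exact hC w hw
  refine h1.trans_isLittleO ?_
  have h2 : (fun w : ℂ => (w - z) ^ 2) =o[𝓝[{w | ‖w‖ ≤ 1}] z] fun w => (w - z) ^ 1 := by
    have := Asymptotics.isLittleO_pow_pow (𝕜 := ℂ) (m := 1) (n := 2) (by norm_num)
    have ht : Tendsto (fun w : ℂ => w - z) (𝓝[{w | ‖w‖ ≤ 1}] z) (𝓝 0) := by
      have : Tendsto (fun w : ℂ => w - z) (𝓝 z) (𝓝 (z - z)) :=
        tendsto_id.sub tendsto_const_nhds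
      rw [sub_self] at this
      exact this.mono_left nhdsWithin_le_nhds
    exact this.comp_tendsto ht
  simpa using h2

lemma PS1_cont {b : ℕ → ℂ} (hb : RD b) : ContinuousOn (PS1 b) {w | ‖w‖ ≤ 1} := by
  apply continuousOn_tsum (u := fun n : ℕ => (n : ℝ) ^ 1 * ‖b n‖)
  · intro n
    fun_prop
  · exact hb.summable_norm 1
  · intro n z hz
    exact PS1_bound hz n

lemma PS_circle_smooth {b : ℕ → ℂ} (hb : RD b) : ContDiff ℝ ∞ (fun t : ℝ => PS b (ee t)) := by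
  set β : ℕ → ℝ → ℂ := fun j t => ∑' n : ℕ, b n * ((n * Complex.I) ^ j * ee t ^ n) with hβ
  have h : ∀ j t, HasDerivAt (β j) (β (j + 1) t) t := by
    intro j t
    have hsum : ∀ i : ℕ, Summable (fun n : ℕ => (n : ℝ) ^ i * ‖b n‖) := hb.summable_norm
    have hn : ∀ (i n : ℕ) (s : ℝ), ‖b n * ((n * Complex.I) ^ i * ee s ^ n)‖ ≤ (n : ℝ) ^ i * ‖b n‖ := by
      intro i n s
      rw [norm_mul, norm_mul, norm_pow, norm_pow, norm_mul, Complex.norm_I, mul_one, norm_ee,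
        one_pow, mul_one, Complex.norm_natCast, mul_comm]
    refine hasDerivAt_tsum (𝕜 := ℝ) (hsum (j + 1)) ?_ (fun n s => hn (j + 1) n s)
      (y₀ := t) (Summable.of_norm_bounded (hsum j) (fun n => hn j n t)) t
    intro n s
    have h1 : HasDerivAt (fun s : ℝ => ee s ^ n) (n * ee s ^ (n - 1) * (Complex.I * ee s)) s :=
      (hasDerivAt_ee s).fun_pow n
    have h2 := (h1.const_mul ((n * Complex.I) ^ j)).const_mul (b n)
    refine h2.congr_deriv ?_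
    rcases n with _ | n
    · simp
    · simp only [Nat.add_sub_cancel]
      ring
  have h0 : (fun t : ℝ => PS b (ee t)) = β 0 := by
    funext t
    simp [hβ, PS]
  rw [h0]
  exact contDiff_of_seq h 0

end BdrySing
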