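import Pool.Agent.BdrySing.Currents

open Set MeasureTheory Metric Module Filter Topology
open scoped ContDiff RealInnerProductSpace Manifold

noncomputable section

namespace BdrySing

/-- first coordinate -/
def pr1 : C2 →L[ℝ] ℂ := WithLp.fstL 2 ℝ ℂ ℂ
/-- second coordinate -/
def pr2 : C2 →L[ℝ] ℂ := WithLp.sndL 2 ℝ ℂ ℂ

/-- the point with given coordinates -/
def mk (z w : ℂ) : C2 := WithLp.toLp 2 (z, w)

@[simp] lemma pr1_mk (z w : ℂ) : pr1 (mk z w) = z := rfl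
@[simp] lemma pr2_mk (z w : ℂ) : pr2 (mk z w) = w := rfl
@[simp] lemma mk_pr (p : C2) : mk (pr1 p) (pr2 p) = p := rfl

lemma C2.ext {p q : C2} (h1 : pr1 p = pr1 q) (h2 : pr2 p = pr2 q) : p = q := by
  rw [← mk_pr p, ← mk_pr q, h1, h2]

lemma mk_add (z w z' w' : ℂ) : mk z w + mk z' w' = mk (z + z') (w + w') := rfl
lemma mk_sub (z w z' w' : ℂ) : mk z w - mk z' w' = mk (z - z') (w - w') := rfl
lemma smul_mk (c : ℝ) (z w : ℂ) : c • mk z w = mk (c • z) (c • w) := rfl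
lemma csmul_mk (c : ℂ) (z w : ℂ) : c • mk z w = mk (c * z) (c * w) := rfl

/-- pairing as a continuous linear map -/
def mkL : ℂ × ℂ →L[ℝ] C2 :=
  ((WithLp.prodContinuousLinearEquiv 2 ℝ ℂ ℂ).symm : ℂ × ℂ →L[ℝ] C2)

lemma mkL_apply (z w : ℂ) : mkL (z, w) = mk z w := rfl

/-- horizontal embedding -/
def hor : ℂ →L[ℝ] C2 := mkL.comp (ContinuousLinearMap.inl ℝ ℂ ℂ)
/-- vertical embedding -/
def vert : ℂ →L[ℝ] C2 := mkL.comp (ContinuousLinearMap.inr ℝ ℂ ℂ)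

lemma hor_apply (z : ℂ) : hor z = mk z 0 := rfl
lemma vert_apply (z : ℂ) : vert z = mk 0 z := rfl

lemma norm_sq_C2 (p : C2) : ‖p‖ ^ 2 = ‖pr1 p‖ ^ 2 + ‖pr2 p‖ ^ 2 := by
  rw [WithLp.prod_norm_eq_of_L2, Real.sq_sqrt (by positivity)]
  rfl

lemma inner_C2 (p q : C2) : ⟪p, q⟫ = ⟪pr1 p, pr1 q⟫ + ⟪pr2 p, pr2 q⟫ := by
  rw [WithLp.prod_inner_apply]
  rfl

lemma norm_pr1_le (p : C2) : ‖pr1 p‖ ≤ ‖p‖ := by
  have h := norm_sq_C2 p
  nlinarith [norm_nonneg (pr1 p), norm_nonneg (pr2 p), norm_nonneg p]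

lemma norm_pr2_le (p : C2) : ‖pr2 p‖ ≤ ‖p‖ := by
  have h := norm_sq_C2 p
  nlinarith [norm_nonneg (pr1 p), norm_nonneg (pr2 p), norm_nonneg p]

lemma norm_C2_le (p : C2) : ‖p‖ ≤ ‖pr1 p‖ + ‖pr2 p‖ := by
  have h := norm_sq_C2 p
  nlinarith [norm_nonneg (pr1 p), norm_nonneg (pr2 p), norm_nonneg p,
    mul_nonneg (norm_nonneg (pr1 p)) (norm_nonneg (pr2 p))]

/-- oriented area on `ℂ` -/
def det2 (z w : ℂ) : ℝ := z.re * w.im - w.re * z.im

/-- the form `dx ∧ dy` on `ℂ²` -/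
def OmC : C2 [⋀^Fin 2]→L[ℝ] ℝ :=
  alt2 ((Complex.reCLM.comp pr1).smulRight (Complex.imCLM.comp pr1))

lemma OmC_apply (u v : C2) : OmC ![u, v] = det2 (pr1 u) (pr1 v) := by
  rw [OmC, alt2_apply]
  simp [det2]

/-- the covector `u ↦ det2 v (pr1 u)` -/
def detL (v : ℂ) : C2 →L[ℝ] ℝ :=
  v.re • (Complex.imCLM.comp pr1) - v.im • (Complex.reCLM.comp pr1)

lemma detL_apply (v : ℂ) (u : C2) : detL v u = det2 v (pr1 u) := by
  simp [detL, det2]; ring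

lemma det2_plucker (l : ℂ →L[ℝ] ℝ) (u u' v : ℂ) :
    l u * det2 v u' - l u' * det2 v u = l v * det2 u u' := by
  have h : ∀ z : ℂ, l z = z.re * l 1 + z.im * l Complex.I := by
    intro z
    have hz : z = z.re • (1 : ℂ) + z.im • Complex.I := by
      apply Complex.ext <;> simp
    conv_lhs => rw [hz]
    rw [map_add, map_smul, map_smul, smul_eq_mul, smul_eq_mul]
  rw [h u, h u', h v]
  simp only [det2]
  ring

end BdrySing
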