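import Pool.Agent.BdrySing.Plane

open Set MeasureTheory Metric Module Filter Topology
open scoped ContDiff RealInnerProductSpace Manifold

noncomputable section

namespace BdrySing

/-- the point of the unit circle with angle `t` -/
def ee (t : ℝ) : ℂ := Complex.exp (t * Complex.I)

/-- polar coordinates -/
def PP (q : ℝ × ℝ) : ℂ := q.1 * ee q.2

/-- the graph of `f` in polar coordinates -/
def sheet (f : ℂ → ℂ) (q : ℝ × ℝ) : C2 := mk (PP q) (f (PP q))

/-- the radial derivative of `sheet f` -/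
def X1 (f' : ℂ → ℂ) (q : ℝ × ℝ) : C2 := mk (ee q.2) (f' (PP q) * ee q.2)

/-- the angular derivative of `sheet f` -/
def X2 (f' : ℂ → ℂ) (q : ℝ × ℝ) : C2 :=
  mk (Complex.I * (q.1 * ee q.2)) (f' (PP q) * (Complex.I * (q.1 * ee q.2)))

lemma norm_ee (t : ℝ) : ‖ee t‖ = 1 := Complex.norm_exp_ofReal_mul_I t

lemma ee_ne_zero (t : ℝ) : ee t ≠ 0 := Complex.exp_ne_zero _

lemma hasDerivAt_ee (t : ℝ) : HasDerivAt ee (Complex.I * ee t) t := by
  have h1 : HasDerivAt (fun s : ℝ => (s : ℂ) * Complex.I) (1 * Complex.I) t :=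
    (HasDerivAt.ofReal_comp (hasDerivAt_id t)).mul_const Complex.I
  have h2 := h1.cexp
  rw [one_mul, mul_comm] at h2
  exact h2

lemma contDiff_ee : ContDiff ℝ ∞ ee := by
  have h1 : ContDiff ℝ ∞ (fun s : ℝ => (s : ℂ) * Complex.I) :=
    Complex.ofRealCLM.contDiff.mul contDiff_const
  exact h1.cexp

lemma continuous_ee : Continuous ee := contDiff_ee.continuous

lemma ee_periodic (t : ℝ) : ee (t + 2 * Real.pi) = ee t := by
  rw [ee, ee]
  push_cast
  rw [add_mul, Complex.exp_add, Complex.exp_two_pi_mul_I, mul_one]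

lemma contDiff_PP : ContDiff ℝ ∞ PP :=
  (Complex.ofRealCLM.contDiff.comp contDiff_fst).mul (contDiff_ee.comp contDiff_snd)

lemma continuous_PP : Continuous PP := contDiff_PP.continuous

lemma norm_PP {q : ℝ × ℝ} (h : 0 ≤ q.1) : ‖PP q‖ = q.1 := by
  rw [PP, norm_mul, norm_ee, mul_one, Complex.norm_real, Real.norm_eq_abs, abs_of_nonneg h]

lemma hasFDerivAt_PP (q : ℝ × ℝ) : HasFDerivAt PP
    ((ContinuousLinearMap.fst ℝ ℝ ℝ).smulRight (ee q.2) +
      (ContinuousLinearMap.snd ℝ ℝ ℝ).smulRight (Complex.I * (q.1 * ee q.2))) q := by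
  have h1 : HasFDerivAt (fun q : ℝ × ℝ => (q.1 : ℂ))
      (Complex.ofRealCLM.comp (ContinuousLinearMap.fst ℝ ℝ ℝ)) q :=
    Complex.ofRealCLM.hasFDerivAt.comp q hasFDerivAt_fst
  have h2 : HasFDerivAt (fun q : ℝ × ℝ => ee q.2)
      ((ContinuousLinearMap.toSpanSingleton ℝ (Complex.I * ee q.2)).comp
        (ContinuousLinearMap.snd ℝ ℝ ℝ)) q :=
    (hasDerivAt_ee q.2).hasFDerivAt.comp q hasFDerivAt_snd
  have h3 := h1.mul h2
  refine h3.congr_fderiv ?_
  ext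
  · simp
  · simp
    ring

/-- hypotheses on the function defining a sheet over the annulus `a < |z| < b` -/
structure SheetData (f f' : ℂ → ℂ) (a b : ℝ) : Prop where
  nonneg : 0 ≤ a
  lt : a < b
  cf : ContinuousOn f {z | a ≤ ‖z‖ ∧ ‖z‖ ≤ b}
  cf' : ContinuousOn f' {z | a ≤ ‖z‖ ∧ ‖z‖ ≤ b}
  hd : ∀ z, a < ‖z‖ → ‖z‖ < b → HasDerivAt f (f' z) z

lemma isOpen_annulus (a b : ℝ) : IsOpen {z : ℂ | a < ‖z‖ ∧ ‖z‖ < b} :=
  (isOpen_lt continuous_const continuous_norm).inter (isOpen_lt continuous_norm continuous_const)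

namespace SheetData

variable {f f' : ℂ → ℂ} {a b : ℝ}

lemma mapsTo (h : SheetData f f' a b) : MapsTo PP (Icc a b ×ˢ univ) {z | a ≤ ‖z‖ ∧ ‖z‖ ≤ b} := by
  rintro q ⟨hq, -⟩
  have h0 : 0 ≤ q.1 := h.nonneg.trans hq.1
  simp only [mem_ofPred_eq, norm_PP h0]
  exact hq

lemma contOn (h : SheetData f f' a b) : ContinuousOn (fun q => f (PP q)) (Icc a b ×ˢ univ) :=
  h.cf.comp continuous_PP.continuousOn h.mapsTo

lemma contOn' (h : SheetData f f' a b) : ContinuousOn (fun q => f' (PP q)) (Icc a b ×ˢ univ) :=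
  h.cf'.comp continuous_PP.continuousOn h.mapsTo

lemma cont_sheet (h : SheetData f f' a b) : ContinuousOn (sheet f) (Icc a b ×ˢ univ) :=
  mkL.continuous.comp_continuousOn (continuous_PP.continuousOn.prodMk h.contOn)

lemma cont_X1 (h : SheetData f f' a b) : ContinuousOn (X1 f') (Icc a b ×ˢ univ) :=
  mkL.continuous.comp_continuousOn
    ((continuous_ee.comp continuous_snd).continuousOn.prodMk
      (h.contOn'.mul (continuous_ee.comp continuous_snd).continuousOn))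

lemma cont_X2 (h : SheetData f f' a b) : ContinuousOn (X2 f') (Icc a b ×ˢ univ) := by
  have h1 : Continuous (fun q : ℝ × ℝ => Complex.I * (q.1 * ee q.2)) :=
    continuous_const.mul continuous_PP
  exact mkL.continuous.comp_continuousOn
    (h1.continuousOn.prodMk (h.contOn'.mul h1.continuousOn))

lemma mem_open (h : SheetData f f' a b) {q : ℝ × ℝ} (hq : q.1 ∈ Ioo a b) :
    a < ‖PP q‖ ∧ ‖PP q‖ < b := by
  have h0 : 0 ≤ q.1 := h.nonneg.trans hq.1.le
  rw [norm_PP h0]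
  exact hq

lemma deriv_eventually (h : SheetData f f' a b) {z : ℂ} (h1 : a < ‖z‖) (h2 : ‖z‖ < b) :
    ∀ᶠ w in 𝓝 z, deriv f w = f' w := by
  filter_upwards [(isOpen_annulus a b).mem_nhds ⟨h1, h2⟩] with w hw
  exact (h.hd w hw.1 hw.2).deriv

lemma diffOn (h : SheetData f f' a b) : DifferentiableOn ℂ f {z : ℂ | a < ‖z‖ ∧ ‖z‖ < b} :=
  fun z hz => (h.hd z hz.1 hz.2).differentiableAt.differentiableWithinAt

lemma hasDerivAt' (h : SheetData f f' a b) {z : ℂ} (h1 : a < ‖z‖) (h2 : ‖z‖ < b) :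
    HasDerivAt f' (deriv (deriv f) z) z := by
  have h3 : DifferentiableOn ℂ (deriv f) {z : ℂ | a < ‖z‖ ∧ ‖z‖ < b} :=
    h.diffOn.deriv (isOpen_annulus a b)
  have h4 : HasDerivAt (deriv f) (deriv (deriv f) z) z :=
    ((h3 z ⟨h1, h2⟩).differentiableAt ((isOpen_annulus a b).mem_nhds ⟨h1, h2⟩)).hasDerivAt
  refine h4.congr_of_eventuallyEq ?_
  filter_upwards [h.deriv_eventually h1 h2] with w hw
  exact hw.symm

lemma hasFDerivAt_comp {F F' : ℂ → ℂ} {q : ℝ × ℝ} (hF : HasDerivAt F (F' (PP q)) (PP q)) :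
    HasFDerivAt (fun q => F (PP q))
      ((ContinuousLinearMap.fst ℝ ℝ ℝ).smulRight (F' (PP q) * ee q.2) +
      (ContinuousLinearMap.snd ℝ ℝ ℝ).smulRight (F' (PP q) * (Complex.I * (q.1 * ee q.2)))) q := by
  have h1 : HasFDerivAt F ((ContinuousLinearMap.toSpanSingleton ℂ (F' (PP q))).restrictScalars ℝ)
      (PP q) := hF.hasFDerivAt.restrictScalars ℝ
  have h2 := h1.comp q (hasFDerivAt_PP q)
  refine h2.congr_fderiv ?_
  ext
  · simp [mul_comm]
  · simp [mul_comm]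

lemma hasFDerivAt_sheet (h : SheetData f f' a b) {q : ℝ × ℝ} (hq : q.1 ∈ Ioo a b) :
    HasFDerivAt (sheet f) ((ContinuousLinearMap.fst ℝ ℝ ℝ).smulRight (X1 f' q) +
      (ContinuousLinearMap.snd ℝ ℝ ℝ).smulRight (X2 f' q)) q := by
  obtain ⟨h1, h2⟩ := h.mem_open hq
  have h3 := (hasFDerivAt_PP q).prodMk (hasFDerivAt_comp (F := f) (F' := f') (h.hd _ h1 h2))
  have h4 := mkL.hasFDerivAt.comp q h3
  refine h4.congr_fderiv ?_
  ext
  · apply C2.ext <;> simp [X1, mkL_apply]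
  · apply C2.ext <;> simp [X2, mkL_apply]

lemma dOne_sheet (h : SheetData f f' a b) {q : ℝ × ℝ} (hq : q.1 ∈ Ioo a b) :
    dOne (sheet f) q = X1 f' q := by
  rw [dOne, (h.hasFDerivAt_sheet hq).fderiv]
  simp

lemma dTwo_sheet (h : SheetData f f' a b) {q : ℝ × ℝ} (hq : q.1 ∈ Ioo a b) :
    dTwo (sheet f) q = X2 f' q := by
  rw [dTwo, (h.hasFDerivAt_sheet hq).fderiv]
  simp

lemma contDiffOn_sheet (h : SheetData f f' a b) :
    ContDiffOn ℝ 1 (sheet f) (Ioo a b ×ˢ (univ : Set ℝ)) := by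
  have h1 : ContDiffOn ℝ 1 f {z : ℂ | a < ‖z‖ ∧ ‖z‖ < b} :=
    (h.diffOn.contDiffOn (isOpen_annulus a b)).restrict_scalars ℝ
  have h2 : ContDiffOn ℝ 1 (fun q => f (PP q)) (Ioo a b ×ˢ (univ : Set ℝ)) :=
    h1.comp (contDiff_PP.of_le (by simp)).contDiffOn (fun q hq => h.mem_open hq.1)
  exact mkL.contDiff.comp_contDiffOn ((contDiff_PP.of_le (by simp)).contDiffOn.prodMk h2)

end SheetData

end BdrySing
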