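import Pool.Agent.BdrySing.Sheets

open Set MeasureTheory Metric Module Filter Topology
open scoped ContDiff RealInnerProductSpace Manifold

noncomputable section

namespace BdrySing

/-- the current carried by a sheet over the annulus `a < |z| < b` -/
def SC (f f' : ℂ → ℂ) (a b : ℝ) (α : Form C2 2) : ℝ :=
  ∫ q in Ioo a b ×ˢ Ioo 0 (2 * Real.pi), α (sheet f q) ![X1 f' q, X2 f' q]

lemma rect_ae (a b : ℝ) : (Icc (a, (0 : ℝ)) (b, 2 * Real.pi) : Set (ℝ × ℝ)) =ᵐ[volume]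
    (Ioo a b ×ˢ Ioo 0 (2 * Real.pi) : Set (ℝ × ℝ)) := by
  rw [← Icc_prod_Icc]
  exact (Measure.set_prod_ae_eq Ioo_ae_eq_Icc Ioo_ae_eq_Icc).symm

lemma rect_subset (a b : ℝ) : (Icc (a, (0 : ℝ)) (b, 2 * Real.pi) : Set (ℝ × ℝ)) ⊆
    Icc a b ×ˢ (univ : Set ℝ) := by
  rw [← Icc_prod_Icc]
  exact prod_mono subset_rfl (subset_univ _)

namespace SheetData

variable {f f' : ℂ → ℂ} {a b : ℝ}

lemma mixed (h : SheetData f f' a b) {q : ℝ × ℝ} (hq : q.1 ∈ Ioo a b) :
    ∃ (L1 L2 : ℝ × ℝ →L[ℝ] C2), HasFDerivAt (X1 f') L1 q ∧ HasFDerivAt (X2 f') L2 q ∧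
      L1 (0, 1) = L2 (1, 0) := by
  obtain ⟨h1, h2⟩ := h.mem_open hq
  have hf' := hasFDerivAt_comp (F := f') (F' := deriv (deriv f)) (h.hasDerivAt' h1 h2)
  have he : HasFDerivAt (fun q : ℝ × ℝ => ee q.2)
      ((ContinuousLinearMap.toSpanSingleton ℝ (Complex.I * ee q.2)).comp
        (ContinuousLinearMap.snd ℝ ℝ ℝ)) q :=
    (hasDerivAt_ee q.2).hasFDerivAt.comp q hasFDerivAt_snd
  have hI := (hasFDerivAt_PP q).const_mul Complex.I
  refine ⟨_, _, mkL.hasFDerivAt.comp q (he.prodMk (hf'.mul he)),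
    mkL.hasFDerivAt.comp q (hI.prodMk (hf'.mul hI)), ?_⟩
  apply C2.ext
  · simp [mkL_apply]
  · simp [mkL_apply, PP]
    ring

lemma integrand_cont (h : SheetData f f' a b) {α : Form C2 2} (hα : Continuous α) :
    ContinuousOn (fun q => α (sheet f q) ![X1 f' q, X2 f' q]) (Icc a b ×ˢ univ) := by
  have e : (fun q => α (sheet f q) ![X1 f' q, X2 f' q]) =
      fun q => bil2 (α (sheet f q)) (X1 f' q) (X2 f' q) := by
    funext q
    rw [bil2_apply]
  rw [e]
  have h1 : ContinuousOn (fun q => bil2 (α (sheet f q))) (Icc a b ×ˢ univ) :=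
    continuous_bil2.comp_continuousOn (hα.comp_continuousOn h.cont_sheet)
  exact (h1.clm_apply h.cont_X1).clm_apply h.cont_X2

lemma integrableOn (h : SheetData f f' a b) {α : Form C2 2} (hα : Continuous α) :
    IntegrableOn (fun q => α (sheet f q) ![X1 f' q, X2 f' q])
      (Icc (a, (0 : ℝ)) (b, 2 * Real.pi)) :=
  ContinuousOn.integrableOn_compact isCompact_Icc
    ((h.integrand_cont hα).mono (rect_subset a b))

theorem stokes (h : SheetData f f' a b) {η : Form C2 1} (hη : ContDiff ℝ ∞ η) :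
    SC f f' a b (extDeriv η) =
      (∫ t in (0 : ℝ)..(2 * Real.pi), η (sheet f (b, t)) ![X2 f' (b, t)]) -
      ∫ t in (0 : ℝ)..(2 * Real.pi), η (sheet f (a, t)) ![X2 f' (a, t)] := by
  have hpi := Real.pi_pos
  obtain ⟨A, hA⟩ : ∃ A : C2 → (C2 →L[ℝ] ℝ), A = fun p => unlin1 (η p) := ⟨_, rfl⟩
  have hAs : ContDiff ℝ ∞ A := by
    rw [hA]
    exact contDiff_unlin1.comp hη
  have hηA : η = fun p => lin1 (A p) := by
    funext p
    rw [hA, lin1_unlin1]
  have hηv : ∀ p v, η p ![v] = A p v := by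
    intro p v
    rw [hA, unlin1_apply]
  have hext : ∀ p, extDeriv η p = alt2 (fderiv ℝ A p) := by
    intro p
    rw [hηA]
    exact extDeriv_lin1 (hAs.contDiffAt.differentiableAt (by simp))
  have hextc : Continuous (extDeriv η) := by
    rw [hηA]
    exact (contDiff_extDeriv_lin1 hAs).continuous
  set Q : ℝ × ℝ → ℝ := fun q => A (sheet f q) (X2 f' q) with hQ
  set G : ℝ × ℝ → ℝ := fun q => - A (sheet f q) (X1 f' q) with hG
  have hQc : ContinuousOn Q (Icc (a, (0 : ℝ)) (b, 2 * Real.pi)) := by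
    have h1 : ContinuousOn (fun q => A (sheet f q)) (Icc a b ×ˢ univ) :=
      hAs.continuous.comp_continuousOn h.cont_sheet
    exact (h1.clm_apply h.cont_X2).mono (rect_subset a b)
  have hGc : ContinuousOn G (Icc (a, (0 : ℝ)) (b, 2 * Real.pi)) := by
    have h1 : ContinuousOn (fun q => A (sheet f q)) (Icc a b ×ˢ univ) :=
      hAs.continuous.comp_continuousOn h.cont_sheet
    exact (h1.clm_apply h.cont_X1).neg.mono (rect_subset a b)
  have hder : ∀ q : ℝ × ℝ, q.1 ∈ Ioo a b → ∃ (Q' G' : ℝ × ℝ →L[ℝ] ℝ), HasFDerivAt Q Q' q ∧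
      HasFDerivAt G G' q ∧ Q' (1, 0) + G' (0, 1) =
        extDeriv η (sheet f q) ![X1 f' q, X2 f' q] := by
    intro q hq
    obtain ⟨L1, L2, hL1, hL2, hL⟩ := h.mixed hq
    have hAd : HasFDerivAt (fun q => A (sheet f q)) _ q :=
      (hAs.contDiffAt.differentiableAt (by simp)).hasFDerivAt.comp q (h.hasFDerivAt_sheet hq)
    refine ⟨_, _, hAd.clm_apply hL2, (hAd.clm_apply hL1).neg, ?_⟩
    rw [hext, alt2_apply]
    simp [hL]
    ring
  have hchoose : ∀ q : ℝ × ℝ, ∃ QG : (ℝ × ℝ →L[ℝ] ℝ) × (ℝ × ℝ →L[ℝ] ℝ), q.1 ∈ Ioo a b →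
      HasFDerivAt Q QG.1 q ∧ HasFDerivAt G QG.2 q ∧ QG.1 (1, 0) + QG.2 (0, 1) =
        extDeriv η (sheet f q) ![X1 f' q, X2 f' q] := by
    intro q
    by_cases hq : q.1 ∈ Ioo a b
    · obtain ⟨Q', G', h1⟩ := hder q hq
      exact ⟨(Q', G'), fun _ => h1⟩
    · exact ⟨0, fun h => absurd h hq⟩
  choose QG hQG using hchoose
  have hdiv := integral_divergence_prod_Icc_of_hasFDerivAt_off_countable_of_le Q G
    (fun q => (QG q).1) (fun q => (QG q).2) (a, 0) (b, 2 * Real.pi)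
    ⟨h.lt.le, by positivity⟩ ∅ countable_empty hQc hGc
    (by
      intro q hq
      exact (hQG q hq.1.1).1)
    (by
      intro q hq
      exact (hQG q hq.1.1).2.1)
    (by
      refine IntegrableOn.congr_set_ae ?_ (rect_ae a b)
      have h1 : IntegrableOn (fun q => extDeriv η (sheet f q) ![X1 f' q, X2 f' q])
          (Ioo a b ×ˢ Ioo 0 (2 * Real.pi)) :=
        (h.integrableOn hextc).congr_set_ae (rect_ae a b).symm
      refine h1.congr_fun ?_ (measurableSet_Ioo.prod measurableSet_Ioo)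
      intro q hq
      exact (hQG q hq.1).2.2.symm)
  have hper : ∀ x, G (x, 2 * Real.pi) = G (x, 0) := by
    intro x
    have e1 : ee (2 * Real.pi) = ee 0 := by
      have := ee_periodic 0
      rwa [zero_add] at this
    simp only [hG, sheet, X1, PP, e1]
  have hLHS : SC f f' a b (extDeriv η) =
      ∫ q in Icc (a, (0 : ℝ)) (b, 2 * Real.pi), (QG q).1 (1, 0) + (QG q).2 (0, 1) := by
    rw [setIntegral_congr_set (rect_ae a b), SC]
    apply setIntegral_congr_fun (measurableSet_Ioo.prod measurableSet_Ioo)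
    intro q hq
    exact (hQG q hq.1).2.2.symm
  rw [hLHS, hdiv]
  simp only [hper, sub_self, zero_add, hηv]
  rfl

end SheetData

end BdrySing
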