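import Pool.Agent.BdrySing.Bdry

open Set MeasureTheory Metric Module Filter Topology
open scoped ContDiff RealInnerProductSpace Manifold ENNReal

noncomputable section

namespace BdrySing

lemma polar (z : ℂ) : ∃ t ∈ Icc (0 : ℝ) (2 * Real.pi), z = PP (‖z‖, t) := by
  have h := Complex.norm_mul_exp_arg_mul_I z
  have hpi := Real.pi_pos
  by_cases h0 : 0 ≤ Complex.arg z
  · refine ⟨Complex.arg z, ⟨h0, by linarith [Complex.arg_le_pi z]⟩, ?_⟩
    exact h.symm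
  · refine ⟨Complex.arg z + 2 * Real.pi, ⟨by linarith [Complex.neg_pi_lt_arg z], ?_⟩, ?_⟩
    · push Not at h0
      linarith
    · rw [PP]
      simp only [ee_periodic]
      exact h.symm

lemma closure_Rect {a b : ℝ} (hab : a < b) : closure (Rect a b) =
    Icc a b ×ˢ Icc (0 : ℝ) (2 * Real.pi) := by
  rw [Rect, closure_prod_eq, closure_Ioo hab.ne, closure_Ioo (by positivity)]

lemma integral_pos_of_cont {a b : ℝ} {G : ℝ × ℝ → ℝ} (hc : ContinuousOn G (Rect a b))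
    (hi : IntegrableOn G (Rect a b)) (h0 : ∀ q ∈ Rect a b, 0 ≤ G q) {q₀ : ℝ × ℝ}
    (hq₀ : q₀ ∈ Rect a b) (hpos : 0 < G q₀) : 0 < ∫ q in Rect a b, G q := by
  rw [setIntegral_pos_iff_support_of_nonneg_ae _ hi]
  · have ho : IsOpen (Rect a b) := isOpen_Ioo.prod isOpen_Ioo
    have ho2 : IsOpen (Rect a b ∩ G ⁻¹' Ioi 0) := hc.isOpen_inter_preimage ho isOpen_Ioi
    refine lt_of_lt_of_le (ho2.measure_pos volume ⟨q₀, hq₀, hpos⟩) (measure_mono ?_)
    rintro q ⟨h1, h2⟩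
    exact ⟨ne_of_gt h2, h1⟩
  · exact (ae_restrict_iff' (measurableSet_Rect a b)).2 (Eventually.of_forall h0)

namespace SheetData

variable {f f' : ℂ → ℂ} {a b : ℝ}

lemma SC_cut (_h : SheetData f f' a b) {χ : C2 → ℝ} :
    SC f f' a b (fun x => χ x • OmC) = ∫ q in Rect a b, χ (sheet f q) * q.1 := by
  rw [SC]
  apply setIntegral_congr_fun (measurableSet_Rect a b)
  intro q hq
  simp only
  rw [ContinuousAlternatingMap.smul_apply, OmC_apply, smul_eq_mul]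
  congr 1
  have h1 : (ee q.2).re ^ 2 + (ee q.2).im ^ 2 = 1 := by
    have := Complex.sq_norm (ee q.2)
    rw [norm_ee, Complex.normSq_apply] at this
    nlinarith
  simp only [X1, X2, pr1_mk, det2]
  simp
  have : (ee q.2).re * (q.1 * (ee q.2).re) + q.1 * (ee q.2).im * (ee q.2).im =
      q.1 * ((ee q.2).re ^ 2 + (ee q.2).im ^ 2) := by ring
  linarith [this, h1, congrArg (fun x => q.1 * x) h1]

lemma SC_vanish (_h : SheetData f f' a b) {α : Form C2 2} (h0 : ∀ q ∈ Rect a b, α (sheet f q) = 0) :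
    SC f f' a b α = 0 := by
  rw [SC]
  apply setIntegral_eq_zero_of_forall_eq_zero
  intro q hq
  rw [h0 q hq]
  rfl

end SheetData

namespace Data

variable (D : Data)

/-- the closed sheets -/
def closedSheet (f : ℂ → ℂ) (a b : ℝ) : Set C2 := sheet f '' (Icc (a, (0 : ℝ)) (b, 2 * Real.pi))

lemma SC_zero_of_test {f f' : ℂ → ℂ} {a b : ℝ} (h : SheetData f f' a b) {α : Form C2 2}
    {W : Set C2} (hα : IsTest W α) (hd : Disjoint W (closedSheet f a b)) : SC f f' a b α = 0 := by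
  apply h.SC_vanish
  intro q hq
  by_contra hne
  have h1 := hα.2.2 (subset_tsupport _ hne)
  exact Set.disjoint_left.1 hd h1 ⟨q, Rect_subset a b hq, rfl⟩

lemma spt_subset : spt D.T ⊆ closedSheet D.B 0 1 ∪ closedSheet (fun z => D.B z - D.h z) 0 1 ∪
    closedSheet D.g 1 2 := by
  intro p hp
  by_contra hn
  have hcl : ∀ {f f' : ℂ → ℂ} {a b : ℝ}, SheetData f f' a b → IsClosed (closedSheet f a b) := by
    intro f f' a b h
    exact (isCompact_Icc.image_of_continuousOn (h.cont_sheet.mono (rect_subset a b))).isClosed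
  set S := closedSheet D.B 0 1 ∪ closedSheet (fun z => D.B z - D.h z) 0 1 ∪
    closedSheet D.g 1 2 with hS
  have hSc : IsClosed S := ((hcl D.sheetB).union (hcl D.sheetBh)).union
    (hcl (D.sheetg 2 one_lt_two))
  obtain ⟨α, hα, hne⟩ := hp Sᶜ hSc.isOpen_compl hn
  apply hne
  have hT : D.T α = SC D.B D.B' 0 1 α +
      SC (fun z => D.B z - D.h z) (fun z => D.B' z - D.h' z) 0 1 α +
      SC D.g D.g' 1 2 α := by
    rw [T, TT, Fin.sum_univ_three]
    rfl
  have hd1 : Disjoint Sᶜ (closedSheet D.B 0 1) := by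
    rw [disjoint_compl_left_iff_subset]
    exact fun x hx => Or.inl (Or.inl hx)
  have hd2 : Disjoint Sᶜ (closedSheet (fun z => D.B z - D.h z) 0 1) := by
    rw [disjoint_compl_left_iff_subset]
    exact fun x hx => Or.inl (Or.inr hx)
  have hd3 : Disjoint Sᶜ (closedSheet D.g 1 2) := by
    rw [disjoint_compl_left_iff_subset]
    exact fun x hx => Or.inr hx
  rw [hT, SC_zero_of_test D.sheetB hα hd1, SC_zero_of_test D.sheetBh hα hd2,
    SC_zero_of_test (D.sheetg 2 one_lt_two) hα hd3]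
  ring

/-- description of the support -/
lemma spt_desc {p : C2} (hp : p ∈ spt D.T) :
    (‖pr1 p‖ ≤ 1 ∧ (pr2 p = D.B (pr1 p) ∨ pr2 p = D.B (pr1 p) - D.h (pr1 p))) ∨
      (1 ≤ ‖pr1 p‖ ∧ pr2 p = D.g (pr1 p)) := by
  rcases D.spt_subset hp with (⟨q, hq, rfl⟩ | ⟨q, hq, rfl⟩) | ⟨q, hq, rfl⟩
  · left
    have hq1 : 0 ≤ q.1 := hq.1.1
    have hq2 : q.1 ≤ 1 := hq.2.1
    have h1 : ‖pr1 (sheet D.B q)‖ = q.1 := by rw [sheet, pr1_mk, norm_PP hq1]
    exact ⟨by rw [h1]; exact hq2, Or.inl rfl⟩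
  · left
    have hq1 : 0 ≤ q.1 := hq.1.1
    have hq2 : q.1 ≤ 1 := hq.2.1
    have h1 : ‖pr1 (sheet (fun z => D.B z - D.h z) q)‖ = q.1 := by
      rw [sheet, pr1_mk, norm_PP hq1]
    exact ⟨by rw [h1]; exact hq2, Or.inr rfl⟩
  · right
    have hq1 : 1 ≤ q.1 := hq.1.1
    have h1 : ‖pr1 (sheet D.g q)‖ = q.1 := by
      rw [sheet, pr1_mk, norm_PP (by linarith)]
    exact ⟨by rw [h1]; exact hq1, rfl⟩

lemma sheet_mem_spt (i : Fin 3) {q₀ : ℝ × ℝ} (hq₀ : q₀ ∈ Rect (ra i) (rb i)) :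
    sheet (D.fs i) q₀ ∈ spt D.T := by
  intro W hW hp
  obtain ⟨χ, hχ, hχc, hχs, h01, W', hW', hpW', hχ1⟩ :=
    exists_cutoff (isCompact_singleton (x := sheet (D.fs i) q₀)) hW (singleton_subset_iff.2 hp)
  refine ⟨fun x => χ x • OmC, IsTest.of_cutoff hχ hχc hχs contDiff_const, ?_⟩
  apply ne_of_gt
  rw [T, TT]
  have hint : ∀ j, IntegrableOn (fun q : ℝ × ℝ => χ (sheet (D.fs j) q) * q.1)
      (Rect (ra j) (rb j)) ∧ ContinuousOn (fun q : ℝ × ℝ => χ (sheet (D.fs j) q) * q.1)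
      (Rect (ra j) (rb j)) := by
    intro j
    have h1 : ContinuousOn (fun q : ℝ × ℝ => χ (sheet (D.fs j) q) * q.1)
        (Icc (ra j, (0 : ℝ)) (rb j, 2 * Real.pi)) :=
      (hχ.continuous.comp_continuousOn ((D.sheets j).cont_sheet.mono
        (rect_subset _ _))).mul continuous_fst.continuousOn
    exact ⟨(h1.integrableOn_compact isCompact_Icc).mono_set (Rect_subset _ _),
      h1.mono (Rect_subset _ _)⟩
  have hnn : ∀ j, ∀ q ∈ Rect (ra j) (rb j), 0 ≤ χ (sheet (D.fs j) q) * q.1 := by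
    intro j q hq
    exact mul_nonneg (h01 _).1 ((D.sheets j).nonneg.trans hq.1.1.le)
  apply Finset.sum_pos' 
  · intro j _
    rw [(D.sheets j).SC_cut]
    exact setIntegral_nonneg (measurableSet_Rect _ _) (hnn j)
  · refine ⟨i, Finset.mem_univ i, ?_⟩
    rw [(D.sheets i).SC_cut]
    apply integral_pos_of_cont (hint i).2 (hint i).1 (hnn i) hq₀
    rw [hχ1 _ (hpW' rfl), one_mul]
    exact lt_of_le_of_lt (D.sheets i).nonneg hq₀.1.1

lemma inner_mem_spt (i : Fin 3) (hra : ra i = 0) (hrb : rb i = 1) {z : ℂ} (hz : ‖z‖ ≤ 1) :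
    mk z (D.fs i z) ∈ spt D.T := by
  have h1 : MapsTo (sheet (D.fs i)) (Rect (ra i) (rb i)) (spt D.T) :=
    fun q hq => D.sheet_mem_spt i hq
  have hcl := closure_Rect (D.sheets i).lt
  have h2 : MapsTo (sheet (D.fs i)) (closure (Rect (ra i) (rb i))) (closure (spt D.T)) := by
    apply h1.closure_of_continuousOn
    rw [hcl]
    exact (D.sheets i).cont_sheet.mono (prod_mono subset_rfl (subset_univ _))
  rw [(spt_isClosed D.T).closure_eq, hcl] at h2
  obtain ⟨t, ht, hzt⟩ := polar z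
  have h3 : ((‖z‖, t) : ℝ × ℝ) ∈ Icc (ra i) (rb i) ×ˢ Icc (0 : ℝ) (2 * Real.pi) := by
    rw [hra, hrb]
    exact ⟨⟨norm_nonneg z, hz⟩, ht⟩
  have h4 := h2 h3
  simp only [sheet] at h4
  rwa [← hzt] at h4

lemma mem_spt_B {z : ℂ} (hz : ‖z‖ ≤ 1) : mk z (D.B z) ∈ spt D.T :=
  D.inner_mem_spt 0 rfl rfl hz

lemma mem_spt_Bh {z : ℂ} (hz : ‖z‖ ≤ 1) : mk z (D.B z - D.h z) ∈ spt D.T :=
  D.inner_mem_spt 1 rfl rfl hz

end Data

end BdrySing
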