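import Pool.Agent.BdrySing.Constancy

open Set MeasureTheory Metric Module Filter Topology
open scoped ContDiff RealInnerProductSpace Manifold

noncomputable section

namespace BdrySing

/-- the form `χ(p) γ(p₁) dx ∧ dy` -/
def Fm (χ : C2 → ℝ) (γ : ℂ → ℝ) : Form C2 2 := fun p => (χ p * γ (pr1 p)) • OmC

lemma Fm_test {U : Set C2} {χ : C2 → ℝ} (hχ : ContDiff ℝ ∞ χ) (hχc : HasCompactSupport χ)
    (hχs : tsupport χ ⊆ U) {γ : ℂ → ℝ} (hγ : ContDiff ℝ ∞ γ) : IsTest U (Fm χ γ) := by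
  have h : Fm χ γ = fun p => χ p • (γ (pr1 p) • OmC) := by
    funext p
    rw [Fm, mul_smul]
  rw [h]
  exact IsTest.of_cutoff hχ hχc hχs ((hγ.comp pr1.contDiff).smul contDiff_const)

lemma Fm_add (χ : C2 → ℝ) (γ γ' : ℂ → ℝ) : Fm χ (fun z => γ z + γ' z) = Fm χ γ + Fm χ γ' := by
  funext p
  simp only [Fm, Pi.add_apply, mul_add, add_smul]

lemma Fm_smul (χ : C2 → ℝ) (c : ℝ) (γ : ℂ → ℝ) : Fm χ (fun z => c * γ z) = c • Fm χ γ := by
  funext p
  simp only [Fm, Pi.smul_apply, smul_smul]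
  congr 1
  ring

lemma fderiv_pullback_smul {b : ℂ → ℝ} (hb : ContDiff ℝ ∞ b) (v : ℂ) (p : C2) :
    fderiv ℝ (fun q : C2 => b (pr1 q) • detL v) p =
      ((fderiv ℝ b (pr1 p)).comp pr1).smulRight (detL v) := by
  have h1 : HasFDerivAt b (fderiv ℝ b (pr1 p)) (pr1 p) :=
    (hb.contDiffAt.differentiableAt (by simp)).hasFDerivAt
  have h2 : HasFDerivAt (fun q : C2 => b (pr1 q)) ((fderiv ℝ b (pr1 p)).comp pr1) p :=
    h1.comp p pr1.hasFDerivAt
  exact (h2.smul_const (detL v)).fderiv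

/-- derivatives integrate to zero -/
lemma deriv_zero {U : Set C2} (hU : IsOpen U) {T : Form C2 2 → ℝ}
    (hT : IsCurrent U T) (hcl : ∀ η : Form C2 1, IsTest U η → T (extDeriv η) = 0)
    {χ : C2 → ℝ} (hχ : ContDiff ℝ ∞ χ) (hχc : HasCompactSupport χ)
    (hχs : tsupport χ ⊆ U) {K : Set ℂ} {W : Set C2} (hW : IsOpen W)
    (hχ1 : ∀ p ∈ W, χ p = 1) (hKW : ∀ p ∈ spt T, p ∈ U → pr1 p ∈ K → p ∈ W)
    {b : ℂ → ℝ} (hb : ContDiff ℝ ∞ b) (hbK : tsupport b ⊆ K) (v : ℂ) :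
    T (Fm χ (fun z => fderiv ℝ b z v)) = 0 := by
  set η : C2 → (C2 →L[ℝ] ℝ) := fun p => (χ p * b (pr1 p)) • detL v with hη
  have hηs : ContDiff ℝ ∞ η :=
    (hχ.mul (hb.comp pr1.contDiff)).smul contDiff_const
  have hηt : IsTest U (fun p => lin1 (η p)) := by
    have e : (fun p => lin1 (η p)) = fun p => χ p • lin1 (b (pr1 p) • detL v) := by
      funext p
      simp only [hη, mul_smul, map_smul]
    rw [e]
    exact IsTest.of_cutoff hχ hχc hχs
      (contDiff_lin1 ((hb.comp pr1.contDiff).smul contDiff_const))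
  have hηd := hηt.extDeriv_lin1 hηs
  have hbv : ContDiff ℝ ∞ (fun z => fderiv ℝ b z v) :=
    (hb.fderiv_right (m := ∞) (by simp)).clm_apply contDiff_const
  rw [← hcl _ hηt]
  apply hT.congr_on_spt hU (Fm_test hχ hχc hχs hbv) hηd
  intro p hp hpU
  rw [extDeriv_lin1 (hηs.contDiffAt.differentiableAt (by simp))]
  by_cases hpK : pr1 p ∈ K
  · have hpW := hKW p hp hpU hpK
    have he : η =ᶠ[𝓝 p] (fun q : C2 => b (pr1 q) • detL v) := by
      filter_upwards [hW.mem_nhds hpW] with q hq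
      simp only [hη, hχ1 q hq, one_mul]
    rw [he.fderiv_eq, fderiv_pullback_smul hb]
    apply form2_ext
    intro u u'
    rw [alt2_apply, Fm, ContinuousAlternatingMap.smul_apply, OmC_apply, hχ1 p hpW, one_mul,
      smul_eq_mul, ← det2_plucker]
    simp [detL_apply]
  · have hb0 : b =ᶠ[𝓝 (pr1 p)] 0 := by
      rw [← notMem_tsupport_iff_eventuallyEq]
      exact fun h => hpK (hbK h)
    have he : η =ᶠ[𝓝 p] (fun _ : C2 => (0 : C2 →L[ℝ] ℝ)) := by
      have h2 : ∀ᶠ q in 𝓝 p, b (pr1 q) = 0 :=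
        (pr1.continuous.continuousAt (x := p)).eventually hb0
      filter_upwards [h2] with q hq
      simp [hη, hq]
    rw [he.fderiv_eq]
    have h3 : fderiv ℝ b (pr1 p) = 0 := by
      rw [hb0.fderiv_eq]
      simp
    apply form2_ext
    intro u u'
    rw [Fm, h3]
    simp

lemma taylor2 {γ : ℂ → ℝ} (hγ : ContDiff ℝ ∞ γ) (hc : HasCompactSupport γ) :
    ∃ C : ℝ, 0 ≤ C ∧ ∀ x y, |γ y - γ x - fderiv ℝ γ x (y - x)| ≤ C * ‖y - x‖ ^ 2 := by
  have h1 : ContDiff ℝ ∞ (fderiv ℝ γ) := hγ.fderiv_right (m := ∞) (by simp)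
  obtain ⟨C, hC⟩ := ContDiff.lipschitzWith_of_hasCompactSupport (hc.fderiv ℝ) h1 (by simp)
  refine ⟨C, C.coe_nonneg, ?_⟩
  intro x y
  have h2 := Convex.norm_image_sub_le_of_norm_hasFDerivWithin_le' (f := γ) (f' := fderiv ℝ γ)
    (φ := fderiv ℝ γ x) (C := C * ‖y - x‖) (s := segment ℝ x y) (x := x) (y := y)
    (fun z _ => (hγ.contDiffAt.differentiableAt (by simp)).hasFDerivAt.hasFDerivWithinAt)
    (by
      intro z hz
      refine (hC.norm_sub_le z x).trans ?_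
      apply mul_le_mul_of_nonneg_left _ C.coe_nonneg
      obtain ⟨a, b, ha, hb, hab, rfl⟩ := hz
      have e : a • x + b • y - x = b • (y - x) := by
        have : a = 1 - b := by linarith
        rw [this]
        module
      rw [e, norm_smul, Real.norm_eq_abs, abs_of_nonneg hb]
      nlinarith [norm_nonneg (y - x)])
    (convex_segment x y) (left_mem_segment ℝ x y) (right_mem_segment ℝ x y)
  rw [Real.norm_eq_abs] at h2
  refine h2.trans (le_of_eq ?_)
  ring

lemma eq_of_sq_bound {L : ℝ → ℝ} {C : ℝ}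
    (h : ∀ s ∈ Icc (0 : ℝ) 1, ∀ t ∈ Icc (0 : ℝ) 1, |L t - L s| ≤ C * (t - s) ^ 2) :
    L 1 = L 0 := by
  have hC : 0 ≤ C := by
    have := h 0 (by simp) 1 (by simp)
    have h2 := abs_nonneg (L 1 - L 0)
    nlinarith
  have key : ∀ n : ℕ, |L 1 - L 0| ≤ C / (n + 1) := by
    intro n
    have hn : (0 : ℝ) < n + 1 := by positivity
    have e : L 1 - L 0 = ∑ i ∈ Finset.range (n + 1),
        (L (((i + 1 : ℕ) : ℝ) / (n + 1)) - L ((i : ℝ) / (n + 1))) := by
      rw [Finset.sum_range_sub (fun i : ℕ => L ((i : ℝ) / (n + 1)))]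
      simp [div_self hn.ne']
    rw [e]
    refine (Finset.abs_sum_le_sum_abs _ _).trans ?_
    have e2 : C / (n + 1) = ∑ i ∈ Finset.range (n + 1), C * (1 / (n + 1)) ^ 2 := by
      simp
      field_simp
    rw [e2]
    apply Finset.sum_le_sum
    intro i hi
    have hi2 : (i : ℝ) + 1 ≤ n + 1 := by
      have := Finset.mem_range.1 hi
      exact_mod_cast this
    have h3 := h ((i : ℝ) / (n + 1)) ⟨by positivity, by rw [div_le_one hn]; linarith⟩
      (((i + 1 : ℕ) : ℝ) / (n + 1)) ⟨by positivity, by rw [div_le_one hn]; push_cast; linarith⟩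
    refine h3.trans (le_of_eq ?_)
    push_cast
    field_simp
    ring
  have h0 : |L 1 - L 0| ≤ 0 := by
    apply le_of_forall_pos_le_add
    intro ε hε
    obtain ⟨n, hn⟩ := exists_nat_gt (C / ε)
    have h4 := key n
    have h5 : C / (n + 1) ≤ ε := by
      rw [div_le_iff₀ (by positivity)]
      rw [div_lt_iff₀ hε] at hn
      nlinarith
    linarith
  have := abs_eq_zero.1 (le_antisymm h0 (abs_nonneg _))
  linarith

lemma translate {U : Set C2} (hU : IsOpen U) {T : Form C2 2 → ℝ}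
    (hT : IsCurrent U T) (hcl : ∀ η : Form C2 1, IsTest U η → T (extDeriv η) = 0)
    {χ : C2 → ℝ} (hχ : ContDiff ℝ ∞ χ) (hχc : HasCompactSupport χ)
    (hχs : tsupport χ ⊆ U) {K : Set ℂ} {W : Set C2} (hW : IsOpen W)
    (hχ1 : ∀ p ∈ W, χ p = 1) (hKW : ∀ p ∈ spt T, p ∈ U → pr1 p ∈ K → p ∈ W)
    {γ : ℂ → ℝ} (hγ : ContDiff ℝ ∞ γ) (hγc : HasCompactSupport γ) (v : ℂ)
    (hsub : ∀ s ∈ Icc (0 : ℝ) 1, tsupport (fun z => γ (z - s • v)) ⊆ K) :
    T (Fm χ γ) = T (Fm χ (fun z => γ (z - v))) := by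
  obtain ⟨C, hC0, hC⟩ := taylor2 hγ hγc
  obtain ⟨M, hM⟩ := hT.bound
  obtain ⟨Cχ, hCχ⟩ := hχc.exists_bound_of_continuous hχ.continuous
  have hCχ0 : 0 ≤ Cχ := (norm_nonneg _).trans (hCχ 0)
  have hsm : ∀ s : ℝ, ContDiff ℝ ∞ (fun z => γ (z - s • v)) := fun s =>
    hγ.comp (contDiff_id.sub contDiff_const)
  have hder : ∀ (s : ℝ) (z : ℂ), fderiv ℝ (fun z => γ (z - s • v)) z =
      fderiv ℝ γ (z - s • v) := by
    intro s z
    exact fderiv_comp_sub (s • v)
  have key : ∀ s ∈ Icc (0 : ℝ) 1, ∀ t ∈ Icc (0 : ℝ) 1,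
      |T (Fm χ (fun z => γ (z - t • v))) - T (Fm χ (fun z => γ (z - s • v)))| ≤
        (|M| * (Cχ * C * ‖v‖ ^ 2 * ‖OmC‖)) * (t - s) ^ 2 := by
    intro s hs t ht
    have hz := deriv_zero hU hT hcl hχ hχc hχs hW hχ1 hKW (hsm s) (hsub s hs) ((t - s) • v)
    have hg : ContDiff ℝ ∞ (fun z => fderiv ℝ (fun z => γ (z - s • v)) z ((t - s) • v)) :=
      ((hsm s).fderiv_right (m := ∞) (by simp)).clm_apply contDiff_const
    have t1 := Fm_test hχ hχc hχs (hsm s)
    have t2 := Fm_test hχ hχc hχs (hsm t)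
    have t3 := Fm_test hχ hχc hχs hg
    have e : T (Fm χ (fun z => γ (z - t • v))) - T (Fm χ (fun z => γ (z - s • v))) =
        T (Fm χ (fun z => γ (z - t • v)) - Fm χ (fun z => γ (z - s • v)) +
          Fm χ (fun z => fderiv ℝ (fun z => γ (z - s • v)) z ((t - s) • v))) := by
      rw [hT.add _ _ (t2.sub t1) t3, hT.sub t2 t1, hz, add_zero]
    rw [e]
    have h1 : ComassLE (Fm χ (fun z => γ (z - t • v)) - Fm χ (fun z => γ (z - s • v)) +
          Fm χ (fun z => fderiv ℝ (fun z => γ (z - s • v)) z ((t - s) • v)))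
          (Cχ * (C * (‖v‖ ^ 2 * (t - s) ^ 2)) * ‖OmC‖) := by
      apply comassLE_of_norm
      intro p
      simp only [Pi.add_apply, Pi.sub_apply, Fm]
      have e4 : ∀ a b c : ℝ, a • OmC - b • OmC + c • OmC = (a - b + c) • OmC := by
        intro a b c
        ext u
        simp only [ContinuousAlternatingMap.add_apply, ContinuousAlternatingMap.sub_apply,
          ContinuousAlternatingMap.smul_apply, smul_eq_mul]
        ring
      rw [e4, norm_smul]
      apply mul_le_mul_of_nonneg_right _ (norm_nonneg _)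
      have e3 : χ p * γ (pr1 p - t • v) - χ p * γ (pr1 p - s • v) +
          χ p * fderiv ℝ (fun z => γ (z - s • v)) (pr1 p) ((t - s) • v) =
          χ p * (γ (pr1 p - t • v) - γ (pr1 p - s • v) -
            fderiv ℝ γ (pr1 p - s • v) ((pr1 p - t • v) - (pr1 p - s • v))) := by
        rw [hder]
        have : (pr1 p - t • v) - (pr1 p - s • v) = - ((t - s) • v) := by module
        rw [this, map_neg]
        ring
      rw [e3, norm_mul]
      have h4 := hC (pr1 p - s • v) (pr1 p - t • v)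
      have h5 : ‖(pr1 p - t • v) - (pr1 p - s • v)‖ ^ 2 = ‖v‖ ^ 2 * (t - s) ^ 2 := by
        have : (pr1 p - t • v) - (pr1 p - s • v) = - ((t - s) • v) := by module
        rw [this, norm_neg, norm_smul, mul_pow, Real.norm_eq_abs, sq_abs]
        ring
      rw [h5] at h4
      exact mul_le_mul (hCχ _) (by rw [Real.norm_eq_abs]; exact h4) (norm_nonneg _) hCχ0
    have h6 := hM _ _ ((t2.sub t1).add t3) h1
    refine h6.trans ?_
    have h7 : M * (Cχ * (C * (‖v‖ ^ 2 * (t - s) ^ 2)) * ‖OmC‖) ≤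
        |M| * (Cχ * (C * (‖v‖ ^ 2 * (t - s) ^ 2)) * ‖OmC‖) :=
      mul_le_mul_of_nonneg_right (le_abs_self M) (by positivity)
    refine h7.trans (le_of_eq ?_)
    ring
  have := eq_of_sq_bound (L := fun s => T (Fm χ (fun z => γ (z - s • v)))) key
  simp only [one_smul, zero_smul, sub_zero] at this
  exact this.symm

end BdrySing
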